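import Pool.Agent.R346.BG.Glu
import Pool.Agent.Y749.Rig.FFf

/-! Montgomery's conjecture from a sparse sequence of intervals when almost all zeros are on the
critical line. -/

open MeasureTheory Filter Topology Real
open scoped ContDiff

namespace Pool.Agent.R346.BG.Cr

open Pool.Agent.Y744
open Pool.Agent.Y749.Rig (Adm fl win Mp nT NF cc mG Bdd FF RR)

/-- almost all zeros are on the critical line -/
def AlmostAll : Prop := ∀ η : ℝ, 0 < η → ∀ᶠ T : ℝ in atTop, NF T ≤ η * (T * Real.log T)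

/-- smooth test functions are admissible -/
lemma adm_TK {κ : ℝ} {K : ℝ → ℝ} (hκ : 0 < κ) (hK : TK (κ / 2) K) : Adm κ K := by
  have hcs : CS (κ / 2) (fun α => (K α : ℂ)) := ⟨Complex.ofRealCLM.contDiff.comp hK.smooth,
    fun x hx => by
      show ((K x : ℝ) : ℂ) = 0
      rw [hK.supp x hx, Complex.ofReal_zero]⟩
  refine ⟨hK.even, ?_, fun x hx => hK.supp x (by linarith), ?_⟩
  · obtain ⟨C, hC⟩ := ContDiff.lipschitzWith_of_hasCompactSupport (𝕂 := ℝ) hK.hcs hK.smooth (by simp)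
    refine ⟨C, fun x y => ?_⟩
    have := hC.dist_le_mul x y
    rwa [Real.dist_eq, Real.dist_eq] at this
  · obtain ⟨C, hC, h1⟩ := FL_z' hcs
    refine ⟨C, fun x y => ?_⟩
    have h2 := h1 (x + y * Complex.I) 0
    have e0 : ((x : ℂ) + y * Complex.I - ((0 : ℝ) : ℂ)) = x + y * Complex.I := by simp
    have e1 : ((x : ℂ) + y * Complex.I).im = y := by simp
    have e2 : ((x : ℂ) + y * Complex.I).re = x := by simp
    rw [e0, e1, e2] at h2
    have e3 : Pool.Agent.Y749.Rig.FL K (x + y * Complex.I) =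
        FL (fun α => (K α : ℂ)) (x + y * Complex.I) := rfl
    rw [e3]
    refine h2.trans ?_
    have h3 : 1 + x ^ 2 ≤ (1 + (0 - x) ^ 2) ^ 2 := by
      have : (0 - x) ^ 2 = x ^ 2 := by ring
      rw [this]
      nlinarith [sq_nonneg x, sq_nonneg (x ^ 2)]
    have hpi := Real.pi_pos
    have h4 : Real.exp (2 * π * (κ / 2) * |y|) ≤ Real.exp (2 * π * κ * |y|) := by
      refine Real.exp_le_exp.2 ?_
      have : 0 ≤ π * κ * |y| := by positivity
      linarith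
    refine div_le_div₀ (by positivity) (mul_le_mul_of_nonneg_left h4 hC) (by positivity) h3

lemma ct_fl (K : ℝ → ℝ) (x : ℝ) : ct K x = fl K x := by
  unfold ct fl
  refine integral_congr_ae (Eventually.of_forall fun α => ?_)
  show K α * Real.cos (2 * π * x * α) = K α * Real.cos (2 * π * α * x)
  congr 2
  ring

lemma fav_fl {κ : ℝ} {K : ℝ → ℝ} (hκ : 0 < κ) (hK : TK (κ / 2) K) {h : ℝ} (hh : 0 < h) (y : ℝ) :
    fav K h y = fl (win h K) y := by
  rw [Pool.Agent.Y749.Rig.fl_win (adm_TK hκ hK) hh.le]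
  unfold fav
  simp_rw [← ct_fl]
  have h5 := intervalIntegral.integral_comp_add_left (a := -h) (b := h) (ct K) y
  rw [h5]
  congr 1

/-- bound for the counting function -/
lemma Aa_bd : ∃ C0 T0 : ℝ, 20 ≤ T0 ∧ ∀ T : ℝ, T0 ≤ T → ∀ y, |Aa T y| ≤ C0 * (1 + y ^ 2) := by
  obtain ⟨C, hC, hB⟩ := Pool.Agent.Y749.Rig.Mp_bdd
  obtain ⟨T1, hT1⟩ := hB.exists_forall_of_atTop
  refine ⟨4 * C, max 20 T1, le_max_left _ _, fun T hT y => ?_⟩
  have hT20 : 20 ≤ T := (le_max_left _ _).trans hT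
  have h1 := hT1 T ((le_max_right _ _).trans hT)
  rcases lt_or_ge y 0 with hy | hy
  · rw [Aa_neg T y hy, abs_zero]
    positivity
  · rw [← Pool.Agent.Y749.Rig.Mp_Aa (by linarith) y, abs_of_nonneg measureReal_nonneg]
    have h2 := Pool.Agent.Y749.Rig.wf_le (by linarith) h1 y 0
    unfold Pool.Agent.Y749.Rig.wf at h2
    rw [zero_sub, zero_add] at h2
    refine h2.trans ?_
    have h3 : ((⌈2 * y⌉₊ : ℕ) : ℝ) < 2 * y + 1 := Nat.ceil_lt_add_one (by positivity)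
    have h4 : ((⌈2 * y⌉₊ : ℕ) : ℝ) + 1 ≤ 4 * (1 + y ^ 2) := by nlinarith [sq_nonneg (y - 1)]
    have hC0 : 0 ≤ C := by linarith
    calc (((⌈2 * y⌉₊ : ℕ) : ℝ) + 1) * C ≤ (4 * (1 + y ^ 2)) * C :=
          mul_le_mul_of_nonneg_right h4 hC0
      _ = _ := by ring

/-- the limit function along an ultrafilter -/
lemma exists_limit (hoff : AlmostAll) : ∃ κ : ℝ, 0 < κ ∧ ∀ (g : Ultrafilter ℝ),
    (g : Filter ℝ) ≤ atTop →
    ∃ (A' : ℝ → ℝ) (C0 : ℝ), Monotone A' ∧ (∀ y, y < 0 → A' y = 0) ∧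
      (∀ y, |A' y| ≤ C0 * (1 + y ^ 2)) ∧ 1 ≤ A' 0 ∧
      (∀ y, Tendsto (fun T => Aa T y) (g : Filter ℝ) (𝓝 (A' y))) ∧
      (∀ K, TK κ K → ∀ h, 0 < h →
        ∫ y, A' y * (ct K (y + h) - ct K (y - h)) = ∫ y, AG y * (ct K (y + h) - ct K (y - h))) := by
  obtain ⟨κ, hκ, hκ2, hblk⟩ := Pool.Agent.Y749.Rig.blk_main
  obtain ⟨C0, T0, hT0, hb⟩ := Aa_bd
  refine ⟨κ / 2, by positivity, fun g hgt => ?_⟩
  have hmono : ∀ T, T0 ≤ T → Monotone (Aa T) := fun T hT => Aa_mono (by linarith)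
  have hT : ∀ᶠ T in (g : Filter ℝ), T0 ≤ T := hgt (eventually_ge_atTop _)
  have hex : ∀ y, ∃ L, Tendsto (fun T => Aa T y) (g : Filter ℝ) (𝓝 L) := by
    intro y
    have h1 : ((g.map fun T => Aa T y : Ultrafilter ℝ) : Filter ℝ) ≤
        𝓟 (Set.Icc (-(C0 * (1 + y ^ 2))) (C0 * (1 + y ^ 2))) := by
      rw [le_principal_iff]
      have h2 : ∀ᶠ T in (g : Filter ℝ), Aa T y ∈
          Set.Icc (-(C0 * (1 + y ^ 2))) (C0 * (1 + y ^ 2)) := by
        filter_upwards [hT] with T hT1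
        exact abs_le.1 (hb T hT1 y)
      exact h2
    obtain ⟨L, _, hL⟩ := isCompact_Icc.ultrafilter_le_nhds _ h1
    exact ⟨L, hL⟩
  choose A' hlim using hex
  have hA' : Monotone A' := by
    intro a b hab
    refine le_of_tendsto_of_tendsto (hlim a) (hlim b) ?_
    filter_upwards [hT] with T hT1 using hmono T hT1 hab
  refine ⟨A', C0, hA', fun y hy => ?_, fun y => ?_, ?_, hlim, fun K hK h hh => ?_⟩
  · refine tendsto_nhds_unique (hlim y) ?_
    have : (fun T => Aa T y) = fun _ => 0 := funext fun T => Aa_neg T y hy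
    rw [this]
    exact tendsto_const_nhds
  · refine le_of_tendsto (hlim y).abs ?_
    filter_upwards [hT] with T hT1 using hb T hT1 y
  · refine le_of_forall_pos_le_add fun ε hε => ?_
    have h1 : ∀ᶠ T in (g : Filter ℝ), 1 - ε ≤ Aa T 0 := hgt (Aa_diag hε)
    have := ge_of_tendsto (hlim 0) h1
    linarith
  · obtain ⟨D, hD⟩ := test_decay hK h
    have hA := adm_TK hκ hK
    have hW := Pool.Agent.Y749.Rig.adm_win hA hh.le
    have hfc : Continuous (fl (win h K)) := Pool.Agent.Y749.Rig.fl_cont hW.int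
    refine lim_int hmono hb ?_ hD ?_ hgt hA' hlim
    · exact (hK.ct_cont.measurable.comp (by fun_prop)).sub
        (hK.ct_cont.measurable.comp (by fun_prop))
    · have h1 := (Pool.Agent.Y749.Rig.test_lim hW (hblk _ hW hoff)).neg
      have e1 : ∫ y, AG y * (ct K (y + h) - ct K (y - h)) = -cc (win h K) := by
        rw [AG_int hK hh, ← Pool.Agent.Y749.Rig.mG_test hW (by linarith),
          Pool.Agent.Y749.Rig.mG_integral hfc (Pool.Agent.Y749.Rig.fl_qd hW), fav_fl hκ hK hh]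
        congr 2
        refine integral_congr_ae ?_
        have h0 : ∀ᵐ x : ℝ, x ≠ 0 := by
          rw [ae_iff]
          simp
        filter_upwards [h0] with x hx
        rw [fav_fl hκ hK hh]
        congr 1
        unfold gd FF
        have hpi := Real.pi_pos
        rw [Real.sinc_of_ne_zero (by positivity)]
      rw [e1]
      refine h1.congr' ?_
      filter_upwards [eventually_ge_atTop (20 : ℝ)] with T hT
      rw [Aa_int hK hh, Pool.Agent.Y749.Rig.Mp_integral (by linarith)]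
      congr 1
      have e2 : Xf T = nT T := by
        unfold Xf nT
        ring
      rw [e2, div_eq_inv_mul]
      congr 1
      unfold RR Q2 QS
      rw [Pool.Agent.Y749.Rig.ZZ_eq]
      refine Finset.sum_congr rfl fun s _ => Finset.sum_congr rfl fun s' _ => ?_
      rw [fav_fl hκ hK hh]
      rfl

section

variable {l : Filter ℝ}

lemma SpG_per (hl : l ≤ atTop) {κ : ℝ} (hκ : 0 < κ) {ℓ : ℝ} (hℓ : 0 < ℓ) (h : SpG l ℓ)
    {g : Ultrafilter ℝ} (hg : (g : Filter ℝ) ≤ l) {A' : ℝ → ℝ} {C0 : ℝ} (hA' : Monotone A')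
    (hneg : ∀ y, y < 0 → A' y = 0) (hb : ∀ y, |A' y| ≤ C0 * (1 + y ^ 2))
    (hlim : ∀ y, Tendsto (fun T => Aa T y) (g : Filter ℝ) (𝓝 (A' y)))
    (hm : ∀ K, TK κ K → ∀ h, 0 < h →
        ∫ y, A' y * (ct K (y + h) - ct K (y - h)) = ∫ y, AG y * (ct K (y + h) - ct K (y - h))) :
    ∀ᵐ x, dE A' (x + ℓ) = dE A' x := by
  have one : ∀ s : ℝ, (s = 1 ∨ s = -1) → OneS l ℓ s → ∀ᵐ x, dE A' (x + ℓ) = dE A' x := by
    intro s hs h
    obtain ⟨C, c, a0, hC, hc, ha0, h1⟩ := h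
    have hs' : -s = 1 ∨ -s = -1 := by
      rcases hs with rfl | rfl
      · right; rfl
      · left; norm_num
    have h2 : ∀ a, a0 ≤ a → ∀ ε, 0 < ε → ∀ᶠ T in l,
        -(2 * C * Real.exp (-(c * a))) - ε ≤ -s * (Ww T a ℓ - 2 * (gp (a + ℓ) - gp a)) := by
      intro a ha ε hε
      filter_upwards [h1 a ha (ε / 2) (by positivity)] with T hT
      rw [Ww_eq (by linarith)]
      nlinarith
    have c1 := cond_limit (T0 := 2) (W := Ww) (fun T hT a ℓ ha hℓ => Ww_lower (by linarith))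
      (fun T hT a ℓ η ha hℓ hη => Ww_upper (by linarith) hη hℓ) (hg.trans hl) hlim hℓ hs' ha0
      (fun a ha ε hε => hg (h2 a ha ε hε))
    exact Pool.Agent.Y744.periodic (κ := κ) hκ hA' hneg hb hm hℓ hs' (by positivity) hc ha0 c1
  rcases h with h | h | h
  · obtain ⟨p, q, C, c, hC, hc, h0, h1, h2, hs, h3⟩ := h
    exact periodic_sparse (κ := κ) hκ hA' hneg hb hm hℓ h0 h1 h2 hs
      (C := 2 * C) (by positivity) hc fun n a ha ha2 hcont => by
        have h4 := cond_pt (hg.trans hl) hlim ((h0 n).trans ha) hℓ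
          (fun ε hε => hg (h3 n a ha ha2 ε hε)) hcont
        rwa [← mul_assoc] at h4
  · exact one 1 (Or.inl rfl) h
  · exact one (-1) (Or.inr rfl) h

/-- the discrepancy for the lengths in the group generated by the given ones -/
theorem grp (hoff : AlmostAll) (hl : l ≤ atTop) {Λ : Set ℝ} (hΛ : ∀ ℓ ∈ Λ, 0 < ℓ)
    (h : ∀ ℓ ∈ Λ, SpG l ℓ) {γ : ℝ} (hγ : 0 < γ) (hγ2 : γ ∈ AddSubgroup.closure Λ) (x : ℝ) {ε : ℝ}
    (hε : 0 < ε) : ∀ᶠ T in l, |Aa T x - AG x| ≤ Me γ + ε := by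
  obtain ⟨κ, hκ, hlimit⟩ := exists_limit hoff
  have key : {T | |Aa T x - AG x| ≤ Me γ + ε} ∈ l := by
    rw [Filter.mem_iff_ultrafilter]
    intro g hg
    obtain ⟨A', C0, hA', hneg, hb, h00, hlim, hm⟩ := hlimit g (hg.trans hl)
    have p1 : ∀ᵐ x, dE A' (x + γ) = dE A' x := per_group
      (fun ℓ hℓ => SpG_per hl hκ (hΛ ℓ hℓ) (h ℓ hℓ) hg hA' hneg hb hlim hm) hγ2
    have h3 := single_all hA' hneg h00 hγ p1 x
    have h4 : Tendsto (fun T => |Aa T x - AG x|) (g : Filter ℝ) (𝓝 |A' x - AG x|) :=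
      ((hlim x).sub_const _).abs
    have h5 : ∀ᶠ T in (g : Filter ℝ), |Aa T x - AG x| < Me γ + ε :=
      (tendsto_order.1 h4).2 _ (by linarith)
    exact h5.mono fun T hT => le_of_lt hT
  exact key

/-- a dense group of lengths -/
theorem dns (hoff : AlmostAll) (hl : l ≤ atTop) {Λ : Set ℝ} (hΛ : ∀ ℓ ∈ Λ, 0 < ℓ)
    (hd : Dense (AddSubgroup.closure Λ : Set ℝ)) (h : ∀ ℓ ∈ Λ, SpG l ℓ) (x : ℝ) :
    Tendsto (fun T => Aa T x) l (𝓝 (AG x)) := by
  rw [Metric.tendsto_nhds]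
  intro ε hε
  -- a small element of the group
  have h1 : ∃ δ : ℝ, 0 < δ ∧ δ ≤ 1 ∧ Real.pi ^ 2 / 9 * δ ≤ ε / 3 := by
    refine ⟨min 1 (ε / 3 / (Real.pi ^ 2 / 9)), by positivity, min_le_left _ _, ?_⟩
    have h2 := min_le_right 1 (ε / 3 / (Real.pi ^ 2 / 9))
    have h3 : 0 < Real.pi ^ 2 / 9 := by positivity
    rw [le_div_iff₀ h3] at h2
    linarith
  obtain ⟨δ, hδ, hδ1, hδε⟩ := h1
  obtain ⟨γ, hγ, hγ1, hγ2⟩ := hd.exists_between hδ
  have hMe : Me γ ≤ ε / 3 := by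
    refine (Me_le hγ1).trans (le_trans ?_ hδε)
    refine mul_le_mul_of_nonneg_left ?_ (by positivity)
    have : γ ^ 3 ≤ γ := by
      have h3 : γ ≤ 1 := by linarith
      have h4 : γ ^ 3 ≤ γ ^ 1 := pow_le_pow_of_le_one hγ1.le h3 (by norm_num)
      rwa [pow_one] at h4
    linarith
  filter_upwards [grp hoff hl hΛ h hγ1 hγ x (show 0 < ε / 3 by positivity)] with T hT
  rw [Real.dist_eq]
  linarith

end

end Pool.Agent.R346.BG.Cr
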