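import Pool.Agent.R346.BG.Crit

/-! Statements for the counting function `N*`. -/

open Filter Topology

namespace Pool.Agent.R346.BG.Cr.S

open Pool.Agent.Y744 (Zt mz PC dd Nr Aa AG gp Xf Xf_pos Me Me_le mem_Zt)

/-- the nontrivial zeros of zeta -/
def zeros : Set ℂ := {s : ℂ | riemannZeta s = 0 ∧ 0 < s.re ∧ s.re < 1}

/-- the nontrivial zeros of zeta with ordinate in `(0, T]` -/
def zerosTo (T : ℝ) : Set ℂ := {s : ℂ | s ∈ zeros ∧ 0 < s.im ∧ s.im ≤ T}

/-- the number of the zeros off the critical line with ordinate in `(0, T]`, with multiplicity -/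
noncomputable def Noff (T : ℝ) : ℕ :=
  ∑ᶠ s ∈ {s : ℂ | s ∈ zerosTo T ∧ s.re ≠ 1 / 2}, analyticOrderNatAt riemannZeta s

/-- the number `N*(T, a)` -/
noncomputable def Nstar (T a : ℝ) : ℕ :=
  ∑ᶠ s ∈ zerosTo T, ∑ᶠ s' ∈ {s' : ℂ | s' ∈ zeros ∧ 0 < s.im - s'.im ∧
    s.im - s'.im ≤ 2 * Real.pi * a / Real.log T},
    analyticOrderNatAt riemannZeta s * analyticOrderNatAt riemannZeta s'

/-- the number of pairs in the window `[α, β]` -/
noncomputable def Nwin (T α β : ℝ) : ℕ :=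
  ∑ᶠ s ∈ zerosTo T, ∑ᶠ s' ∈ {s' : ℂ | s' ∈ zerosTo T ∧
    α ≤ (s.im - s'.im) * Real.log T / (2 * Real.pi) ∧
    (s.im - s'.im) * Real.log T / (2 * Real.pi) ≤ β},
    analyticOrderNatAt riemannZeta s * analyticOrderNatAt riemannZeta s'

/-- the pair correlation function -/
noncomputable def F (u : ℝ) : ℝ := 1 - (Real.sin (Real.pi * u) / (Real.pi * u)) ^ 2

/-- the discrepancy of `N*` -/
noncomputable def Dstar (T a : ℝ) : ℝ :=
  Nstar T a / (T * Real.log T / (2 * Real.pi)) - ∫ u in (0 : ℝ)..a, F u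

/-- the discrepancy of a window -/
noncomputable def D (T α β : ℝ) : ℝ :=
  Nwin T α β / (T * Real.log T / (2 * Real.pi)) - ∫ u in α..β, F u

/-- the conjecture along `l` -/
def PCC (l : Filter ℝ) : Prop := ∀ a : ℝ, 0 < a →
  Tendsto (fun T : ℝ => (Nstar T a : ℝ) / (T * Real.log T)) l
    (𝓝 (1 / (2 * Real.pi) * ∫ u in (0 : ℝ)..a, F u))

/-- control of the windows of length `ℓ` inside a sparse sequence of intervals -/
def Sparse (l : Filter ℝ) (ℓ : ℝ) : Prop := ∃ (p q : ℕ → ℝ) (C c : ℝ), 0 < C ∧ 0 < c ∧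
  (∀ n, 0 < p n) ∧ (∀ n, p n < q n) ∧ (∀ n, q n ≤ p (n + 1)) ∧
  (¬ Summable fun n => ((q n - p n) / q n) ^ 2) ∧ ∀ n a, p n < a → a + ℓ < q n →
    ∀ ε : ℝ, 0 < ε → ∀ᶠ T in l, |D T a (a + ℓ)| ≤ C * Real.exp (-(c * (q n - p n))) + ε

/-- one sided bound -/
def OneSided (l : Filter ℝ) (ℓ s : ℝ) : Prop := ∃ C c A : ℝ, 0 < C ∧ 0 < c ∧ 0 < A ∧
  ∀ a : ℝ, A ≤ a → ∀ ε : ℝ, 0 < ε → ∀ᶠ T in l, s * D T a (a + ℓ) ≤ C * Real.exp (-(c * a)) + ε

/-- good lengths -/
def Good (l : Filter ℝ) (ℓ : ℝ) : Prop := Sparse l ℓ ∨ OneSided l ℓ 1 ∨ OneSided l ℓ (-1)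

lemma mem_Zt' {T : ℝ} {s : ℂ} : s ∈ Zt T ↔
    0 < s.re ∧ s.re < 1 ∧ 0 < s.im ∧ s.im ≤ T ∧ riemannZeta s = 0 := mem_Zt

lemma zerosTo_finite (T : ℝ) : (zerosTo T).Finite := by
  refine (Zt T).finite_toSet.subset ?_
  rintro s ⟨⟨h1, h2, h3⟩, h4, h5⟩
  rw [Finset.mem_coe, mem_Zt']
  exact ⟨h2, h3, h4, h5, h1⟩

lemma toFinset_eq (T : ℝ) : (zerosTo_finite T).toFinset = Zt T := by
  ext s
  rw [Set.Finite.mem_toFinset, mem_Zt']
  simp only [zerosTo, zeros, Set.mem_ofPred_eq]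
  tauto

lemma inner_eq {T : ℝ} (p : ℂ → Prop) [DecidablePred p] (S : Set ℂ)
    (hS : ∀ s', s' ∈ S ↔ s' ∈ Zt T ∧ p s') (f : ℂ → ℕ) :
    ∑ᶠ s' ∈ S, f s' = ∑ s' ∈ Zt T, if p s' then f s' else 0 := by
  rw [← Finset.sum_filter, ← finsum_mem_coe_finset]
  have : S = ((Zt T).filter p : Set ℂ) := by
    ext s'
    rw [Finset.coe_filter, hS]
    rfl
  rw [this]

/-- a gap below the ordinates -/
lemma ord_gap : ∃ δ : ℝ, 0 < δ ∧ ∀ s : ℂ, riemannZeta s = 0 → 0 < s.re → s.re < 1 → 0 < s.im →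
    δ ≤ s.im := by
  classical
  have hne : (insert 1 ((Zt 1).image Complex.im)).Nonempty := ⟨1, Finset.mem_insert_self _ _⟩
  refine ⟨(insert 1 ((Zt 1).image Complex.im)).min' hne, ?_, fun s h1 h2 h3 h4 => ?_⟩
  · rw [Finset.lt_min'_iff]
    intro y hy
    rw [Finset.mem_insert, Finset.mem_image] at hy
    rcases hy with rfl | ⟨s, hs, rfl⟩
    · exact one_pos
    · exact (mem_Zt'.1 hs).2.2.1
  · rcases le_or_gt s.im 1 with h5 | h5
    · refine Finset.min'_le _ _ ?_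
      rw [Finset.mem_insert, Finset.mem_image]
      exact Or.inr ⟨s, mem_Zt'.2 ⟨h2, h3, h4, h5, h1⟩, rfl⟩
    · exact (Finset.min'_le _ _ (Finset.mem_insert_self _ _)).trans h5.le

lemma Nwin_PC (T α β : ℝ) : (Nwin T α β : ℝ) = PC T (Set.Icc α β) := by
  classical
  unfold Nwin PC
  rw [finsum_mem_eq_finite_toFinset_sum _ (zerosTo_finite T), toFinset_eq]
  push_cast
  refine Finset.sum_congr rfl fun s _ => ?_
  rw [inner_eq (T := T) (fun s' => α ≤ (s.im - s'.im) * Real.log T / (2 * Real.pi) ∧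
    (s.im - s'.im) * Real.log T / (2 * Real.pi) ≤ β)]
  · push_cast
    refine Finset.sum_congr rfl fun s' _ => ?_
    unfold mz H370.mult dd
    by_cases h : α ≤ (s.im - s'.im) * Real.log T / (2 * Real.pi) ∧
      (s.im - s'.im) * Real.log T / (2 * Real.pi) ≤ β
    · rw [if_pos h, Set.indicator_of_mem (show _ ∈ Set.Icc α β from h), mul_one]
    · rw [if_neg h, Set.indicator_of_notMem (show _ ∉ Set.Icc α β from h), mul_zero]
  · intro s'
    rw [mem_Zt']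
    simp only [zerosTo, zeros, Set.mem_ofPred_eq]
    tauto

lemma Nstar_PC {δ : ℝ} (hδ : ∀ s : ℂ, riemannZeta s = 0 → 0 < s.re → s.re < 1 → 0 < s.im →
    δ ≤ s.im) {T : ℝ} (hT : 1 < T) {a : ℝ} (ha : 2 * Real.pi * a / Real.log T < δ) :
    (Nstar T a : ℝ) = PC T (Set.Ioc 0 a) := by
  classical
  have hL : 0 < Real.log T := Real.log_pos hT
  have hpi := Real.pi_pos
  unfold Nstar PC
  rw [finsum_mem_eq_finite_toFinset_sum _ (zerosTo_finite T), toFinset_eq]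
  push_cast
  refine Finset.sum_congr rfl fun s hs => ?_
  rw [mem_Zt'] at hs
  rw [inner_eq (T := T) (fun s' => 0 < s.im - s'.im ∧ s.im - s'.im ≤ 2 * Real.pi * a / Real.log T)]
  · push_cast
    refine Finset.sum_congr rfl fun s' _ => ?_
    unfold mz H370.mult dd
    have hiff : (0 < s.im - s'.im ∧ s.im - s'.im ≤ 2 * Real.pi * a / Real.log T) ↔
        (s.im - s'.im) * Real.log T / (2 * Real.pi) ∈ Set.Ioc 0 a := by
      rw [Set.mem_Ioc, div_le_iff₀ (by positivity), le_div_iff₀ hL]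
      constructor
      · rintro ⟨h1, h2⟩
        exact ⟨by positivity, by linarith⟩
      · rintro ⟨h1, h2⟩
        refine ⟨?_, by linarith⟩
        by_contra h3
        push Not at h3
        have : (s.im - s'.im) * Real.log T / (2 * Real.pi) ≤ 0 :=
          div_nonpos_of_nonpos_of_nonneg (mul_nonpos_of_nonpos_of_nonneg h3 hL.le) (by positivity)
        linarith
    by_cases h : 0 < s.im - s'.im ∧ s.im - s'.im ≤ 2 * Real.pi * a / Real.log T
    · rw [if_pos h, Set.indicator_of_mem (hiff.1 h), mul_one]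
    · rw [if_neg h, Set.indicator_of_notMem (fun h2 => h (hiff.2 h2)), mul_zero]
  · intro s'
    rw [mem_Zt']
    constructor
    · rintro ⟨⟨g1, g2, g3⟩, g4, g5⟩
      have := hδ s hs.2.2.2.2 hs.1 hs.2.1 hs.2.2.1
      exact ⟨⟨g2, g3, by linarith, by linarith [hs.2.2.2.1], g1⟩, g4, g5⟩
    · rintro ⟨⟨g1, g2, g3, g4, g5⟩, g6, g7⟩
      exact ⟨⟨g5, g1, g2⟩, g6, g7⟩

lemma Noff_NF (T : ℝ) : (Noff T : ℝ) = Pool.Agent.Y749.Rig.NF T := by
  classical
  have : Noff T = ∑ s ∈ Zt T, if s.re ≠ 1 / 2 then analyticOrderNatAt riemannZeta s else 0 := by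
    unfold Noff
    apply inner_eq (T := T) (fun s => s.re ≠ 1 / 2)
    intro s
    rw [mem_Zt']
    simp only [zerosTo, zeros, Set.mem_ofPred_eq]
    tauto
  rw [this]
  unfold Pool.Agent.Y749.Rig.NF
  rw [Pool.Agent.Y749.Rig.ZZ_eq, Finset.sum_filter]
  push_cast
  refine Finset.sum_congr rfl fun s _ => ?_
  unfold Pool.Agent.Y749.Rig.mm H370.mult
  split_ifs <;> simp

lemma almost (h : Tendsto (fun T : ℝ => (Noff T : ℝ) / (T * Real.log T)) atTop (𝓝 0)) :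
    AlmostAll := by
  intro η hη
  filter_upwards [h.eventually (gt_mem_nhds hη), eventually_ge_atTop 10] with T h3 hT
  have hL : 0 < Real.log T := Real.log_pos (by linarith)
  rw [div_lt_iff₀ (by positivity)] at h3
  rw [← Noff_NF]
  exact h3.le

lemma F_gp (a b : ℝ) : ∫ u in a..b, F u = gp b - gp a := Pool.Agent.Y749.Rig.FF_gd a b

lemma D_Nr (T α β : ℝ) : D T α β = Nr T α β - (gp β - gp α) := by
  unfold D Nr
  rw [Nwin_PC, F_gp]
  rfl

lemma Sparse.sps {l : Filter ℝ} {ℓ : ℝ} (h : Sparse l ℓ) : SpS l ℓ := by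
  obtain ⟨p, q, C, c, hC, hc, h0, h1, h2, hs, h3⟩ := h
  refine ⟨p, q, C, c, hC, hc, h0, h1, h2, hs, fun n a ha ha2 ε hε => ?_⟩
  filter_upwards [h3 n a ha ha2 ε hε] with T h4
  rwa [D_Nr] at h4

lemma OneSided.ones {l : Filter ℝ} {ℓ s : ℝ} (h : OneSided l ℓ s) :
    Pool.Agent.Y744.OneS l ℓ s := by
  obtain ⟨C, c, A, hC, hc, hA, h⟩ := h
  refine ⟨C, c, A, hC, hc, hA, fun a ha ε hε => ?_⟩
  filter_upwards [h a ha ε hε] with T h1
  rwa [D_Nr] at h1

lemma Good.spg {l : Filter ℝ} {ℓ : ℝ} (h : Good l ℓ) : SpG l ℓ := by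
  rcases h with h | h | h
  · exact Or.inl h.sps
  · exact Or.inr (Or.inl h.ones)
  · exact Or.inr (Or.inr h.ones)

lemma Aa_split {T a : ℝ} (ha : 0 ≤ a) :
    Aa T a = Aa T 0 + 2 * (PC T (Set.Ioc 0 a) / Xf T) := by
  unfold Aa
  have e1 : {x : ℝ | |x| ≤ a} = {x : ℝ | |x| ≤ 0} ∪ (Set.Ioc 0 a ∪ -Set.Ioc 0 a) := by
    ext x
    simp only [Set.mem_ofPred_eq, Set.mem_union, Set.mem_Ioc, Set.mem_neg, abs_nonpos_iff]
    constructor
    · intro h
      rw [abs_le] at h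
      rcases lt_trichotomy x 0 with hx | hx | hx
      · right; right; exact ⟨by linarith, by linarith⟩
      · left; exact hx
      · right; left; exact ⟨hx, h.2⟩
    · rw [abs_le]
      rintro (h | h | h)
      · rw [h]; exact ⟨by linarith, ha⟩
      · exact ⟨by linarith [h.1], h.2⟩
      · exact ⟨by linarith [h.2], by linarith [h.1]⟩
  rw [e1, Pool.Agent.Y744.PC_union T, Pool.Agent.Y744.PC_union T, Pool.Agent.Y744.PC_neg]
  · ring
  · rw [Set.disjoint_left]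
    rintro x h1 h2
    have h3 := h1.1
    have h4 : 0 < -x := h2.1
    linarith
  · rw [Set.disjoint_left]
    rintro x (h1 : |x| ≤ 0) h2
    rw [abs_nonpos_iff] at h1
    rw [h1] at h2
    rcases h2 with h2 | h2
    · exact lt_irrefl _ h2.1
    · have : (0 : ℝ) < -0 := h2.1
      linarith

lemma ev_star (a : ℝ) : ∀ᶠ T : ℝ in atTop, (Nstar T a : ℝ) = PC T (Set.Ioc 0 a) := by
  obtain ⟨δ, hδ, hord⟩ := ord_gap
  have h1 : Tendsto (fun T : ℝ => 2 * Real.pi * a / Real.log T) atTop (𝓝 0) :=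
    Real.tendsto_log_atTop.const_div_atTop _
  filter_upwards [h1.eventually (gt_mem_nhds hδ), eventually_ge_atTop 10] with T h2 hT
  exact Nstar_PC hord (by linarith) h2

/-- the conjecture in terms of `PC` -/
lemma PCC_iff {l : Filter ℝ} (hl : l ≤ atTop) : PCC l ↔ ∀ a : ℝ, 0 < a →
    Tendsto (fun T => PC T (Set.Ioc 0 a) / Xf T) l (𝓝 (gp a)) := by
  refine forall_congr' fun a => forall_congr' fun ha => ?_
  have hpi := Real.pi_pos
  have e0 : ∫ u in (0 : ℝ)..a, F u = gp a := by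
    rw [F_gp, Pool.Agent.Y744.gp_zero, sub_zero]
  rw [e0]
  have e1 : ∀ᶠ T in l, PC T (Set.Ioc 0 a) / Xf T = 2 * Real.pi * ((Nstar T a : ℝ) /
      (T * Real.log T)) := by
    filter_upwards [hl (ev_star a), hl (eventually_ge_atTop (10 : ℝ))] with T h1 h2
    have hL : 0 < Real.log T := Real.log_pos (by linarith)
    rw [h1]
    unfold Xf
    field_simp
  constructor
  · intro h
    have h1 := h.const_mul (2 * Real.pi)
    have e2 : 2 * Real.pi * (1 / (2 * Real.pi) * gp a) = gp a := by field_simp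
    rw [e2] at h1
    exact h1.congr' (e1.mono fun T hT => hT.symm)
  · intro h
    have h1 := (h.congr' e1).const_mul (1 / (2 * Real.pi))
    refine h1.congr fun T => ?_
    field_simp

/-- the windows -/
lemma win_of {l : Filter ℝ} (hl : l ≤ atTop) (h : ∀ a : ℝ, 0 < a →
    Tendsto (fun T => PC T (Set.Ioc 0 a) / Xf T) l (𝓝 (gp a))) {α β : ℝ} (hα : 0 < α)
    (hαβ : α < β) {ε : ℝ} (hε : 0 < ε) :
    ∀ᶠ T in l, |Nr T α β - (gp β - gp α)| ≤ ε := by
  set δ : ℝ := min (α / 2) (ε / 4) with hδ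
  have hδ0 : 0 < δ := lt_min (by positivity) (by positivity)
  have hδ1 : δ ≤ α / 2 := min_le_left _ _
  have hδ2 : δ ≤ ε / 4 := min_le_right _ _
  have hg := Pool.Agent.Y749.Rig.gp_lip (show α - δ ≤ α by linarith)
  have lim : ∀ a : ℝ, 0 < a → ∀ᶠ T in l, |PC T (Set.Ioc 0 a) / Xf T - gp a| < ε / 4 := by
    intro a ha
    have := (Metric.tendsto_nhds.1 (h a ha)) (ε / 4) (by positivity)
    filter_upwards [this] with T hT
    rwa [Real.dist_eq] at hT
  filter_upwards [lim α hα, lim β (by linarith), lim (α - δ) (by linarith),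
    hl (eventually_gt_atTop (1 : ℝ))] with T h1 h2 h3 hT
  have hX := Xf_pos hT
  have m1 : PC T (Set.Icc α β) + PC T (Set.Ioc 0 (α - δ)) ≤ PC T (Set.Ioc 0 β) := by
    rw [← Pool.Agent.Y744.PC_union T]
    · refine Pool.Agent.Y744.PC_mono T fun x hx => ?_
      rcases hx with hx | hx
      · exact ⟨by linarith [hx.1], hx.2⟩
      · exact ⟨hx.1, by linarith [hx.2]⟩
    · rw [Set.disjoint_left]
      rintro x hx1 hx2
      linarith [hx1.1, hx2.2]
  have m2 : PC T (Set.Ioc 0 β) ≤ PC T (Set.Ioc 0 α) + PC T (Set.Icc α β) := by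
    have m3 : PC T (Set.Ioc 0 β) ≤ PC T (Set.Ioc 0 α ∪ Set.Ioc α β) := by
      refine Pool.Agent.Y744.PC_mono T fun x hx => ?_
      rcases le_or_gt x α with hx1 | hx1
      · left; exact ⟨hx.1, hx1⟩
      · right; exact ⟨hx1, hx.2⟩
    rw [Pool.Agent.Y744.PC_union T (by
      rw [Set.disjoint_left]
      rintro x hx1 hx2
      linarith [hx1.2, hx2.1])] at m3
    have m4 : PC T (Set.Ioc α β) ≤ PC T (Set.Icc α β) :=
      Pool.Agent.Y744.PC_mono T Set.Ioc_subset_Icc_self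
    linarith
  have n1 : Nr T α β + PC T (Set.Ioc 0 (α - δ)) / Xf T ≤ PC T (Set.Ioc 0 β) / Xf T := by
    unfold Nr
    rw [← add_div]
    exact div_le_div_of_nonneg_right m1 hX.le
  have n2 : PC T (Set.Ioc 0 β) / Xf T ≤ PC T (Set.Ioc 0 α) / Xf T + Nr T α β := by
    unfold Nr
    rw [← add_div]
    exact div_le_div_of_nonneg_right m2 hX.le
  rw [abs_lt] at h1 h2 h3
  rw [abs_le]
  constructor <;> linarith [h1.1, h1.2, h2.1, h2.2, h3.1, h3.2]

lemma PCC_Sparse {l : Filter ℝ} (hl : l ≤ atTop) (h : PCC l) {ℓ : ℝ} (hℓ : 0 < ℓ) :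
    Sparse l ℓ := by
  rw [PCC_iff hl] at h
  refine ⟨fun n => 2 ^ n, fun n => 2 ^ (n + 1), 1, 1, one_pos, one_pos, fun n => by positivity,
    fun n => ?_, fun n => le_rfl, ?_, fun n a ha ha2 ε hε => ?_⟩
  · show (2 : ℝ) ^ n < 2 ^ (n + 1)
    exact pow_lt_pow_right₀ (by norm_num) (Nat.lt_succ_self n)
  · have e : (fun n : ℕ => (((2 : ℝ) ^ (n + 1) - 2 ^ n) / 2 ^ (n + 1)) ^ 2) =
        fun _ => (1 / 4 : ℝ) := by
      funext n
      have h5 : (0 : ℝ) < 2 ^ n := by positivity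
      have h6 : (2 : ℝ) ^ (n + 1) = 2 * 2 ^ n := by ring
      rw [h6, div_pow, div_eq_div_iff (by positivity) (by norm_num)]
      ring
    rw [e, summable_const_iff]
    norm_num
  · have ha0 : 0 < a := lt_trans (by positivity) ha
    filter_upwards [win_of hl h ha0 (show a < a + ℓ by linarith) hε] with T hT
    rw [D_Nr]
    have h3 := Real.exp_pos (-(1 * ((2 : ℝ) ^ (n + 1) - 2 ^ n)))
    linarith

theorem main (h : Tendsto (fun T : ℝ => (Noff T : ℝ) / (T * Real.log T)) atTop (𝓝 0))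
    (l : Filter ℝ) (hl : l ≤ atTop) (Λ : Set ℝ) (hΛ : ∀ ℓ ∈ Λ, 0 < ℓ) :
    ((∀ ℓ ∈ Λ, Good l ℓ) → ∀ γ ∈ AddSubgroup.closure Λ, 0 < γ → ∀ a : ℝ, 0 < a →
      ∀ ε : ℝ, 0 < ε → ∀ᶠ T in l, |Dstar T a| ≤ Real.pi ^ 2 / 9 * γ ^ 3 + ε) ∧
    (Dense (AddSubgroup.closure Λ : Set ℝ) → (PCC l ↔ ∀ ℓ ∈ Λ, Good l ℓ)) := by
  have hoff := almost h
  refine ⟨fun hG γ hγ2 hγ a ha ε hε => ?_, fun hd => ⟨fun hP ℓ hℓ => Or.inl
    (PCC_Sparse hl hP (hΛ ℓ hℓ)), fun hG => ?_⟩⟩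
  · filter_upwards [grp hoff hl hΛ (fun ℓ hℓ => (hG ℓ hℓ).spg) hγ hγ2 a hε,
      grp hoff hl hΛ (fun ℓ hℓ => (hG ℓ hℓ).spg) hγ hγ2 0 hε, hl (ev_star a)] with T h1 h2 h3
    have hA : AG a = 1 + 2 * gp a := by
      unfold AG
      rw [if_neg (by linarith)]
    have hA0 : AG 0 = 1 := by
      unfold AG
      rw [if_neg (by linarith), Pool.Agent.Y744.gp_zero]
      ring
    rw [hA, Aa_split ha.le] at h1
    rw [hA0] at h2
    have e : Dstar T a = PC T (Set.Ioc 0 a) / Xf T - gp a := by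
      unfold Dstar
      rw [h3, F_gp, Pool.Agent.Y744.gp_zero, sub_zero]
      rfl
    have hM := Me_le hγ
    rw [e]
    rw [abs_le] at h1 h2 ⊢
    constructor <;> linarith [h1.1, h1.2, h2.1, h2.2]
  · rw [PCC_iff hl]
    intro a ha
    have h1 := dns hoff hl hΛ hd (fun ℓ hℓ => (hG ℓ hℓ).spg) a
    have h2 := dns hoff hl hΛ hd (fun ℓ hℓ => (hG ℓ hℓ).spg) 0
    have hA : AG a = 1 + 2 * gp a := by
      unfold AG
      rw [if_neg (by linarith)]
    have hA0 : AG 0 = 1 := by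
      unfold AG
      rw [if_neg (by linarith), Pool.Agent.Y744.gp_zero]
      ring
    rw [hA] at h1
    rw [hA0] at h2
    have h3 := (h1.sub h2).div_const 2
    have e : (1 + 2 * gp a - 1) / 2 = gp a := by ring
    rw [e] at h3
    refine h3.congr fun T => ?_
    rw [Aa_split ha.le]
    ring

end Pool.Agent.R346.BG.Cr.S
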