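import Pool.Agent.R346.BG.Crit2
import Pool.Agent.R319.WI3

/-! The pair correlation conjecture implies that almost all zeros are on the critical line. -/

open Filter Topology MeasureTheory

namespace Pool.Agent.R346.BG.Cr.S

open Pool.Agent.Y744 (Zt mz mz_nonneg PC dd Aa AG gp Xf Xf_pos sum_Zt ind_nonneg)
open H370 (NN)

lemma refl_zero {s : ℂ} (h1 : 0 < s.re) (h2 : s.re < 1) (h3 : 1 ≤ s.im) (h5 : riemannZeta s = 0) :
    riemannZeta (1 - (starRingEnd ℂ) s) = 0 := by
  have hF := H370.good_zeta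
  have him : (1 - (starRingEnd ℂ) s).im = s.im := by simp
  have ha : AnalyticAt ℂ riemannZeta s := hF.an s (by linarith)
  have hb : AnalyticAt ℂ riemannZeta (1 - (starRingEnd ℂ) s) := hF.an _ (by rw [him]; linarith)
  have h6 := hF.symm s h1 h2 h3
  have h7 : analyticOrderAt riemannZeta s ≠ 0 := ha.analyticOrderAt_ne_zero.mpr h5
  rw [← h6] at h7
  exact hb.analyticOrderAt_ne_zero.mp h7

/-- zeros off the line have a partner with the same ordinate -/
lemma off_le (T : ℝ) :
    (Noff T : ℝ) + (NN riemannZeta 0 T : ℝ) ≤ PC T {x | |x| ≤ 0} + ∑ s ∈ Zt 1, mz s := by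
  classical
  have hN : (Noff T : ℝ) = ∑ s ∈ Zt T, if s.re ≠ 1 / 2 then mz s else 0 := by
    have : Noff T = ∑ s ∈ Zt T, if s.re ≠ 1 / 2 then analyticOrderNatAt riemannZeta s else 0 := by
      unfold Noff
      apply inner_eq (T := T) (fun s => s.re ≠ 1 / 2)
      intro s
      rw [mem_Zt']
      simp only [zerosTo, zeros, Set.mem_ofPred_eq]
      tauto
    rw [this]
    push_cast
    refine Finset.sum_congr rfl fun s _ => ?_
    unfold mz H370.mult
    split_ifs <;> simp
  have hlow : ∑ s ∈ Zt T, (if s.re ≠ 1 / 2 ∧ s.im < 1 then mz s else 0) ≤ ∑ s ∈ Zt 1, mz s := by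
    rw [← Finset.sum_filter]
    refine Finset.sum_le_sum_of_subset_of_nonneg ?_ fun s _ _ => mz_nonneg s
    intro s hs
    rw [Finset.mem_filter, mem_Zt'] at hs
    rw [mem_Zt']
    obtain ⟨⟨a1, a2, a3, a4, a5⟩, a6, a7⟩ := hs
    exact ⟨a1, a2, a3, a7.le, a5⟩
  have hpt : ∀ s ∈ Zt T, (if s.re ≠ 1 / 2 then mz s else 0) + mz s ≤
      (∑ s' ∈ Zt T, mz s * mz s' * Set.indicator {x | |x| ≤ 0} (fun _ => (1 : ℝ)) (dd T s s')) +
      (if s.re ≠ 1 / 2 ∧ s.im < 1 then mz s else 0) := by
    intro s hs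
    obtain ⟨a1, a2, a3, a4, a5⟩ := mem_Zt'.1 hs
    have ind1 : ∀ s' : ℂ, s'.im = s.im →
        Set.indicator {x | |x| ≤ 0} (fun _ => (1 : ℝ)) (dd T s s') = 1 := by
      intro s' h
      have h4 : dd T s s' = 0 := by unfold dd; rw [h]; simp
      rw [h4, Set.indicator_of_mem (by simp : (0 : ℝ) ∈ {x : ℝ | |x| ≤ 0})]
    have m1 : ∀ s' : ℂ, 0 < s'.im → riemannZeta s' = 0 → 1 ≤ mz s' := by
      intro s' h1 h2
      unfold mz
      exact_mod_cast H370.Loc.mult_pos' H370.good_zeta h1 h2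
    have nn : ∀ s' ∈ Zt T, 0 ≤ mz s * mz s' *
        Set.indicator {x | |x| ≤ 0} (fun _ => (1 : ℝ)) (dd T s s') :=
      fun s' _ => mul_nonneg (mul_nonneg (mz_nonneg _) (mz_nonneg _)) (ind_nonneg _ _)
    have t1 : ∀ s' : ℂ, s'.im = s.im → riemannZeta s' = 0 → mz s ≤ mz s * mz s' *
        Set.indicator {x | |x| ≤ 0} (fun _ => (1 : ℝ)) (dd T s s') := by
      intro s' h1 h2
      rw [ind1 s' h1, mul_one]
      exact le_mul_of_one_le_right (mz_nonneg _) (m1 s' (by rw [h1]; exact a3) h2)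
    have s1 : mz s ≤ ∑ s' ∈ Zt T, mz s * mz s' *
        Set.indicator {x | |x| ≤ 0} (fun _ => (1 : ℝ)) (dd T s s') :=
      (t1 s rfl a5).trans (Finset.single_le_sum (f := fun s' => mz s * mz s' *
        Set.indicator {x | |x| ≤ 0} (fun _ => (1 : ℝ)) (dd T s s')) nn hs)
    by_cases h : s.re ≠ 1 / 2
    · rcases lt_or_ge s.im 1 with h1 | h1
      · rw [if_pos h, if_pos ⟨h, h1⟩]
        linarith
      · rw [if_pos h, if_neg (fun h2 => by linarith [h2.2]), add_zero]
        have him : (1 - (starRingEnd ℂ) s).im = s.im := by simp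
        have hre : (1 - (starRingEnd ℂ) s).re = 1 - s.re := by simp
        have hz := refl_zero a1 a2 h1 a5
        have hmem : 1 - (starRingEnd ℂ) s ∈ Zt T := by
          rw [mem_Zt', him, hre]
          exact ⟨by linarith, by linarith, a3, a4, hz⟩
        have hne : s ≠ 1 - (starRingEnd ℂ) s := by
          intro h2
          have h3 := congrArg Complex.re h2
          rw [hre] at h3
          exact h (by linarith)
        have hsub : ({s, 1 - (starRingEnd ℂ) s} : Finset ℂ) ⊆ Zt T := by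
          intro x hx
          rw [Finset.mem_insert, Finset.mem_singleton] at hx
          rcases hx with rfl | rfl
          · exact hs
          · exact hmem
        have h4 := Finset.sum_le_sum_of_subset_of_nonneg (f := fun s' => mz s * mz s' *
          Set.indicator {x | |x| ≤ 0} (fun _ => (1 : ℝ)) (dd T s s')) hsub fun i hi _ => nn i hi
        rw [Finset.sum_pair hne] at h4
        refine le_trans ?_ h4
        exact add_le_add (t1 s rfl a5) (t1 _ him hz)
    · rw [if_neg h, if_neg (fun h2 => h h2.1), zero_add, add_zero]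
      exact s1
  have hsum := Finset.sum_le_sum hpt
  rw [Finset.sum_add_distrib, Finset.sum_add_distrib, ← hN, sum_Zt] at hsum
  unfold PC
  linarith

/-- the average over the length -/
lemma int_Aa : ∃ C T0 : ℝ, 0 < C ∧ 10 ≤ T0 ∧ ∀ T : ℝ, T0 ≤ T → ∀ a : ℝ, 0 < a →
    a ^ 2 ≤ Real.log T →
    |(∫ c in (0 : ℝ)..a, Aa T c) - ∫ c in (0 : ℝ)..a, (1 + 2 * gp c)| ≤ C := by
  obtain ⟨C, T0, hC, hT0, h⟩ := Pool.Agent.R319.WB.mainI
  have hpi := Real.pi_pos
  refine ⟨C * (2 * Real.pi), T0, by positivity, hT0, fun T hT a ha haT => ?_⟩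
  have hL : 0 < Real.log T := Real.log_pos (by linarith)
  have hX : 0 < Xf T := Xf_pos (by linarith)
  have h1 := h T hT a ha haT
  have e1 : ∀ c : ℝ, Pool.Agent.R319.WB.W T
      (fun x => if |x| ≤ c * (2 * Real.pi / Real.log T) then 1 else 0) = Xf T * Aa T c := by
    intro c
    unfold Aa
    rw [← mul_assoc, mul_inv_cancel₀ hX.ne', one_mul]
    unfold Pool.Agent.R319.WB.W PC
    refine Finset.sum_congr rfl fun s _ => Finset.sum_congr rfl fun s' _ => ?_
    have e2 : (|s.im - s'.im| ≤ c * (2 * Real.pi / Real.log T)) ↔ |dd T s s'| ≤ c := by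
      unfold dd
      rw [abs_div, abs_mul, abs_of_pos hL, abs_of_pos (show 0 < 2 * Real.pi by positivity),
        div_le_iff₀ (by positivity), mul_div_assoc', le_div_iff₀ hL]
    have e3 : (if |s.im - s'.im| ≤ c * (2 * Real.pi / Real.log T) then (1 : ℝ) else 0) =
        Set.indicator {x | |x| ≤ c} (fun _ => (1 : ℝ)) (dd T s s') := by
      by_cases h5 : |s.im - s'.im| ≤ c * (2 * Real.pi / Real.log T)
      · rw [if_pos h5, Set.indicator_of_mem (show dd T s s' ∈ {x : ℝ | |x| ≤ c} from e2.1 h5)]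
      · have h6 : dd T s s' ∉ {x : ℝ | |x| ≤ c} := fun h7 => h5 (e2.2 h7)
        rw [if_neg h5, Set.indicator_of_notMem h6]
    show mz s * mz s' * (if |s.im - s'.im| ≤ c * (2 * Real.pi / Real.log T) then (1 : ℝ) else 0) =
      mz s * mz s' * Set.indicator {x | |x| ≤ c} (fun _ => (1 : ℝ)) (dd T s s')
    rw [e3]
  have e4 : ∫ c in (0 : ℝ)..a, Pool.Agent.R319.WB.W T
      (fun x => if |x| ≤ c * (2 * Real.pi / Real.log T) then 1 else 0) =
      Xf T * ∫ c in (0 : ℝ)..a, Aa T c := by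
    rw [← intervalIntegral.integral_const_mul]
    exact intervalIntegral.integral_congr fun c _ => e1 c
  have e5 : ∫ b in (0 : ℝ)..a, (1 + 2 * ∫ u in (0 : ℝ)..b,
      (1 - (Real.sin (Real.pi * u) / (Real.pi * u)) ^ 2)) = ∫ c in (0 : ℝ)..a, (1 + 2 * gp c) := by
    refine intervalIntegral.integral_congr fun c _ => ?_
    have : ∫ u in (0 : ℝ)..c, (1 - (Real.sin (Real.pi * u) / (Real.pi * u)) ^ 2) = gp c := by
      have h6 := F_gp 0 c
      rw [Pool.Agent.Y744.gp_zero, sub_zero] at h6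
      exact h6
    show 1 + 2 * (∫ u in (0 : ℝ)..c, (1 - (Real.sin (Real.pi * u) / (Real.pi * u)) ^ 2)) =
      1 + 2 * gp c
    rw [this]
  rw [e4, e5] at h1
  have e6 : T * Real.log T / (2 * Real.pi) = Xf T := rfl
  have e7 : T * Real.log T = Xf T * (2 * Real.pi) := by
    unfold Xf
    field_simp
  rw [e6, ← mul_sub, abs_mul, abs_of_pos hX, e7] at h1
  have h8 : Xf T * |(∫ c in (0 : ℝ)..a, Aa T c) - ∫ c in (0 : ℝ)..a, (1 + 2 * gp c)| ≤
      Xf T * (C * (2 * Real.pi)) := by
    refine h1.trans (le_of_eq ?_)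
    ring
  exact le_of_mul_le_mul_left h8 hX

/-- the number of pairs with equal ordinates -/
lemma Aa_zero (hP : PCC atTop) {ε : ℝ} (hε : 0 < ε) : ∀ᶠ T in atTop, Aa T 0 ≤ 1 + ε := by
  rw [PCC_iff le_rfl] at hP
  obtain ⟨C, T0, hC, hT0, h⟩ := int_Aa
  set a : ℝ := (C + 1) / ε with ha
  have ha0 : 0 < a := by positivity
  have hgc : Continuous gp := by
    have h1 : LipschitzWith 1 gp := by
      refine LipschitzWith.of_dist_le_mul fun x y => ?_
      rw [NNReal.coe_one, one_mul, Real.dist_eq, Real.dist_eq]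
      have hmono : ∀ x y : ℝ, x ≤ y → |gp x - gp y| ≤ |x - y| := by
        intro x y hxy
        have g1 := Pool.Agent.Y749.Rig.gp_lip hxy
        have g2 := F_gp x y
        have g3 : 0 ≤ ∫ u in x..y, F u := by
          refine intervalIntegral.integral_nonneg hxy fun u _ => ?_
          exact Pool.Agent.Y749.Rig.FF_nonneg u
        rw [g2] at g3
        rw [abs_sub_comm, abs_of_nonneg g3, abs_sub_comm, abs_of_nonneg (by linarith)]
        exact g1
      rcases le_total x y with hxy | hxy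
      · exact hmono x y hxy
      · rw [abs_sub_comm, abs_sub_comm x y]
        exact hmono y x hxy
    exact h1.continuous
  have hmono : ∀ T : ℝ, 1 < T → Monotone fun c => PC T (Set.Ioc 0 c) / Xf T := by
    intro T hT x y hxy
    exact div_le_div_of_nonneg_right
      (Pool.Agent.Y744.PC_mono T (Set.Ioc_subset_Ioc_right hxy)) (Xf_pos hT).le
  have hnn : ∀ T : ℝ, 1 < T → ∀ c, 0 ≤ PC T (Set.Ioc 0 c) / Xf T := by
    intro T hT c
    refine div_nonneg ?_ (Xf_pos hT).le
    unfold PC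
    exact Finset.sum_nonneg fun s _ => Finset.sum_nonneg fun s' _ =>
      mul_nonneg (mul_nonneg (mz_nonneg _) (mz_nonneg _)) (ind_nonneg _ _)
  have hlim : Tendsto (fun T => ∫ c in (0 : ℝ)..a, PC T (Set.Ioc 0 c) / Xf T) atTop
      (𝓝 (∫ c in (0 : ℝ)..a, gp c)) := by
    refine intervalIntegral.tendsto_integral_filter_of_dominated_convergence
      (fun _ => gp a + 1) ?_ ?_ (by simp) ?_
    · filter_upwards [eventually_gt_atTop (1 : ℝ)] with T hT
      exact (hmono T hT).measurable.aestronglyMeasurable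
    · filter_upwards [eventually_gt_atTop (1 : ℝ), (hP a ha0).eventually
        (gt_mem_nhds (show gp a < gp a + 1 by linarith))] with T hT h2
      refine Eventually.of_forall fun c hc => ?_
      rw [Set.uIoc_of_le ha0.le] at hc
      rw [Real.norm_eq_abs, abs_of_nonneg (hnn T hT c)]
      exact (hmono T hT hc.2).trans h2.le
    · refine Eventually.of_forall fun c hc => ?_
      rw [Set.uIoc_of_le ha0.le] at hc
      exact hP c hc.1
  have h3 := (Metric.tendsto_nhds.1 hlim) (1 / 2) (by norm_num)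
  filter_upwards [h3, eventually_ge_atTop T0,
    Real.tendsto_log_atTop.eventually_ge_atTop (a ^ 2)] with T h4 hT h5
  have hT1 : 1 < T := by linarith
  have h6 := h T hT a ha0 h5
  have i1 : IntervalIntegrable (fun c => PC T (Set.Ioc 0 c) / Xf T) volume 0 a :=
    (hmono T hT1).intervalIntegrable
  have e1 : ∫ c in (0 : ℝ)..a, Aa T c = a * Aa T 0 +
      2 * ∫ c in (0 : ℝ)..a, PC T (Set.Ioc 0 c) / Xf T := by
    have e2 : ∫ c in (0 : ℝ)..a, Aa T c =
        ∫ c in (0 : ℝ)..a, (Aa T 0 + 2 * (PC T (Set.Ioc 0 c) / Xf T)) := by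
      refine intervalIntegral.integral_congr fun c hc => ?_
      rw [Set.uIcc_of_le ha0.le] at hc
      exact Aa_split hc.1
    rw [e2, intervalIntegral.integral_add (by simp) (i1.const_mul 2),
      intervalIntegral.integral_const_mul, intervalIntegral.integral_const, smul_eq_mul, sub_zero]
  have e3 : ∫ c in (0 : ℝ)..a, (1 + 2 * gp c) = a + 2 * ∫ c in (0 : ℝ)..a, gp c := by
    rw [intervalIntegral.integral_add (by simp)
      ((hgc.intervalIntegrable 0 a).const_mul 2), intervalIntegral.integral_const_mul,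
      intervalIntegral.integral_const, smul_eq_mul, sub_zero, mul_one]
  rw [e1, e3, abs_le] at h6
  rw [Real.dist_eq, abs_lt] at h4
  have h7 : a * (Aa T 0 - 1) ≤ C + 1 := by nlinarith [h6.2, h4.1]
  have h8 : a * ε = C + 1 := by
    rw [ha]
    field_simp
  have h9 : a * (Aa T 0 - 1) ≤ a * ε := by rw [h8]; exact h7
  have := le_of_mul_le_mul_left h9 ha0
  linarith

/-- **the conjecture implies that almost all zeros are on the critical line** -/
theorem crit_of_PCC (hP : PCC atTop) :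
    Tendsto (fun T : ℝ => (Noff T : ℝ) / (T * Real.log T)) atTop (𝓝 0) := by
  have hpi := Real.pi_pos
  rw [Metric.tendsto_nhds]
  intro ε hε
  obtain ⟨T0, hT0, hN⟩ := Pool.Agent.W54.TCF.NT_asymp' (ε / 4) (by positivity)
  have h1 := Aa_zero hP (show 0 < ε / 4 by positivity)
  set K : ℝ := ∑ s ∈ Zt 1, mz s with hK
  have hK0 : 0 ≤ K := Finset.sum_nonneg fun s _ => mz_nonneg s
  have h2 : Tendsto (fun T : ℝ => T * Real.log T) atTop atTop :=
    tendsto_id.atTop_mul_atTop₀ Real.tendsto_log_atTop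
  filter_upwards [h1, eventually_ge_atTop T0, h2.eventually_gt_atTop (K / (ε / 2))]
    with T h3 hT h4
  have hT1 : 1 < T := by linarith
  have hL : 0 < Real.log T := Real.log_pos hT1
  have hX := Xf_pos hT1
  have h5 := (hN T hT).1
  have h6 := off_le T
  have e1 : T / (2 * Real.pi) * Real.log T = Xf T := by
    unfold Xf
    ring
  rw [e1] at h5
  have h7 : PC T {x | |x| ≤ 0} ≤ (1 + ε / 4) * Xf T := by
    unfold Aa at h3
    rwa [inv_mul_le_iff₀ hX, mul_comm] at h3
  have h8 : (Noff T : ℝ) ≤ ε / 2 * Xf T + K := by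
    rw [← hK] at h6
    nlinarith
  have h9 : Xf T ≤ T * Real.log T := by
    unfold Xf
    have hp : 0 < T * Real.log T := by positivity
    rw [div_le_iff₀ (by positivity)]
    nlinarith [Real.pi_gt_three]
  have h10 : K < ε / 2 * (T * Real.log T) := by
    rw [div_lt_iff₀ (by positivity)] at h4
    linarith
  have h11 : (0 : ℝ) ≤ Noff T := Nat.cast_nonneg _
  rw [Real.dist_eq, sub_zero, abs_of_nonneg (by positivity), div_lt_iff₀ (by positivity)]
  have h12 : ε / 2 * Xf T ≤ ε / 2 * (T * Real.log T) :=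
    mul_le_mul_of_nonneg_left h9 (by positivity)
  linarith

/-- the equivalence without hypotheses -/
theorem main_unc (Λ : Set ℝ) (hΛ : ∀ ℓ ∈ Λ, 0 < ℓ)
    (hd : Dense (AddSubgroup.closure Λ : Set ℝ)) :
    PCC atTop ↔ (Tendsto (fun T : ℝ => (Noff T : ℝ) / (T * Real.log T)) atTop (𝓝 0) ∧
      ∀ ℓ ∈ Λ, Good atTop ℓ) := by
  constructor
  · intro hP
    have h := crit_of_PCC hP
    exact ⟨h, ((main h atTop le_rfl Λ hΛ).2 hd).1 hP⟩
  · rintro ⟨h, hG⟩
    exact ((main h atTop le_rfl Λ hΛ).2 hd).2 hG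

end Pool.Agent.R346.BG.Cr.S
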