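import Pool.Agent.R346.BG.Spec

/-! The analytic function attached to a function with a spectral gap. -/

open MeasureTheory Filter Topology Real
open scoped ContDiff

namespace Pool.Agent.R346.BG

variable {c κ B : ℝ} {f : ℝ → ℂ} {H : ℝ → ℝ}

/-- the transform -/
noncomputable def CC (f : ℝ → ℂ) (H : ℝ → ℝ) (z : ℂ) : ℂ := ∫ u : ℝ, (H u : ℂ) * G f (z - u)

/-- `z` has distance at least `d` from the support -/
def Sep (H : ℝ → ℝ) (d : ℝ) (z : ℂ) : Prop := ∀ᵐ u : ℝ, H u ≠ 0 → d ≤ ‖z - u‖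

lemma Sep.mono {d d' : ℝ} {z : ℂ} (h : Sep H d z) (hd : d' ≤ d) : Sep H d' z := by
  filter_upwards [h] with u hu h0 using hd.trans (hu h0)

lemma sep_im (z : ℂ) : Sep H |z.im| z := by
  refine Eventually.of_forall fun u _ => ?_
  have := Complex.abs_im_le_norm (z - u)
  simpa using this

lemma one_add_le (u x : ℝ) : 1 + u ^ 2 ≤ 2 * (1 + x ^ 2) * (1 + (u - x) ^ 2) := by
  nlinarith [sq_nonneg (u - x - x), sq_nonneg (x * (u - x)), sq_nonneg x]

lemma HB.est (h : HB B H) {g : ℝ → ℂ} (hg : AEStronglyMeasurable g volume) {D x : ℝ}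
    (hD0 : 0 ≤ D) (hD : ∀ᵐ u, H u ≠ 0 → ‖g u‖ ≤ D / (1 + (u - x) ^ 2) ^ 2) :
    (Integrable fun u => (H u : ℂ) * g u) ∧
      ‖∫ u, (H u : ℂ) * g u‖ ≤ B * (2 * (1 + x ^ 2)) * D * π := by
  have hi : Integrable fun u : ℝ => B * (2 * (1 + x ^ 2)) * D * (1 + (u - x) ^ 2)⁻¹ :=
    (integrable_inv_one_add_sq.comp_sub_right x).const_mul _
  have hle : ∀ᵐ u, ‖(H u : ℂ) * g u‖ ≤ B * (2 * (1 + x ^ 2)) * D * (1 + (u - x) ^ 2)⁻¹ := by
    filter_upwards [hD] with u hu
    rw [norm_mul, Complex.norm_real, Real.norm_eq_abs]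
    have hB := h.B0
    by_cases h0 : H u = 0
    · rw [h0, abs_zero, zero_mul]
      positivity
    have h2 : 0 < 1 + (u - x) ^ 2 := by positivity
    calc |H u| * ‖g u‖ ≤ (B * (2 * (1 + x ^ 2) * (1 + (u - x) ^ 2))) *
          (D / (1 + (u - x) ^ 2) ^ 2) := by
          refine mul_le_mul ((h.bound u).trans ?_) (hu h0) (norm_nonneg _) (by positivity)
          exact mul_le_mul_of_nonneg_left (one_add_le u x) hB
      _ = B * (2 * (1 + x ^ 2)) * D * (1 + (u - x) ^ 2)⁻¹ := by field_simp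
  have hm : AEStronglyMeasurable (fun u => (H u : ℂ) * g u) volume :=
    (Complex.measurable_ofReal.comp h.meas).aestronglyMeasurable.mul hg
  refine ⟨hi.mono' hm hle, ?_⟩
  refine (norm_integral_le_of_norm_le hi hle).trans (le_of_eq ?_)
  rw [integral_const_mul, integral_sub_right_eq_self (fun u : ℝ => (1 + u ^ 2)⁻¹) x,
    integral_univ_inv_one_add_sq]

lemma re_sq_le (z : ℂ) (u : ℝ) : (u - z.re) ^ 2 ≤ ‖z - u‖ ^ 2 := by
  have h1 := Complex.abs_re_le_norm (z - u)
  have h2 : (z - u).re = z.re - u := by simp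
  rw [h2] at h1
  have h3 := pow_le_pow_left₀ (abs_nonneg _) h1 2
  rw [sq_abs] at h3
  nlinarith

lemma FL_z (h : CS c f) : ∃ C, 0 ≤ C ∧ ∀ (z : ℂ) (u : ℝ),
    ‖FL f (z - u)‖ ≤ C * Real.exp (2 * π * c * |z.im|) / (1 + ‖z - u‖ ^ 2) ^ 2 := by
  obtain ⟨C, hC, h1⟩ := FL_decay h
  refine ⟨C, hC, fun z u => ?_⟩
  rw [le_div_iff₀ (by positivity)]
  have := h1 (z - u)
  simpa using this

lemma FL_z' (h : CS c f) : ∃ C, 0 ≤ C ∧ ∀ (z : ℂ) (u : ℝ),
    ‖FL f (z - u)‖ ≤ C * Real.exp (2 * π * c * |z.im|) / (1 + (u - z.re) ^ 2) ^ 2 := by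
  obtain ⟨C, hC, h1⟩ := FL_z h
  refine ⟨C, hC, fun z u => (h1 z u).trans ?_⟩
  have := re_sq_le z u
  gcongr

lemma G_meas (h : CS c f) (hc : 0 ≤ c) (z : ℂ) :
    AEStronglyMeasurable (fun u : ℝ => G f (z - u)) volume := by
  have h1 : Measurable fun u : ℝ => FL f (z - u) :=
    ((FL_cont h hc).comp (by fun_prop : Continuous fun u : ℝ => (z - u : ℂ))).measurable
  have h2 : Measurable fun u : ℝ => (z - u : ℂ) :=
    (by fun_prop : Continuous fun u : ℝ => (z - u : ℂ)).measurable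
  exact (h1.div h2).aestronglyMeasurable

/-- the main bound -/
lemma CC_bound (h : HP κ B H) (hf : CS c f) (hc : 0 ≤ c) {s0 : ℝ} (hs0 : 0 ≤ s0)
    (hk : c + s0 ≤ κ) : ∃ M, 0 ≤ M ∧ ∀ d, 0 < d → ∀ z, Sep H d z →
      ‖CC f H z‖ ≤ M / d * (1 + z.re ^ 2) * Real.exp (-(2 * π * (s0 - c) * |z.im|)) := by
  obtain ⟨C, hC, h1⟩ := FL_z' hf
  have hB := h.B0
  refine ⟨B * 2 * C * π, by positivity, fun d hd z hz => ?_⟩
  have hκ : 0 ≤ κ := by linarith
  set s : ℝ := if 0 ≤ z.im then s0 else -s0 with hs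
  have hsabs : |s| = s0 := by
    rw [hs]; split_ifs
    · exact abs_of_nonneg hs0
    · rw [abs_neg, abs_of_nonneg hs0]
  have hsz : s * z.im = s0 * |z.im| := by
    rw [hs]; split_ifs with h0
    · rw [abs_of_nonneg h0]
    · push Not at h0
      rw [abs_of_neg h0]; ring
  have hkk : CS κ (kk f s) := (kk_CS hf s).mono (by rw [hsabs]; exact hk)
  set g : ℝ → ℂ := fun u => Complex.exp (2 * π * Complex.I * s * (z - u)) * G f (z - u) with hg
  have hgm : AEStronglyMeasurable g volume :=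
    (by fun_prop : Continuous fun u : ℝ => Complex.exp (2 * π * Complex.I * s *
      (z - u))).aestronglyMeasurable.mul (G_meas hf hc z)
  have hexp : ∀ u : ℝ, ‖Complex.exp (2 * π * Complex.I * s * (z - u))‖ =
      Real.exp (-(2 * π * s0 * |z.im|)) := by
    intro u
    have := norm_kernel s (z - u)
    rw [this]
    congr 1
    have e : (z - (u : ℂ)).im = z.im := by simp
    rw [e, mul_assoc (2 * π) s z.im, hsz]
    ring
  have hGb : ∀ᵐ u : ℝ, H u ≠ 0 → ‖G f (z - u)‖ ≤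
      (C * Real.exp (2 * π * c * |z.im|) / d) / (1 + (u - z.re) ^ 2) ^ 2 := by
    filter_upwards [hz] with u hu h0
    unfold G
    rw [norm_div]
    have h3 := hu h0
    calc ‖FL f (z - u)‖ / ‖z - u‖ ≤
          (C * Real.exp (2 * π * c * |z.im|) / (1 + (u - z.re) ^ 2) ^ 2) / d := by
          have := h1 z u
          gcongr
      _ = _ := by rw [div_right_comm]
  have hgb : ∀ᵐ u : ℝ, H u ≠ 0 → ‖g u‖ ≤
      (Real.exp (-(2 * π * s0 * |z.im|)) * (C * Real.exp (2 * π * c * |z.im|) / d)) /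
        (1 + (u - z.re) ^ 2) ^ 2 := by
    filter_upwards [hGb] with u hu h0
    simp only [hg]
    rw [norm_mul, hexp, mul_div_assoc]
    exact mul_le_mul_of_nonneg_left (hu h0) (Real.exp_pos _).le
  have e1 := (h.est hgm (by positivity) hgb).2
  have i1 := (h.est (G_meas hf hc z) (by positivity) hGb).1
  obtain ⟨C2, hC2, h2⟩ := FL_z' hkk
  have i2 : Integrable fun u : ℝ => (H u : ℂ) * FL (kk f s) (z - u) :=
    (h.est (((FL_cont hkk hκ).comp (by fun_prop : Continuous fun u : ℝ =>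
      (z - u : ℂ))).aestronglyMeasurable) (x := z.re)
      (D := C2 * Real.exp (2 * π * κ * |z.im|)) (by positivity)
      (Eventually.of_forall fun u _ => h2 z u)).1
  have key : ∫ u : ℝ, (H u : ℂ) * g u = CC f H z := by
    have e2 : ∫ u : ℝ, (H u : ℂ) * g u = (∫ u : ℝ, (H u : ℂ) * G f (z - u)) +
        2 * π * Complex.I * ∫ u : ℝ, (H u : ℂ) * FL (kk f s) (z - u) := by
      rw [← integral_const_mul, ← integral_add i1 (i2.const_mul _)]
      refine integral_congr_ae ?_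
      filter_upwards [hz] with u hu
      simp only [hg]
      by_cases h0 : H u = 0
      · rw [h0]; simp
      have hne : (z - u : ℂ) ≠ 0 := by
        intro h3
        have := hu h0
        rw [h3, norm_zero] at this
        linarith
      rw [G_shift hf s hne]
      ring
    rw [e2, gapz h hκ hkk z, mul_zero, add_zero]
    rfl
  rw [← key]
  refine e1.trans (le_of_eq ?_)
  have e3 : Real.exp (-(2 * π * (s0 - c) * |z.im|)) =
      Real.exp (-(2 * π * s0 * |z.im|)) * Real.exp (2 * π * c * |z.im|) := by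
    rw [← Real.exp_add]
    congr 1
    ring
  rw [e3]
  ring

/-- differentiability -/
lemma CC_diff (h : HB B H) (hf : CS c f) (hc : 0 ≤ c) {d : ℝ} (hd : 0 < d) (hd1 : d ≤ 1)
    {z0 : ℂ} (hz : Sep H (2 * d) z0) : DifferentiableAt ℂ (CC f H) z0 := by
  have hf1 : CS c (fun α => f α * (2 * π * Complex.I * α)) := hf.mul_smooth lin_smooth
  obtain ⟨C, hC, h1⟩ := FL_z hf
  obtain ⟨C', hC', h1'⟩ := FL_z hf1
  set D : ℝ := (C + C') * Real.exp (2 * π * c * (|z0.im| + 1)) * 16 / d ^ 2 with hD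
  have hD0 : 0 ≤ D := by positivity
  have hfin : ∀ᵐ u : ℝ, H u ≠ 0 → ∀ z ∈ Metric.ball z0 d, d ≤ ‖z - u‖ := by
    filter_upwards [hz] with u hu h0 z hz'
    have h2 := hu h0
    have h3 : ‖z - z0‖ < d := mem_ball_iff_norm.1 hz'
    have h4 : ‖z0 - u‖ ≤ ‖z - u‖ + ‖z - z0‖ := by
      have := norm_sub_le (z - u) (z - z0)
      rwa [show z - u - (z - z0) = z0 - u by ring] at this
    linarith
  have hcmp : ∀ (u : ℝ) (z : ℂ), z ∈ Metric.ball z0 d →
      Real.exp (2 * π * c * |z.im|) / (1 + ‖z - u‖ ^ 2) ^ 2 ≤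
        Real.exp (2 * π * c * (|z0.im| + 1)) * 16 / (1 + (u - z0.re) ^ 2) ^ 2 := by
    intro u z hz'
    have h3 : ‖z - z0‖ < d := mem_ball_iff_norm.1 hz'
    have h4 : ‖z0 - u‖ ≤ ‖z - u‖ + 1 := by
      have := norm_sub_le (z - u) (z - z0)
      rw [show z - u - (z - z0) = z0 - u by ring] at this
      linarith
    have h5 : 1 + (u - z0.re) ^ 2 ≤ 4 * (1 + ‖z - u‖ ^ 2) := by
      have h6 := re_sq_le z0 u
      have h7 := pow_le_pow_left₀ (norm_nonneg _) h4 2
      nlinarith [sq_nonneg (‖z - u‖ - 1)]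
    have h8 : (1 + (u - z0.re) ^ 2) ^ 2 ≤ 16 * (1 + ‖z - u‖ ^ 2) ^ 2 := by
      have := pow_le_pow_left₀ (by positivity) h5 2
      linarith
    have h9 : Real.exp (2 * π * c * |z.im|) ≤ Real.exp (2 * π * c * (|z0.im| + 1)) := by
      refine Real.exp_le_exp.2 (mul_le_mul_of_nonneg_left ?_ (by positivity))
      have h10 : |z.im - z0.im| ≤ 1 := by
        rw [← Complex.sub_im]
        exact (Complex.abs_im_le_norm _).trans (h3.le.trans hd1)
      have h11 := abs_sub_abs_le_abs_sub z.im z0.im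
      linarith
    rw [div_le_div_iff₀ (by positivity) (by positivity)]
    calc Real.exp (2 * π * c * |z.im|) * (1 + (u - z0.re) ^ 2) ^ 2 ≤
          Real.exp (2 * π * c * (|z0.im| + 1)) * (16 * (1 + ‖z - u‖ ^ 2) ^ 2) := by gcongr
      _ = _ := by ring
  set G' : ℂ → ℂ := fun w => FL (fun α => f α * (2 * π * Complex.I * α)) w / w -
    FL f w / w ^ 2 with hG'
  have hbG : ∀ (u : ℝ) (z : ℂ), z ∈ Metric.ball z0 d → d ≤ ‖z - u‖ →
      ‖G' (z - u)‖ ≤ D / (1 + (u - z0.re) ^ 2) ^ 2 := by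
    intro u z hz' hdz
    have hpos : 0 < ‖z - u‖ := hd.trans_le hdz
    have a1 := h1 z u
    have a2 := h1' z u
    have a3 := hcmp u z hz'
    simp only [hG']
    refine (norm_sub_le _ _).trans ?_
    rw [norm_div, norm_div, norm_pow]
    set X : ℝ := Real.exp (2 * π * c * |z.im|) / (1 + ‖z - u‖ ^ 2) ^ 2 with hX
    have hX0 : 0 ≤ X := by positivity
    have b1 : ‖FL f (z - u)‖ ≤ C * X := by rw [hX, mul_div_assoc']; exact a1
    have b2 : ‖FL (fun α => f α * (2 * π * Complex.I * α)) (z - u)‖ ≤ C' * X := by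
      rw [hX, mul_div_assoc']; exact a2
    have c1 : ‖FL (fun α => f α * (2 * π * Complex.I * α)) (z - u)‖ / ‖z - u‖ ≤
        C' * X / d ^ 2 := by
      have : d ^ 2 ≤ ‖z - u‖ := by nlinarith
      gcongr
    have c2 : ‖FL f (z - u)‖ / ‖z - u‖ ^ 2 ≤ C * X / d ^ 2 := by gcongr
    have c3 : C' * X / d ^ 2 + C * X / d ^ 2 = (C + C') / d ^ 2 * X := by ring
    have c4 : (C + C') / d ^ 2 * X ≤ (C + C') / d ^ 2 *
        (Real.exp (2 * π * c * (|z0.im| + 1)) * 16 / (1 + (u - z0.re) ^ 2) ^ 2) :=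
      mul_le_mul_of_nonneg_left a3 (by positivity)
    have c5 : (C + C') / d ^ 2 * (Real.exp (2 * π * c * (|z0.im| + 1)) * 16 /
        (1 + (u - z0.re) ^ 2) ^ 2) = D / (1 + (u - z0.re) ^ 2) ^ 2 := by rw [hD]; ring
    linarith
  have hbG0 : ∀ᵐ u : ℝ, H u ≠ 0 → ‖G f (z0 - u)‖ ≤ (C * Real.exp (2 * π * c * |z0.im|) / d) /
      (1 + (u - z0.re) ^ 2) ^ 2 := by
    filter_upwards [hz] with u hu h0
    unfold G
    rw [norm_div]
    have h3 : d ≤ ‖z0 - u‖ := by have := hu h0; linarith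
    have h4 := re_sq_le z0 u
    calc ‖FL f (z0 - u)‖ / ‖z0 - u‖ ≤
          (C * Real.exp (2 * π * c * |z0.im|) / (1 + (u - z0.re) ^ 2) ^ 2) / d := by
          have h5 := h1 z0 u
          have h6 : C * Real.exp (2 * π * c * |z0.im|) / (1 + ‖z0 - u‖ ^ 2) ^ 2 ≤
            C * Real.exp (2 * π * c * |z0.im|) / (1 + (u - z0.re) ^ 2) ^ 2 := by gcongr
          have h7 := h5.trans h6
          gcongr
      _ = _ := by rw [div_right_comm]
  have hmz : ∀ z : ℂ, AEStronglyMeasurable (fun u : ℝ => (H u : ℂ) * G f (z - u)) volume :=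
    fun z => (Complex.measurable_ofReal.comp h.meas).aestronglyMeasurable.mul (G_meas hf hc z)
  have hm' : AEStronglyMeasurable (fun u : ℝ => (H u : ℂ) * G' (z0 - u)) volume := by
    refine (Complex.measurable_ofReal.comp h.meas).aestronglyMeasurable.mul ?_
    have k2 : Measurable fun u : ℝ => (z0 - u : ℂ) :=
      (by fun_prop : Continuous fun u : ℝ => (z0 - u : ℂ)).measurable
    have k1 : Measurable fun u : ℝ => FL f (z0 - u) := (FL_cont hf hc).measurable.comp k2
    have k3 : Measurable fun u : ℝ => FL (fun α => f α * (2 * π * Complex.I * α)) (z0 - u) :=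
      (FL_cont hf1 hc).measurable.comp k2
    exact ((k3.div k2).sub (k1.div (k2.pow_const 2))).aestronglyMeasurable
  have hbi : Integrable fun u : ℝ => |H u| * (D / (1 + (u - z0.re) ^ 2) ^ 2) := by
    have := (h.est (g := fun u : ℝ => ((D / (1 + (u - z0.re) ^ 2) ^ 2 : ℝ) : ℂ)) (x := z0.re)
      (D := D) (Continuous.aestronglyMeasurable (Complex.continuous_ofReal.comp
        (continuous_const.div (by fun_prop) (fun u => by positivity)))) hD0
      (Eventually.of_forall fun u _ => by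
        rw [Complex.norm_real, Real.norm_of_nonneg (by positivity)])).1.norm
    refine this.congr (Eventually.of_forall fun u => ?_)
    show ‖(H u : ℂ) * ((D / (1 + (u - z0.re) ^ 2) ^ 2 : ℝ) : ℂ)‖ = _
    rw [norm_mul, Complex.norm_real, Complex.norm_real, Real.norm_eq_abs,
      Real.norm_of_nonneg (by positivity)]
  have hh := hasDerivAt_integral_of_dominated_loc_of_deriv_le (μ := volume) (𝕜 := ℂ)
    (F := fun (z : ℂ) (u : ℝ) => (H u : ℂ) * G f (z - u))
    (F' := fun (z : ℂ) (u : ℝ) => (H u : ℂ) * G' (z - u)) (x₀ := z0)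
    (s := Metric.ball z0 d) (bound := fun u => |H u| * (D / (1 + (u - z0.re) ^ 2) ^ 2))
    (Metric.ball_mem_nhds z0 hd) (Eventually.of_forall hmz)
    (h.est (G_meas hf hc z0) (by positivity) hbG0).1 hm' ?_ hbi ?_
  · exact hh.2.differentiableAt
  · filter_upwards [hfin] with u hu z hz'
    rw [norm_mul, Complex.norm_real, Real.norm_eq_abs]
    by_cases h0 : H u = 0
    · rw [h0]; simp
    exact mul_le_mul_of_nonneg_left (hbG u z hz' (hu h0 z hz')) (abs_nonneg _)
  · filter_upwards [hfin] with u hu z hz'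
    by_cases h0 : H u = 0
    · simp only [h0, Complex.ofReal_zero, zero_mul]
      exact hasDerivAt_const _ _
    have hne : (z - u : ℂ) ≠ 0 := by
      intro h3
      have := hu h0 z hz'
      rw [h3, norm_zero] at this
      linarith
    have e1 : HasDerivAt (fun z : ℂ => z - (u : ℂ)) 1 z := (hasDerivAt_id z).sub_const _
    have e2 : HasDerivAt (fun z : ℂ => FL f (z - u))
        (FL (fun α => f α * (2 * π * Complex.I * α)) (z - u)) z := by
      have := (FL_hasDerivAt hf hc (z - u)).comp z e1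
      rw [mul_one] at this
      exact this
    have e3 := (e2.div e1 hne).const_mul (H u : ℂ)
    refine e3.congr_deriv ?_
    simp only [hG']
    generalize FL (fun α => f α * (2 * π * Complex.I * α)) (z - u) = V
    congr 1
    field_simp

end Pool.Agent.R346.BG
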