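import Mathlib

/-! Fourier-Laplace transforms of smooth functions of compact support. -/

open MeasureTheory Filter Topology Real
open scoped ContDiff

namespace Pool.Agent.R346.BG

/-- smooth functions supported in `[-c, c]` -/
structure CS (c : ℝ) (f : ℝ → ℂ) : Prop where
  smooth : ContDiff ℝ ∞ f
  supp : ∀ x, c < |x| → f x = 0

/-- the Fourier-Laplace transform -/
noncomputable def FL (f : ℝ → ℂ) (w : ℂ) : ℂ :=
  ∫ α : ℝ, f α * Complex.exp (2 * π * Complex.I * α * w)

namespace CS

variable {c : ℝ} {f : ℝ → ℂ}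

lemma cont (h : CS c f) : Continuous f := h.smooth.continuous

lemma hcs (h : CS c f) : HasCompactSupport f := by
  refine HasCompactSupport.intro (isCompact_Icc (a := -c) (b := c)) fun x hx => h.supp x ?_
  by_contra hc
  exact hx (abs_le.1 (not_lt.1 hc))

lemma mono (h : CS c f) {c' : ℝ} (hc : c ≤ c') : CS c' f :=
  ⟨h.smooth, fun x hx => h.supp x (hc.trans_lt hx)⟩

lemma mul_int (h : CS c f) {g : ℝ → ℂ} (hg : Continuous g) : Integrable fun α => f α * g α :=
  (h.cont.mul hg).integrable_of_hasCompactSupport h.hcs.mul_right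

lemma integrable (h : CS c f) : Integrable f := h.cont.integrable_of_hasCompactSupport h.hcs

lemma deriv (h : CS c f) : CS c (_root_.deriv f) where
  smooth := (contDiff_infty_iff_deriv.1 h.smooth).2
  supp := by
    intro x hx
    have : f =ᶠ[𝓝 x] fun _ => (0 : ℂ) := by
      have h2 : ∀ᶠ y in 𝓝 x, c < |y| := continuous_abs.continuousAt.eventually_const_lt hx
      filter_upwards [h2] with y hy using h.supp y hy
    rw [this.deriv_eq]
    simp

lemma mul_smooth (h : CS c f) {g : ℝ → ℂ} (hg : ContDiff ℝ ∞ g) : CS c (fun x => f x * g x) where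
  smooth := h.smooth.mul hg
  supp := fun x hx => by rw [h.supp x hx, zero_mul]

end CS

variable {c : ℝ} {f : ℝ → ℂ}

lemma norm_kernel (α : ℝ) (w : ℂ) :
    ‖Complex.exp (2 * π * Complex.I * α * w)‖ = Real.exp (-(2 * π * α * w.im)) := by
  rw [Complex.norm_exp]
  congr 1
  have : (2 * π * Complex.I * α * w : ℂ) = ((2 * π * α : ℝ) : ℂ) * (Complex.I * w) := by
    push_cast; ring
  rw [this, Complex.re_ofReal_mul, Complex.I_mul_re]
  ring

lemma norm_mul_kernel_le (h : CS c f) (α : ℝ) (w : ℂ) :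
    ‖f α * Complex.exp (2 * π * Complex.I * α * w)‖ ≤ ‖f α‖ * Real.exp (2 * π * c * |w.im|) := by
  rw [norm_mul, norm_kernel]
  by_cases hα : c < |α|
  · rw [h.supp α hα]; simp
  · push Not at hα
    refine mul_le_mul_of_nonneg_left (Real.exp_le_exp.2 ?_) (norm_nonneg _)
    have h1 : -(2 * π * α * w.im) ≤ |2 * π * α * w.im| := neg_le_abs _
    refine h1.trans ?_
    rw [abs_mul, abs_mul, abs_of_pos Real.two_pi_pos]
    exact mul_le_mul_of_nonneg_right
      (mul_le_mul_of_nonneg_left hα Real.two_pi_pos.le) (abs_nonneg _)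

lemma FL_bound (h : CS c f) (w : ℂ) :
    ‖FL f w‖ ≤ (∫ α, ‖f α‖) * Real.exp (2 * π * c * |w.im|) := by
  unfold FL
  rw [← integral_mul_const]
  exact norm_integral_le_of_norm_le (h.integrable.norm.mul_const _)
    (Eventually.of_forall fun α => norm_mul_kernel_le h α w)

lemma kernel_cont (w : ℂ) : Continuous fun α : ℝ => Complex.exp (2 * π * Complex.I * α * w) := by
  fun_prop

lemma FL_deriv (h : CS c f) (w : ℂ) :
    FL (deriv f) w = -(2 * π * Complex.I * w) * FL f w := by
  have hd : Differentiable ℝ f := h.smooth.differentiable (by simp)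
  have e1 := integral_mul_deriv_eq_deriv_mul_of_integrable
    (u := fun α : ℝ => Complex.exp (2 * π * Complex.I * α * w))
    (v := f) (u' := fun α : ℝ => Complex.exp (2 * π * Complex.I * α * w) *
      (2 * π * Complex.I * w)) (v' := deriv f)
    (fun α _ => by
      have h1 : HasDerivAt (fun α : ℝ => (2 * π * Complex.I * α * w : ℂ))
          (2 * π * Complex.I * w) α := by
        have h2 := ((Complex.ofRealCLM.hasDerivAt (x := α)).const_mul
          (2 * π * Complex.I : ℂ)).mul_const w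
        simpa using h2
      exact h1.cexp)
    (fun α _ => (hd α).hasDerivAt)
    ((h.deriv.mul_int (kernel_cont w)).congr (Eventually.of_forall fun α => by
      show _ = Complex.exp (2 * π * Complex.I * α * w) * deriv f α
      ring))
    ((h.mul_int ((kernel_cont w).mul_const (2 * π * Complex.I * w))).congr
      (Eventually.of_forall fun α => by
      show _ = Complex.exp (2 * π * Complex.I * α * w) * (2 * π * Complex.I * w) * f α
      ring))
    ((h.mul_int (kernel_cont w)).congr (Eventually.of_forall fun α => by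
      show _ = Complex.exp (2 * π * Complex.I * α * w) * f α
      ring))
  unfold FL
  have e2 : ∫ α : ℝ, deriv f α * Complex.exp (2 * π * Complex.I * α * w) =
      ∫ α : ℝ, Complex.exp (2 * π * Complex.I * α * w) * deriv f α := by
    refine integral_congr_ae (Eventually.of_forall fun α => ?_)
    exact mul_comm _ _
  rw [e2, e1, ← integral_neg, ← integral_const_mul]
  refine integral_congr_ae (Eventually.of_forall fun α => ?_)
  show -(Complex.exp (2 * π * Complex.I * α * w) * (2 * π * Complex.I * w) * f α) = _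
  ring

lemma FL_step (h : CS c f) (w : ℂ) : ‖w‖ * ‖FL f w‖ ≤ ‖FL (deriv f) w‖ := by
  rw [FL_deriv h, norm_mul, norm_neg, norm_mul, norm_mul, norm_mul, Complex.norm_I, mul_one]
  have h1 : ‖(2 : ℂ)‖ * ‖(π : ℂ)‖ = 2 * π := by
    rw [Complex.norm_real, Real.norm_of_nonneg Real.pi_pos.le]
    simp
  rw [h1]
  have h2 : 1 ≤ 2 * π := by have := Real.pi_gt_three; linarith
  have h3 : 0 ≤ ‖w‖ * ‖FL f w‖ := by positivity
  nlinarith

lemma FL_decay (h : CS c f) : ∃ C, 0 ≤ C ∧ ∀ w : ℂ,
    ‖FL f w‖ * (1 + ‖w‖ ^ 2) ^ 2 ≤ C * Real.exp (2 * π * c * |w.im|) := by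
  have h1 := h.deriv
  have h2 := h1.deriv
  have h3 := h2.deriv
  have h4 := h3.deriv
  refine ⟨(∫ α, ‖f α‖) + 2 * (∫ α, ‖deriv (deriv f) α‖) +
    (∫ α, ‖deriv (deriv (deriv (deriv f))) α‖), ?_, fun w => ?_⟩
  · have a1 : 0 ≤ ∫ α, ‖f α‖ := integral_nonneg fun α => norm_nonneg _
    have a2 : 0 ≤ ∫ α, ‖deriv (deriv f) α‖ := integral_nonneg fun α => norm_nonneg _
    have a3 : 0 ≤ ∫ α, ‖deriv (deriv (deriv (deriv f))) α‖ :=
      integral_nonneg fun α => norm_nonneg _
    linarith
  · have b0 := FL_bound h w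
    have b2 := FL_bound h2 w
    have b4 := FL_bound h4 w
    have s1 := FL_step h w
    have s2 := FL_step h1 w
    have s3 := FL_step h2 w
    have s4 := FL_step h3 w
    have n := norm_nonneg w
    have t2 : ‖w‖ ^ 2 * ‖FL f w‖ ≤ ‖FL (deriv (deriv f)) w‖ := by
      calc ‖w‖ ^ 2 * ‖FL f w‖ = ‖w‖ * (‖w‖ * ‖FL f w‖) := by ring
        _ ≤ ‖w‖ * ‖FL (deriv f) w‖ := mul_le_mul_of_nonneg_left s1 n
        _ ≤ _ := s2
    have t4 : ‖w‖ ^ 4 * ‖FL f w‖ ≤ ‖FL (deriv (deriv (deriv (deriv f)))) w‖ := by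
      calc ‖w‖ ^ 4 * ‖FL f w‖ = ‖w‖ * (‖w‖ * (‖w‖ ^ 2 * ‖FL f w‖)) := by ring
        _ ≤ ‖w‖ * (‖w‖ * ‖FL (deriv (deriv f)) w‖) := by gcongr
        _ ≤ ‖w‖ * ‖FL (deriv (deriv (deriv f))) w‖ := mul_le_mul_of_nonneg_left s3 n
        _ ≤ _ := s4
    nlinarith

lemma lin_smooth : ContDiff ℝ ∞ fun α : ℝ => (2 * π * Complex.I * α : ℂ) :=
  contDiff_const.mul Complex.ofRealCLM.contDiff

/-- the derivative of the transform -/
lemma FL_hasDerivAt (h : CS c f) (hc : 0 ≤ c) (w : ℂ) :
    HasDerivAt (FL f) (FL (fun α => f α * (2 * π * Complex.I * α)) w) w := by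
  have hh := hasDerivAt_integral_of_dominated_loc_of_deriv_le (μ := volume) (𝕜 := ℂ)
    (F := fun (w : ℂ) (α : ℝ) => f α * Complex.exp (2 * π * Complex.I * α * w))
    (F' := fun (w : ℂ) (α : ℝ) => f α * (2 * π * Complex.I * α) *
      Complex.exp (2 * π * Complex.I * α * w)) (x₀ := w)
    (s := Metric.ball w 1) (bound := fun α => ‖f α * (2 * π * Complex.I * α)‖ *
      Real.exp (2 * π * c * (|w.im| + 1))) (Metric.ball_mem_nhds w one_pos)
    (Eventually.of_forall fun z => (h.mul_int (kernel_cont z)).aestronglyMeasurable)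
    (h.mul_int (kernel_cont w)) ?_ ?_ ?_ ?_
  · exact hh.2
  · exact ((h.mul_smooth lin_smooth).mul_int
      (kernel_cont w)).aestronglyMeasurable
  · refine Eventually.of_forall fun α z hz => ?_
    have h1 := norm_mul_kernel_le (h.mul_smooth lin_smooth) α z
    refine h1.trans (mul_le_mul_of_nonneg_left (Real.exp_le_exp.2 ?_) (norm_nonneg _))
    refine mul_le_mul_of_nonneg_left ?_ (by positivity)
    have h2 : |z.im - w.im| ≤ 1 := by
      rw [← Complex.sub_im]
      exact (Complex.abs_im_le_norm _).trans (mem_ball_iff_norm.1 hz).le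
    have h3 := abs_sub_abs_le_abs_sub z.im w.im
    linarith
  · exact ((h.mul_smooth lin_smooth).integrable.norm).mul_const _
  · refine Eventually.of_forall fun α z _ => ?_
    have h1 : HasDerivAt (fun z : ℂ => (2 * π * Complex.I * α * z : ℂ))
        (2 * π * Complex.I * α) z := by
      simpa using (hasDerivAt_id z).const_mul (2 * π * Complex.I * α : ℂ)
    have h2 := h1.cexp.const_mul (f α)
    refine h2.congr_deriv ?_
    ring

end Pool.Agent.R346.BG
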