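import Pool.Agent.R346.BG.Crit

/-! The mean of the form factor away from a lattice, from windows of one length. -/

open MeasureTheory Filter Topology Real
open scoped ContDiff

namespace Pool.Agent.R346.BG.Fo

open Pool.Agent.Y744
open Pool.Agent.Y749.Rig (Adm fl Mp nT mG Bdd FF RR Fr mn QD)
open Cr

/-- passage to the limit along an ultrafilter -/
lemma lim_int' {A : ℝ → ℝ → ℝ} {T0 C : ℝ} (hmono : ∀ T, T0 ≤ T → Monotone (A T))
    (hb : ∀ T, T0 ≤ T → ∀ y, |A T y| ≤ C * (1 + y ^ 2)) {w : ℝ → ℝ} (hw : Measurable w) {D : ℝ}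
    (hwd : ∀ y, |w y| ≤ D / (1 + y ^ 2) ^ 2) {I : ℝ} {u : Filter ℝ} [NeBot u]
    (hI : Tendsto (fun T => ∫ y, A T y * w y) u (𝓝 I))
    (hu : u ≤ atTop) {A' : ℝ → ℝ} (hA' : Monotone A')
    (hlim : ∀ y, Tendsto (fun T => A T y) u (𝓝 (A' y))) : ∫ y, A' y * w y = I := by
  have hC : 0 ≤ C := by
    have := (abs_nonneg _).trans (hb T0 le_rfl 0)
    simpa using this
  set q : ℕ → ℝ := TopologicalSpace.denseSeq ℝ with hq
  have hqd : DenseRange q := TopologicalSpace.denseRange_denseSeq ℝ
  have hex : ∀ n : ℕ, ∃ T : ℝ, max (n : ℝ) T0 ≤ T ∧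
      (∀ j ∈ Finset.range (n + 1), |A T (q j) - A' (q j)| < 1 / ((n : ℝ) + 1)) ∧
      |(∫ y, A T y * w y) - I| < 1 / ((n : ℝ) + 1) := by
    intro n
    have h1 : ∀ᶠ T in u, max (n : ℝ) T0 ≤ T := hu (eventually_ge_atTop _)
    have h2 : ∀ᶠ T in u, ∀ j ∈ Finset.range (n + 1), |A T (q j) - A' (q j)| < 1 / ((n : ℝ) + 1) := by
      rw [Filter.eventually_all_finset]
      intro j _
      have := (Metric.tendsto_nhds.1 (hlim (q j))) (1 / ((n : ℝ) + 1)) (by positivity)
      simpa [Real.dist_eq] using this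
    have h3 : ∀ᶠ T in u, |(∫ y, A T y * w y) - I| < 1 / ((n : ℝ) + 1) := by
      have := (Metric.tendsto_nhds.1 hI) (1 / ((n : ℝ) + 1)) (by positivity)
      simpa [Real.dist_eq] using this
    obtain ⟨T, hT1, hT2, hT3⟩ := (h1.and (h2.and h3)).exists
    exact ⟨T, hT1, hT2, hT3⟩
  choose t ht1 ht2 ht3 using hex
  have htn : ∀ n : ℕ, (n : ℝ) ≤ t n := fun n => (le_max_left _ _).trans (ht1 n)
  have htT : ∀ n : ℕ, T0 ≤ t n := fun n => (le_max_right _ _).trans (ht1 n)
  have hj : ∀ j, Tendsto (fun n => A (t n) (q j)) atTop (𝓝 (A' (q j))) := by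
    intro j
    rw [Metric.tendsto_nhds]
    intro ε hε
    have h1 : ∀ᶠ n : ℕ in atTop, 1 / ((n : ℝ) + 1) < ε :=
      (tendsto_order.1 tendsto_one_div_add_atTop_nhds_zero_nat).2 ε hε
    filter_upwards [h1, eventually_ge_atTop j] with n hn hnj
    rw [Real.dist_eq]
    exact (ht2 n j (Finset.mem_range.2 (by omega))).trans hn
  have hcont : ∀ x, ContinuousAt A' x → Tendsto (fun n => A (t n) x) atTop (𝓝 (A' x)) := by
    intro x hx
    rw [tendsto_order]
    constructor
    · intro a ha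
      have h1 : ∀ᶠ y in 𝓝 x, a < A' y := hx.eventually_const_lt ha
      obtain ⟨δ, hδ, h2⟩ := Metric.eventually_nhds_iff.1 h1
      obtain ⟨_, ⟨j, rfl⟩, hj1, hj2⟩ := hqd.exists_between (show x - δ < x by linarith)
      have h3 : a < A' (q j) := h2 (by rw [Real.dist_eq, abs_lt]; constructor <;> linarith)
      filter_upwards [(tendsto_order.1 (hj j)).1 a h3] with n hn
      exact hn.trans_le (hmono _ (htT n) hj2.le)
    · intro a ha
      have h1 : ∀ᶠ y in 𝓝 x, A' y < a := hx.eventually_lt_const ha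
      obtain ⟨δ, hδ, h2⟩ := Metric.eventually_nhds_iff.1 h1
      obtain ⟨_, ⟨j, rfl⟩, hj1, hj2⟩ := hqd.exists_between (show x < x + δ by linarith)
      have h3 : A' (q j) < a := h2 (by rw [Real.dist_eq, abs_lt]; constructor <;> linarith)
      filter_upwards [(tendsto_order.1 (hj j)).2 a h3] with n hn
      exact (hmono _ (htT n) hj1.le).trans_lt hn
  have hae : ∀ᵐ x, ContinuousAt A' x := cont_ae hA'
  have hD : Integrable fun y : ℝ => C * D * (1 + y ^ 2)⁻¹ :=
    integrable_inv_one_add_sq.const_mul _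
  have h1 : Tendsto (fun n => ∫ y, A (t n) y * w y) atTop (𝓝 (∫ y, A' y * w y)) := by
    refine tendsto_integral_of_dominated_convergence _ (fun n => ?_) hD (fun n => ?_) ?_
    · exact ((hmono _ (htT n)).measurable.mul hw).aestronglyMeasurable
    · refine Eventually.of_forall fun y => ?_
      rw [Real.norm_eq_abs, abs_mul]
      have h1 : 0 < 1 + y ^ 2 := by positivity
      calc |A (t n) y| * |w y| ≤ (C * (1 + y ^ 2)) * (D / (1 + y ^ 2) ^ 2) := by
            gcongr
            · exact hb _ (htT n) y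
            · exact hwd y
        _ = C * D * (1 + y ^ 2)⁻¹ := by field_simp
    · filter_upwards [hae] with x hx
      exact (hcont x hx).mul_const _
  have h2 : Tendsto (fun n => ∫ y, A (t n) y * w y) atTop (𝓝 I) := by
    rw [Metric.tendsto_nhds]
    intro ε hε
    have h1 : ∀ᶠ n : ℕ in atTop, 1 / ((n : ℝ) + 1) < ε :=
      (tendsto_order.1 tendsto_one_div_add_atTop_nhds_zero_nat).2 ε hε
    filter_upwards [h1] with n hn
    rw [Real.dist_eq]
    exact (ht3 n).trans hn
  exact tendsto_nhds_unique h1 h2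

/-- the limit of the band-limited averages -/
lemma lim_test {κ : ℝ} {K : ℝ → ℝ} (hK : TK κ K) {h : ℝ} (hh : 0 < h) (g : Ultrafilter ℝ)
    (hg : (g : Filter ℝ) ≤ atTop) {A' : ℝ → ℝ} (hA' : Monotone A')
    (hlim : ∀ y, Tendsto (fun T => Aa T y) (g : Filter ℝ) (𝓝 (A' y))) :
    Tendsto (fun T => ∫ x, fav K h x ∂(Mp T)) (g : Filter ℝ)
      (𝓝 (-∫ y, A' y * (ct K (y + h) - ct K (y - h)))) := by
  obtain ⟨C0, T0, hT0, hb⟩ := Aa_bd
  obtain ⟨D, hD⟩ := test_decay hK h
  have hmono : ∀ T, T0 ≤ T → Monotone (Aa T) := fun T hT => Aa_mono (by linarith)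
  have hT : ∀ᶠ T in (g : Filter ℝ), T0 ≤ T := hg (eventually_ge_atTop _)
  have hC0 : 0 ≤ C0 := by
    have := (abs_nonneg _).trans (hb T0 le_rfl 0)
    simpa using this
  have hwm : Measurable fun y => ct K (y + h) - ct K (y - h) :=
    (hK.ct_cont.measurable.comp (by fun_prop)).sub (hK.ct_cont.measurable.comp (by fun_prop))
  have hDi : Integrable fun y : ℝ => C0 * D * (1 + y ^ 2)⁻¹ :=
    integrable_inv_one_add_sq.const_mul _
  set B : ℝ := ∫ y : ℝ, C0 * D * (1 + y ^ 2)⁻¹ with hB
  have hbd : ∀ T, T0 ≤ T → |∫ y, Aa T y * (ct K (y + h) - ct K (y - h))| ≤ B := by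
    intro T hT1
    rw [← Real.norm_eq_abs]
    refine norm_integral_le_of_norm_le hDi (Eventually.of_forall fun y => ?_)
    rw [Real.norm_eq_abs, abs_mul]
    have h1 : 0 < 1 + y ^ 2 := by positivity
    calc |Aa T y| * |ct K (y + h) - ct K (y - h)| ≤ (C0 * (1 + y ^ 2)) * (D / (1 + y ^ 2) ^ 2) := by
          gcongr
          · exact hb _ hT1 y
          · exact hD y
      _ = C0 * D * (1 + y ^ 2)⁻¹ := by field_simp
  obtain ⟨I, hI⟩ : ∃ I, Tendsto (fun T => ∫ y, Aa T y * (ct K (y + h) - ct K (y - h)))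
      (g : Filter ℝ) (𝓝 I) := by
    have h1 : ((g.map fun T => ∫ y, Aa T y * (ct K (y + h) - ct K (y - h)) : Ultrafilter ℝ) :
        Filter ℝ) ≤ 𝓟 (Set.Icc (-B) B) := by
      rw [le_principal_iff]
      have h2 : ∀ᶠ T in (g : Filter ℝ), (∫ y, Aa T y * (ct K (y + h) - ct K (y - h))) ∈
          Set.Icc (-B) B := by
        filter_upwards [hT] with T hT1
        exact abs_le.1 (hbd T hT1)
      exact h2
    obtain ⟨L, _, hL⟩ := isCompact_Icc.ultrafilter_le_nhds _ h1
    exact ⟨L, hL⟩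
  have h2 := lim_int' hmono hb hwm hD hI hg hA' hlim
  rw [h2]
  refine hI.neg.congr' ?_
  filter_upwards [hT] with T hT1
  rw [Aa_int hK hh, Pool.Agent.Y749.Rig.Mp_integral (by linarith), neg_neg]
  have e2 : Xf T = nT T := by
    unfold Xf nT
    ring
  rw [e2, div_eq_inv_mul]
  congr 1
  unfold RR Q2 QS
  rw [Pool.Agent.Y749.Rig.ZZ_eq]
  rfl

/-- periodicity gives the integrals against the band-limited averages -/
lemma annih_rev {κ C0 : ℝ} {K A' : ℝ → ℝ} (hK : TK κ K) (hA' : Monotone A')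
    (hb : ∀ y, |A' y| ≤ C0 * (1 + y ^ 2)) (h : ℝ)
    (hp : ∀ᵐ x, dE A' (x + h) = dE A' (x - h)) :
    ∫ y, A' y * (ct K (y + h) - ct K (y - h)) = ∫ y, AG y * (ct K (y + h) - ct K (y - h)) := by
  have hEm := dE_meas hA'
  have hEb := dE_bound hb
  have i1 : ∀ h, Integrable fun y => dE A' y * ct K (y + h) := fun h => test_int hK hEm hEb h
  have e1 : ∀ h, ∫ y, dE A' (y + h) * ct K y = ∫ y, dE A' y * ct K (y - h) := by
    intro h
    have := integral_add_right_eq_self (μ := volume) (fun y => dE A' y * ct K (y - h)) h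
    rw [← this]
    refine integral_congr_ae (Eventually.of_forall fun y => ?_)
    show dE A' (y + h) * ct K y = dE A' (y + h) * ct K (y + h - h)
    rw [add_sub_cancel_right]
  have i2 : ∀ h, Integrable fun y => dE A' (y + h) * ct K y := by
    intro h
    have := (i1 (-h)).comp_add_right h
    refine this.congr (Eventually.of_forall fun y => ?_)
    show dE A' (y + h) * ct K (y + h + -h) = dE A' (y + h) * ct K y
    rw [add_neg_cancel_right]
  have e2 : ∫ y, (dE A' (y + h) - dE A' (y - h)) * ct K y =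
      ∫ y, dE A' y * (ct K (y - h) - ct K (y + h)) := by
    have h1 : ∫ y, (dE A' (y + h) - dE A' (y - h)) * ct K y =
        (∫ y, dE A' (y + h) * ct K y) - ∫ y, dE A' (y + -h) * ct K y := by
      rw [← integral_sub (i2 h) (i2 (-h))]
      refine integral_congr_ae (Eventually.of_forall fun y => ?_)
      show (dE A' (y + h) - dE A' (y - h)) * ct K y = dE A' (y + h) * ct K y -
        dE A' (y + -h) * ct K y
      rw [← sub_eq_add_neg]
      ring
    rw [h1, e1, e1]
    have h2 : ∫ y, dE A' y * (ct K (y - h) - ct K (y + h)) =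
        (∫ y, dE A' y * ct K (y + -h)) - ∫ y, dE A' y * ct K (y + h) := by
      rw [← integral_sub (i1 (-h)) (i1 h)]
      refine integral_congr_ae (Eventually.of_forall fun y => ?_)
      show dE A' y * (ct K (y - h) - ct K (y + h)) = dE A' y * ct K (y + -h) -
        dE A' y * ct K (y + h)
      rw [← sub_eq_add_neg]
      ring
    rw [h2]
    simp only [sub_neg_eq_add, ← sub_eq_add_neg]
  have e0 : ∫ y, (dE A' (y + h) - dE A' (y - h)) * ct K y = 0 := by
    rw [← integral_zero ℝ ℝ (μ := volume)]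
    refine integral_congr_ae ?_
    filter_upwards [hp] with x hx
    rw [hx, sub_self, zero_mul]
  rw [e0] at e2
  set w : ℝ → ℝ := fun y => ct K (y + h) - ct K (y - h) with hw
  have hwodd : ∀ y, w (-y) = -w y := by
    intro y
    simp only [hw]
    have a1 : ct K (-y + h) = ct K (y - h) := by
      rw [← TK.ct_neg K (y - h)]
      congr 1
      ring
    have a2 : ct K (-y - h) = ct K (y + h) := by
      rw [← TK.ct_neg K (y + h)]
      congr 1
      ring
    rw [a1, a2]
    ring
  have hAb : ∀ x, |AG x| ≤ 2 * (1 + x ^ 2) := AG_bound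
  have iA : Integrable fun y => A' y * w y := by
    refine ((test_int hK hA'.measurable hb h).sub (test_int hK hA'.measurable hb (-h))).congr
      (Eventually.of_forall fun y => ?_)
    show A' y * ct K (y + h) - A' y * ct K (y + -h) = A' y * (ct K (y + h) - ct K (y - h))
    rw [← sub_eq_add_neg]
    ring
  have iG : Integrable fun y => AG y * w y := by
    refine ((test_int hK AG_meas hAb h).sub (test_int hK AG_meas hAb (-h))).congr
      (Eventually.of_forall fun y => ?_)
    show AG y * ct K (y + h) - AG y * ct K (y + -h) = AG y * (ct K (y + h) - ct K (y - h))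
    rw [← sub_eq_add_neg]
    ring
  have iD : Integrable fun y => (A' y - AG y) * w y := by
    refine (iA.sub iG).congr (Eventually.of_forall fun y => ?_)
    show A' y * w y - AG y * w y = (A' y - AG y) * w y
    ring
  have d1 : ∫ y, (A' (-y) - AG (-y)) * w y = -∫ y, (A' y - AG y) * w y := by
    have h1 : ∫ y, (A' (-y) - AG (-y)) * w y = ∫ y, -((A' (-y) - AG (-y)) * w (-y)) := by
      refine integral_congr_ae (Eventually.of_forall fun y => ?_)
      show (A' (-y) - AG (-y)) * w y = -((A' (-y) - AG (-y)) * w (-y))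
      rw [hwodd]
      ring
    rw [h1, integral_neg, integral_neg_eq_self (fun y => (A' y - AG y) * w y) volume]
  have iD1 : Integrable fun y => (A' (-y) - AG (-y)) * w y := by
    refine iD.comp_neg.neg.congr (Eventually.of_forall fun y => ?_)
    show -((A' (-y) - AG (-y)) * w (-y)) = (A' (-y) - AG (-y)) * w y
    rw [hwodd]
    ring
  have e3 : ∫ y, dE A' y * (ct K (y - h) - ct K (y + h)) =
      -((∫ y, (A' y - AG y) * w y) - ∫ y, (A' (-y) - AG (-y)) * w y) := by
    rw [← integral_sub iD iD1, ← integral_neg]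
    refine integral_congr_ae (Eventually.of_forall fun y => ?_)
    show dE A' y * (ct K (y - h) - ct K (y + h)) =
      -((A' y - AG y) * (ct K (y + h) - ct K (y - h)) -
        (A' (-y) - AG (-y)) * (ct K (y + h) - ct K (y - h)))
    unfold dE
    ring
  rw [e3, d1] at e2
  have e4 : ∫ y, (A' y - AG y) * w y = 0 := by linarith
  have e5 : ∫ y, (A' y - AG y) * w y = (∫ y, A' y * w y) - ∫ y, AG y * w y := by
    rw [← integral_sub iA iG]
    refine integral_congr_ae (Eventually.of_forall fun y => ?_)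
    show (A' y - AG y) * w y = A' y * w y - AG y * w y
    ring
  rw [e5] at e4
  show ∫ y, A' y * w y = ∫ y, AG y * w y
  linarith

section

variable {l : Filter ℝ}

/-- the band-limited averages -/
theorem tests (hoff : AlmostAll) (hl : l ≤ atTop) {Λ : Set ℝ} (hΛ : ∀ ℓ ∈ Λ, 0 < ℓ)
    (h : ∀ ℓ ∈ Λ, SpG l ℓ) {γ : ℝ} (hγ : 0 < γ) (hγ2 : γ ∈ AddSubgroup.closure Λ) {κ' : ℝ}
    {K : ℝ → ℝ} (hK : TK κ' K) :
    Tendsto (fun T => ∫ x, fav K (γ / 2) x ∂(Mp T)) l
      (𝓝 (-∫ y, AG y * (ct K (y + γ / 2) - ct K (y - γ / 2)))) := by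
  obtain ⟨κ, hκ, hlimit⟩ := Cr.exists_limit hoff
  rw [tendsto_iff_ultrafilter]
  intro g hg
  obtain ⟨A', C0, hA', hneg, hb, h00, hlim, hm⟩ := hlimit g (hg.trans hl)
  have p1 : ∀ᵐ x, dE A' (x + γ) = dE A' x := per_group
    (fun ℓ hℓ => SpG_per hl hκ (hΛ ℓ hℓ) (h ℓ hℓ) hg hA' hneg hb hlim hm) hγ2
  have p2 : ∀ᵐ x, dE A' (x + γ / 2) = dE A' (x - γ / 2) := by
    have := (measurePreserving_add_right (volume : Measure ℝ) (-(γ / 2))).quasiMeasurePreserving.ae p1
    filter_upwards [this] with x hx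
    have e1 : x + -(γ / 2) + γ = x + γ / 2 := by ring
    rw [e1] at hx
    rw [hx, sub_eq_add_neg]
  have h1 := lim_test hK (show 0 < γ / 2 by positivity) g (hg.trans hl) hA' hlim
  rwa [annih_rev hK hA' hb _ p2] at h1

/-- the mean of the form factor against test functions supported away from the lattice -/
theorem form_test (hoff : AlmostAll) (hl : l ≤ atTop) {Λ : Set ℝ} (hΛ : ∀ ℓ ∈ Λ, 0 < ℓ)
    (h : ∀ ℓ ∈ Λ, SpG l ℓ) {γ : ℝ} (hγ : 0 < γ) (hγ2 : γ ∈ AddSubgroup.closure Λ) {κ : ℝ}
    (hκ : 0 < κ) {ψ : ℝ → ℝ} (hψ : TK κ ψ) (hs : ∀ α ∈ tsupport ψ, Real.sin (π * γ * α) ≠ 0) :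
    Tendsto (fun T => ∫ α, ψ α * Fr T α) l (𝓝 (∫ α, mn α * ψ α)) := by
  have hpi := Real.pi_pos
  set K : ℝ → ℝ := fun α => ψ α * (π * α / Real.sin (π * γ * α)) with hKdef
  have hK : TK κ K := by
    refine ⟨?_, fun x => ?_, fun x hx => ?_⟩
    · rw [contDiff_iff_contDiffAt]
      intro x
      by_cases hx : x ∈ tsupport ψ
      · refine hψ.smooth.contDiffAt.mul (ContDiffAt.div ?_ ?_ (hs x hx))
        · exact (contDiff_const.mul contDiff_id).contDiffAt
        · exact (Real.contDiff_sin.comp (contDiff_const.mul contDiff_id)).contDiffAt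
      · have h1 : K =ᶠ[𝓝 x] fun _ => 0 := by
          have h2 : ∀ᶠ y in 𝓝 x, y ∉ tsupport ψ := (isClosed_tsupport ψ).isOpen_compl.mem_nhds hx
          filter_upwards [h2] with y hy
          simp only [hKdef]
          rw [image_eq_zero_of_notMem_tsupport hy, zero_mul]
        exact contDiffAt_const.congr_of_eventuallyEq h1
    · simp only [hKdef]
      rw [hψ.even, mul_neg, mul_neg, Real.sin_neg, neg_div_neg_eq]
    · simp only [hKdef]
      rw [hψ.supp x hx, zero_mul]
  have hKav : ∀ α, Kav K (γ / 2) α = ψ α := by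
    intro α
    unfold Kav
    simp only [hKdef]
    by_cases h0 : ψ α = 0
    · rw [h0]; ring
    · have h1 := hs α (subset_tsupport ψ h0)
      have h2 : α ≠ 0 := by
        rintro rfl
        apply h1
        simp
      have e1 : 2 * π * (γ / 2) * α = π * γ * α := by ring
      rw [e1, Real.sinc_of_ne_zero (by positivity)]
      have e2 : π * α * γ = π * γ * α := by ring
      field_simp
      rw [e2]
      exact div_self h1
  have hh : 0 < γ / 2 := by positivity
  have hfl : ∀ x, fl ψ x = fav K (γ / 2) x := by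
    intro x
    rw [fav_eq hK hh, ← ct_fl]
    unfold ct
    simp_rw [hKav]
  have hA : Adm (2 * κ) ψ := adm_TK (by positivity) (by
    have : 2 * κ / 2 = κ := by ring
    rwa [this])
  have h1 := tests hoff hl hΛ h hγ hγ2 hK
  have e1 : -∫ y, AG y * (ct K (y + γ / 2) - ct K (y - γ / 2)) = ∫ α, mn α * ψ α := by
    have h2 := Pool.Agent.Y749.Rig.gue2 hA
    have h3 : ψ 0 = 0 := by
      by_contra h4
      exact hs 0 (subset_tsupport ψ h4) (by simp)
    rw [h3, zero_add] at h2
    rw [← h2, Pool.Agent.Y749.Rig.mG_integral (Pool.Agent.Y749.Rig.fl_cont hA.int)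
      (Pool.Agent.Y749.Rig.fl_qd hA), AG_int hK hh, neg_neg, hfl]
    congr 1
    refine integral_congr_ae ?_
    have h0 : ∀ᵐ x : ℝ, x ≠ 0 := by
      rw [ae_iff]
      simp
    filter_upwards [h0] with x hx
    rw [hfl]
    congr 1
    unfold gd FF
    rw [Real.sinc_of_ne_zero (by positivity)]
  rw [e1] at h1
  refine Pool.Agent.Y749.Rig.Fr_lim hA.int (Pool.Agent.Y749.Rig.fl_qd hA) hl ?_
  refine h1.congr fun T => ?_
  refine integral_congr_ae (Eventually.of_forall fun x => ?_)
  show fav K (γ / 2) x = fl ψ x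
  rw [hfl]

/-- smooth even functions made from a bump -/
lemma bump_lim (hoff : AlmostAll) (hl : l ≤ atTop) {Λ : Set ℝ} (hΛ : ∀ ℓ ∈ Λ, 0 < ℓ)
    (h : ∀ ℓ ∈ Λ, SpG l ℓ) {γ : ℝ} (hγ : 0 < γ) (hγ2 : γ ∈ AddSubgroup.closure Λ) {c : ℝ}
    (f : ContDiffBump c) (hc : 0 < c - f.rOut)
    (hs : ∀ α ∈ Set.Icc (c - f.rOut) (c + f.rOut), Real.sin (π * γ * α) ≠ 0) :
    Tendsto (fun T => ∫ α, f α * Fr T α) l (𝓝 (∫ α, f α * mn α)) := by
  have hf0 : ∀ α, α ∉ Set.Icc (c - f.rOut) (c + f.rOut) → f α = 0 := by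
    intro α hα
    refine f.zero_of_le_dist ?_
    rw [Real.dist_eq]
    by_contra hcon
    push Not at hcon
    have := abs_lt.1 hcon
    exact hα ⟨by linarith [this.1], by linarith [this.2]⟩
  have hr := f.rOut_pos
  have hfc : Continuous f := f.continuous
  have hfs : HasCompactSupport f := f.hasCompactSupport
  set ψ : ℝ → ℝ := fun α => f α + f (-α) with hψdef
  have hψ : TK (c + f.rOut) ψ := by
    refine ⟨?_, fun x => ?_, fun x hx => ?_⟩
    · exact f.contDiff.add (f.contDiff.comp contDiff_neg)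
    · simp only [hψdef]
      rw [neg_neg, add_comm]
    · simp only [hψdef]
      have h1 : f x = 0 := hf0 x (by
        rintro ⟨h1, h2⟩
        rw [abs_of_pos (by linarith)] at hx
        linarith)
      have h2 : f (-x) = 0 := hf0 (-x) (by
        rintro ⟨h1, h2⟩
        rw [← abs_neg, abs_of_pos (by linarith)] at hx
        linarith)
      rw [h1, h2, add_zero]
  have hts : tsupport ψ ⊆ Set.Icc (c - f.rOut) (c + f.rOut) ∪ Set.Icc (-(c + f.rOut)) (-(c - f.rOut)) := by
    refine closure_minimal ?_ (isClosed_Icc.union isClosed_Icc)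
    intro x hx
    by_contra hcon
    rw [Set.mem_union, not_or] at hcon
    apply hx
    simp only [hψdef]
    rw [hf0 x hcon.1, hf0 (-x) (by
      rintro ⟨h1, h2⟩
      exact hcon.2 ⟨by linarith, by linarith⟩), add_zero]
  have hs' : ∀ α ∈ tsupport ψ, Real.sin (π * γ * α) ≠ 0 := by
    intro α hα
    rcases hts hα with h1 | h1
    · exact hs α h1
    · have h2 := hs (-α) ⟨by linarith [h1.2], by linarith [h1.1]⟩
      rw [mul_neg, Real.sin_neg] at h2
      exact fun h3 => h2 (by rw [h3, neg_zero])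
  have h1 := form_test hoff hl hΛ h hγ hγ2 (κ := c + f.rOut) (by linarith) hψ hs'
  have key : ∀ G : ℝ → ℝ, Continuous G → (∀ α, G (-α) = G α) →
      ∫ α, ψ α * G α = 2 * ∫ α, f α * G α := by
    intro G hG hGe
    have i1 : Integrable fun α => f α * G α :=
      (hfc.mul hG).integrable_of_hasCompactSupport hfs.mul_right
    have i2 : Integrable fun α => f (-α) * G α := by
      refine i1.comp_neg.congr (Eventually.of_forall fun α => ?_)
      show f (-α) * G (-α) = f (-α) * G α
      rw [hGe]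
    have e1 : ∫ α, ψ α * G α = (∫ α, f α * G α) + ∫ α, f (-α) * G α := by
      rw [← integral_add i1 i2]
      refine integral_congr_ae (Eventually.of_forall fun α => ?_)
      show (f α + f (-α)) * G α = f α * G α + f (-α) * G α
      ring
    have e2 : ∫ α, f (-α) * G α = ∫ α, f α * G α := by
      rw [← integral_neg_eq_self (fun α => f α * G α) volume]
      refine integral_congr_ae (Eventually.of_forall fun α => ?_)
      show f (-α) * G α = f (-α) * G (-α)
      rw [hGe]
    rw [e1, e2]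
    ring
  have e3 : ∫ α, mn α * ψ α = 2 * ∫ α, f α * mn α := by
    rw [← key mn Pool.Agent.Y749.Rig.mn_cont Pool.Agent.Y749.Rig.mn_even]
    refine integral_congr_ae (Eventually.of_forall fun α => ?_)
    show mn α * ψ α = ψ α * mn α
    ring
  rw [e3] at h1
  have h2 := h1.const_mul (1 / 2)
  have e4 : 1 / 2 * (2 * ∫ α, f α * mn α) = ∫ α, f α * mn α := by ring
  rw [e4] at h2
  refine h2.congr fun T => ?_
  rw [key (Fr T) (Pool.Agent.Y749.Rig.Fr_cont T) (Pool.Agent.Y749.Rig.Fr_even T)]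
  ring

/-- **the mean of the form factor on the intervals which do not meet the lattice `(1/γ)ℤ`** -/
theorem form_mean (hoff : AlmostAll) (hl : l ≤ atTop) {Λ : Set ℝ} (hΛ : ∀ ℓ ∈ Λ, 0 < ℓ)
    (h : ∀ ℓ ∈ Λ, SpG l ℓ) {γ : ℝ} (hγ : 0 < γ) (hγ2 : γ ∈ AddSubgroup.closure Λ) {a b : ℝ}
    (ha : 0 < a) (hab : a < b) (hs : ∀ α ∈ Set.Icc a b, Real.sin (π * γ * α) ≠ 0) :
    Tendsto (fun T => ∫ α in a..b, Fr T α) l (𝓝 (∫ α in a..b, mn α)) := by
  have hcs : Continuous fun α : ℝ => Real.sin (π * γ * α) := by fun_prop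
  have mnc := Pool.Agent.Y749.Rig.mn_cont
  have mn0 := Pool.Agent.Y749.Rig.mn_nonneg
  have mn1 := Pool.Agent.Y749.Rig.mn_le
  -- room around the interval
  obtain ⟨δ0, hδ0, hδa, hroom⟩ : ∃ δ : ℝ, 0 < δ ∧ δ < a ∧
      ∀ α ∈ Set.Icc (a - δ) (b + δ), Real.sin (π * γ * α) ≠ 0 := by
    have h1 := hcs.continuousAt.eventually_ne (hs a ⟨le_rfl, hab.le⟩)
    have h2 := hcs.continuousAt.eventually_ne (hs b ⟨hab.le, le_rfl⟩)
    obtain ⟨d1, hd1, h3⟩ := Metric.eventually_nhds_iff.1 h1
    obtain ⟨d2, hd2, h4⟩ := Metric.eventually_nhds_iff.1 h2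
    refine ⟨min (a / 2) (min (d1 / 2) (d2 / 2)), by positivity, ?_, fun α hα => ?_⟩
    · exact (min_le_left _ _).trans_lt (by linarith)
    · have m1 : min (a / 2) (min (d1 / 2) (d2 / 2)) ≤ d1 / 2 :=
        (min_le_right _ _).trans (min_le_left _ _)
      have m2 : min (a / 2) (min (d1 / 2) (d2 / 2)) ≤ d2 / 2 :=
        (min_le_right _ _).trans (min_le_right _ _)
      rcases lt_or_ge α a with h5 | h5
      · refine h3 ?_
        rw [Real.dist_eq, abs_lt]
        constructor <;> linarith [hα.1]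
      · rcases lt_or_ge b α with h6 | h6
        · refine h4 ?_
          rw [Real.dist_eq, abs_lt]
          constructor <;> linarith [hα.2]
        · exact hs α ⟨h5, h6⟩
  rw [Metric.tendsto_nhds]
  intro ε hε
  obtain ⟨δ, hδ, hδ1, hδ2, hδ3⟩ : ∃ δ : ℝ, 0 < δ ∧ δ ≤ δ0 ∧ δ ≤ (b - a) / 8 ∧ δ ≤ ε / 8 :=
    ⟨min δ0 (min ((b - a) / 8) (ε / 8)),
      lt_min hδ0 (lt_min (by linarith) (by positivity)), min_le_left _ _,
      (min_le_right _ _).trans (min_le_left _ _), (min_le_right _ _).trans (min_le_right _ _)⟩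
  -- upper and lower bumps
  let f1 : ContDiffBump ((a + b) / 2) := ⟨(b - a) / 2, (b - a) / 2 + δ, by linarith, by linarith⟩
  let f2 : ContDiffBump ((a + b) / 2) := ⟨(b - a) / 2 - δ, (b - a) / 2, by linarith, by linarith⟩
  have o1 : f1.rOut = (b - a) / 2 + δ := rfl
  have o2 : f2.rOut = (b - a) / 2 := rfl
  have i1 : f1.rIn = (b - a) / 2 := rfl
  have i2 : f2.rIn = (b - a) / 2 - δ := rfl
  have L1 := bump_lim hoff hl hΛ h hγ hγ2 f1 (by rw [o1]; linarith) (by
    intro α hα
    rw [o1] at hα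
    exact hroom α ⟨by linarith [hα.1], by linarith [hα.2]⟩)
  have L2 := bump_lim hoff hl hΛ h hγ hγ2 f2 (by rw [o2]; linarith) (by
    intro α hα
    rw [o2] at hα
    exact hroom α ⟨by linarith [hα.1], by linarith [hα.2]⟩)
  have one1 : ∀ α ∈ Set.Icc a b, f1 α = 1 := by
    intro α hα
    refine f1.one_of_mem_closedBall ?_
    rw [Metric.mem_closedBall, Real.dist_eq, i1, abs_le]
    constructor <;> linarith [hα.1, hα.2]
  have one2 : ∀ α ∈ Set.Icc (a + δ) (b - δ), f2 α = 1 := by
    intro α hα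
    refine f2.one_of_mem_closedBall ?_
    rw [Metric.mem_closedBall, Real.dist_eq, i2, abs_le]
    constructor <;> linarith [hα.1, hα.2]
  have z1 : ∀ α, α ∉ Set.Icc (a - δ) (b + δ) → f1 α = 0 := by
    intro α hα
    refine f1.zero_of_le_dist ?_
    rw [Real.dist_eq, o1]
    by_contra hcon
    push Not at hcon
    have := abs_lt.1 hcon
    exact hα ⟨by linarith [this.1], by linarith [this.2]⟩
  have z2 : ∀ α, α ∉ Set.Icc a b → f2 α = 0 := by
    intro α hα
    refine f2.zero_of_le_dist ?_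
    rw [Real.dist_eq, o2]
    by_contra hcon
    push Not at hcon
    have := abs_lt.1 hcon
    exact hα ⟨by linarith [this.1], by linarith [this.2]⟩
  -- integrals over the line as interval integrals
  have supp : ∀ (f : ℝ → ℝ) (p q : ℝ), p ≤ q → (∀ α, α ∉ Set.Icc p q → f α = 0) →
      ∀ G : ℝ → ℝ, ∫ α, f α * G α = ∫ α in p..q, f α * G α := by
    intro f p q hpq hf G
    rw [intervalIntegral.integral_of_le hpq, ← integral_Icc_eq_integral_Ioc]
    symm
    refine setIntegral_eq_integral_of_forall_compl_eq_zero fun x hx => ?_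
    rw [hf x hx, zero_mul]
  have ci : ∀ (f : ℝ → ℝ), Continuous f → ∀ p q : ℝ, IntervalIntegrable f volume p q :=
    fun f hf p q => hf.intervalIntegrable p q
  -- upper bound for `mn`
  have U1 : ∫ α, f1 α * mn α ≤ (∫ α in a..b, mn α) + 2 * δ := by
    have c1 : Continuous fun α => f1 α * mn α := f1.continuous.mul mnc
    rw [supp f1 (a - δ) (b + δ) (by linarith) z1,
      ← intervalIntegral.integral_add_adjacent_intervals (ci _ c1 (a - δ) a) (ci _ c1 a (b + δ)),
      ← intervalIntegral.integral_add_adjacent_intervals (ci _ c1 a b) (ci _ c1 b (b + δ))]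
    have s1 : ∀ p q : ℝ, p ≤ q → ∫ α in p..q, f1 α * mn α ≤ q - p := by
      intro p q hpq
      calc ∫ α in p..q, f1 α * mn α ≤ ∫ α in p..q, (1 : ℝ) := by
            refine intervalIntegral.integral_mono_on hpq (ci _ c1 p q) (by simp) fun α _ => ?_
            exact mul_le_one₀ f1.le_one (mn0 α) (mn1 α)
        _ = _ := by simp
    have s2 : ∫ α in a..b, f1 α * mn α = ∫ α in a..b, mn α := by
      refine intervalIntegral.integral_congr fun α hα => ?_
      rw [Set.uIcc_of_le hab.le] at hα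
      show f1 α * mn α = mn α
      rw [one1 α hα, one_mul]
    have s3 := s1 (a - δ) a (by linarith)
    have s4 := s1 b (b + δ) (by linarith)
    rw [s2]
    linarith
  have U2 : (∫ α in a..b, mn α) - 2 * δ ≤ ∫ α, f2 α * mn α := by
    have c1 : Continuous fun α => f2 α * mn α := f2.continuous.mul mnc
    rw [supp f2 a b hab.le z2,
      ← intervalIntegral.integral_add_adjacent_intervals (ci _ c1 a (a + δ)) (ci _ c1 (a + δ) b),
      ← intervalIntegral.integral_add_adjacent_intervals (ci _ c1 (a + δ) (b - δ))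
        (ci _ c1 (b - δ) b),
      ← intervalIntegral.integral_add_adjacent_intervals (ci _ mnc a (a + δ)) (ci _ mnc (a + δ) b),
      ← intervalIntegral.integral_add_adjacent_intervals (ci _ mnc (a + δ) (b - δ))
        (ci _ mnc (b - δ) b)]
    have s1 : ∀ p q : ℝ, p ≤ q → 0 ≤ ∫ α in p..q, f2 α * mn α := by
      intro p q hpq
      exact intervalIntegral.integral_nonneg hpq fun α _ => mul_nonneg f2.nonneg (mn0 α)
    have s5 : ∀ p q : ℝ, p ≤ q → ∫ α in p..q, mn α ≤ q - p := by
      intro p q hpq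
      calc ∫ α in p..q, mn α ≤ ∫ α in p..q, (1 : ℝ) :=
            intervalIntegral.integral_mono_on hpq (ci _ mnc p q) (by simp) fun α _ => mn1 α
        _ = _ := by simp
    have s2 : ∫ α in (a + δ)..(b - δ), f2 α * mn α = ∫ α in (a + δ)..(b - δ), mn α := by
      refine intervalIntegral.integral_congr fun α hα => ?_
      rw [Set.uIcc_of_le (by linarith)] at hα
      show f2 α * mn α = mn α
      rw [one2 α hα, one_mul]
    have s3 := s1 a (a + δ) (by linarith)
    have s4 := s1 (b - δ) b (by linarith)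
    have s6 := s5 a (a + δ) (by linarith)
    have s7 := s5 (b - δ) b (by linarith)
    rw [s2]
    linarith
  filter_upwards [(Metric.tendsto_nhds.1 L1) (ε / 4) (by positivity),
    (Metric.tendsto_nhds.1 L2) (ε / 4) (by positivity), hl (eventually_ge_atTop (10 : ℝ))]
    with T h1 h2 hT
  have F0 := Pool.Agent.Y749.Rig.Fr_nonneg hT
  have Fc := Pool.Agent.Y749.Rig.Fr_cont T
  rw [Real.dist_eq] at h1 h2 ⊢
  have V1 : ∫ α in a..b, Fr T α ≤ ∫ α, f1 α * Fr T α := by
    have c1 : Continuous fun α => f1 α * Fr T α := f1.continuous.mul Fc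
    rw [supp f1 (a - δ) (b + δ) (by linarith) z1,
      ← intervalIntegral.integral_add_adjacent_intervals (ci _ c1 (a - δ) a) (ci _ c1 a (b + δ)),
      ← intervalIntegral.integral_add_adjacent_intervals (ci _ c1 a b) (ci _ c1 b (b + δ))]
    have s1 : ∀ p q : ℝ, p ≤ q → 0 ≤ ∫ α in p..q, f1 α * Fr T α := by
      intro p q hpq
      exact intervalIntegral.integral_nonneg hpq fun α _ => mul_nonneg f1.nonneg (F0 α)
    have s2 : ∫ α in a..b, f1 α * Fr T α = ∫ α in a..b, Fr T α := by
      refine intervalIntegral.integral_congr fun α hα => ?_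
      rw [Set.uIcc_of_le hab.le] at hα
      show f1 α * Fr T α = Fr T α
      rw [one1 α hα, one_mul]
    have s3 := s1 (a - δ) a (by linarith)
    have s4 := s1 b (b + δ) (by linarith)
    rw [s2]
    linarith
  have V2 : ∫ α, f2 α * Fr T α ≤ ∫ α in a..b, Fr T α := by
    have c1 : Continuous fun α => f2 α * Fr T α := f2.continuous.mul Fc
    rw [supp f2 a b hab.le z2]
    refine intervalIntegral.integral_mono_on hab.le (ci _ c1 a b) (ci _ Fc a b) fun α _ => ?_
    exact mul_le_of_le_one_left (F0 α) f2.le_one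
  have A1 := abs_lt.1 h1
  have A2 := abs_lt.1 h2
  rw [abs_lt]
  constructor <;> linarith [A1.1, A1.2, A2.1, A2.2]

end

end Pool.Agent.R346.BG.Fo
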