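import Pool.Agent.R346.BG.Form

/-! Statements for Montgomery's function. -/

open MeasureTheory Filter Topology

namespace Pool.Agent.R346.BG.Fo

open Pool.Agent.Y749.Rig (NF ZZ mem_ZZ)
open Pool.Agent.Y749.Rig.P (F MeanUpper up_iff mean_eq min_eq)
open Pool.Agent.Y744.G (Montgomery Mont_iff)
open Cr

lemma almost_RH (hRH : RiemannHypothesis) : AlmostAll := by
  intro η hη
  filter_upwards [eventually_ge_atTop (10 : ℝ)] with T hT
  have hL : 0 < Real.log T := Real.log_pos (by linarith)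
  have h0 : NF T = 0 := by
    unfold NF
    refine Finset.sum_eq_zero fun s hs => ?_
    exfalso
    rw [Finset.mem_filter, mem_ZZ] at hs
    obtain ⟨⟨h1, h2, h3, h4, h5⟩, hre⟩ := hs
    refine hre (hRH s h1 ?_ ?_)
    · rintro ⟨n, hn⟩
      rw [hn] at h2
      have : (-2 * ((n : ℂ) + 1)).re = -2 * ((n : ℝ) + 1) := by simp
      rw [this] at h2
      have hn0 : (0 : ℝ) ≤ n := Nat.cast_nonneg n
      linarith
    · rintro rfl
      simp at h3
  rw [h0]
  positivity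

theorem main (hRH : RiemannHypothesis) (l : Filter ℝ) (hl : l ≤ atTop) (Λ : Set ℝ)
    (hΛ : ∀ ℓ ∈ Λ, 0 < ℓ) :
    ((∀ ℓ ∈ Λ, Good l ℓ) → ∀ γ ∈ AddSubgroup.closure Λ, 0 < γ → ∀ a b : ℝ, 0 < a → a < b →
      (∀ k : ℤ, (k : ℝ) / γ ∉ Set.Icc a b) →
      Tendsto (fun T => ∫ α in a..b, (F T α).re) l (𝓝 (∫ α in a..b, min α 1))) ∧
    (Dense (AddSubgroup.closure Λ : Set ℝ) →
      ((∀ a b : ℝ, 0 < a → a < b →
        Tendsto (fun T => ∫ α in a..b, (F T α).re) l (𝓝 (∫ α in a..b, min α 1))) ↔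
      ∀ ℓ ∈ Λ, Good l ℓ)) := by
  have hpi := Real.pi_pos
  have one : (∀ ℓ ∈ Λ, Good l ℓ) → ∀ γ ∈ AddSubgroup.closure Λ, 0 < γ → ∀ a b : ℝ, 0 < a → a < b →
      (∀ k : ℤ, (k : ℝ) / γ ∉ Set.Icc a b) →
      Tendsto (fun T => ∫ α in a..b, (F T α).re) l (𝓝 (∫ α in a..b, min α 1)) := by
    intro hG γ hγ2 hγ a b ha hab hk
    have h1 := form_mean (almost_RH hRH) hl hΛ (fun ℓ hℓ => (hG ℓ hℓ).spg hl) hγ hγ2 ha hab (by
      intro α hα h0
      obtain ⟨n, hn⟩ := Real.sin_eq_zero_iff.1 h0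
      refine hk n ?_
      have h2 : (n : ℝ) / γ = α := by
        rw [div_eq_iff hγ.ne']
        have h3 : Real.pi * (n : ℝ) = Real.pi * (α * γ) := by linarith
        exact mul_left_cancel₀ hpi.ne' h3
      rw [h2]
      exact hα)
    rw [min_eq ha hab]
    refine h1.congr' ?_
    filter_upwards [hl (eventually_ge_atTop (10 : ℝ))] with T hT
    rw [mean_eq hT]
  refine ⟨one, fun hd => ⟨fun h => ?_, fun hG a b ha hab => ?_⟩⟩
  · have hM : Montgomery l := by
      rw [(Pool.Agent.Y749.Rig.P.main hRH l hl).1]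
      intro R a b ha hab _ ε hε
      have h1 := (Metric.tendsto_nhds.1 (h a b ha hab)) ε hε
      filter_upwards [h1] with T hT
      rw [Real.dist_eq] at hT
      linarith [(abs_lt.1 hT).2]
    exact fun ℓ hℓ => Or.inl (Mont_Sparse hl hM (hΛ ℓ hℓ))
  · obtain ⟨γ, hγ, hγ1, hγ2⟩ := hd.exists_between (show (0 : ℝ) < 1 / b by
      have : 0 < b := by linarith
      positivity)
    refine one hG γ hγ hγ1 a b ha hab fun k hk => ?_
    have hb : 0 < b := by linarith
    have hk0 : (0 : ℝ) < k := by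
      have h1 : 0 < (k : ℝ) / γ := by linarith [hk.1]
      exact (div_pos_iff_of_pos_right hγ1).1 h1
    have hk1 : (1 : ℝ) ≤ k := by
      have : 0 < k := by exact_mod_cast hk0
      exact_mod_cast this
    have h2 := hk.2
    rw [div_le_iff₀ hγ1] at h2
    rw [lt_div_iff₀ hb] at hγ2
    linarith

end Pool.Agent.R346.BG.Fo
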