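import Pool.Agent.R346.BG.Cz

/-! Recovering the function from the jump of its transform. -/

open MeasureTheory Filter Topology Real
open scoped ContDiff

namespace Pool.Agent.R346.BG

variable {c κ B : ℝ} {f : ℝ → ℂ} {H : ℝ → ℝ}

lemma G_int (h : HP κ B H) (hf : CS c f) (hc : 0 ≤ c) {z : ℂ} (hz : z.im ≠ 0) :
    Integrable fun u : ℝ => (H u : ℂ) * G f (z - u) := by
  obtain ⟨C, hC, h1⟩ := FL_z' hf
  have hd : 0 < |z.im| := abs_pos.2 hz
  refine (h.est (G_meas hf hc z) (x := z.re) (D := C * Real.exp (2 * π * c * |z.im|) / |z.im|)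
    (by positivity) ?_).1
  filter_upwards [sep_im (H := H) z] with u hu h0
  unfold G
  rw [norm_div]
  have h3 := hu h0
  calc ‖FL f (z - u)‖ / ‖z - u‖ ≤
        (C * Real.exp (2 * π * c * |z.im|) / (1 + (u - z.re) ^ 2) ^ 2) / |z.im| := by
        have := h1 z u
        gcongr
    _ = _ := by rw [div_right_comm]

lemma CC_sub (z : ℂ) (x : ℝ) :
    CC f H (x + z) = ∫ v : ℝ, (H (x - v) : ℂ) * G f (v + z) := by
  unfold CC
  rw [← integral_sub_left_eq_self (fun u : ℝ => (H u : ℂ) * G f (x + z - u)) volume x]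
  refine integral_congr_ae (Eventually.of_forall fun v => ?_)
  show (H (x - v) : ℂ) * G f (x + z - ((x - v : ℝ) : ℂ)) = (H (x - v) : ℂ) * G f (v + z)
  congr 2
  push_cast
  ring

lemma CC_sub_int (h : HP κ B H) (hf : CS c f) (hc : 0 ≤ c) {z : ℂ} (hz : z.im ≠ 0) (x : ℝ) :
    Integrable fun v : ℝ => (H (x - v) : ℂ) * G f (v + z) := by
  have h1 := (G_int h hf hc (z := x + z) (by simpa using hz)).comp_sub_left x
  refine h1.congr (Eventually.of_forall fun v => ?_)
  show (H (x - v) : ℂ) * G f (x + z - ((x - v : ℝ) : ℂ)) = (H (x - v) : ℂ) * G f (v + z)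
  congr 2
  push_cast
  ring

/-- the decomposition of the difference of the kernels -/
lemma G_diff (v y : ℝ) (hy : 0 < y) :
    G f (v + y * Complex.I) - G f (v + -(y * Complex.I)) =
      (v : ℂ) * (FL f (v + y * Complex.I) - FL f (v + -(y * Complex.I))) / ((v ^ 2 + y ^ 2 : ℝ) : ℂ) +
      -Complex.I * y * (FL f (v + y * Complex.I) + FL f (v + -(y * Complex.I))) /
        ((v ^ 2 + y ^ 2 : ℝ) : ℂ) := by
  unfold G
  generalize FL f (v + y * Complex.I) = X
  generalize FL f (v + -(y * Complex.I)) = Y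
  have h1 : (v + y * Complex.I : ℂ) ≠ 0 := by
    intro h
    have := congrArg Complex.im h
    simp at this
    exact hy.ne' this
  have h2 : (v + -(y * Complex.I) : ℂ) ≠ 0 := by
    intro h
    have := congrArg Complex.im h
    simp at this
    exact hy.ne' this
  have h3 : ((v ^ 2 + y ^ 2 : ℝ) : ℂ) = (v + y * Complex.I) * (v + -(y * Complex.I)) := by
    push_cast
    linear_combination (y : ℂ) ^ 2 * Complex.I_sq
  rw [h3]
  field_simp
  ring

lemma FL_vert (hf : CS c f) (hc : 0 ≤ c) : ∃ C, 0 ≤ C ∧ ∀ v y : ℝ, 0 < y → y ≤ 1 →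
    ‖FL f (v + y * Complex.I) - FL f (v + -(y * Complex.I))‖ ≤ C * (2 * y) / (1 + v ^ 2) ^ 2 := by
  have hf1 : CS c (fun α => f α * (2 * π * Complex.I * α)) := hf.mul_smooth lin_smooth
  obtain ⟨C, hC, h1⟩ := FL_decay hf1
  refine ⟨C * Real.exp (2 * π * c), by positivity, fun v y hy hy1 => ?_⟩
  have hd : ∀ t ∈ Set.Icc (-y) y, HasDerivWithinAt (fun t : ℝ => FL f (v + t * Complex.I))
      (FL (fun α => f α * (2 * π * Complex.I * α)) (v + t * Complex.I) * Complex.I)
      (Set.Icc (-y) y) t := by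
    intro t _
    refine HasDerivAt.hasDerivWithinAt ?_
    have e1 : HasDerivAt (fun t : ℂ => (v + t * Complex.I : ℂ)) Complex.I (t : ℂ) := by
      have := ((hasDerivAt_id (t : ℂ)).mul_const Complex.I).const_add (v : ℂ)
      simpa using this
    exact ((FL_hasDerivAt hf hc (v + t * Complex.I)).comp (t : ℂ) e1).comp_ofReal
  have hb : ∀ t ∈ Set.Ico (-y) y,
      ‖FL (fun α => f α * (2 * π * Complex.I * α)) (v + t * Complex.I) * Complex.I‖ ≤
        C * Real.exp (2 * π * c) / (1 + v ^ 2) ^ 2 := by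
    intro t ht
    rw [norm_mul, Complex.norm_I, mul_one, le_div_iff₀ (by positivity)]
    have h2 := h1 (v + t * Complex.I)
    have h3 : v ^ 2 ≤ ‖(v + t * Complex.I : ℂ)‖ ^ 2 := by
      rw [Complex.sq_norm, Complex.normSq_apply]
      simp
      nlinarith [sq_nonneg t]
    have h4 : |((v + t * Complex.I : ℂ)).im| ≤ 1 := by
      simp
      rw [abs_le]
      constructor <;> linarith [ht.1, ht.2]
    calc ‖FL (fun α => f α * (2 * π * Complex.I * α)) (v + t * Complex.I)‖ * (1 + v ^ 2) ^ 2 ≤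
          ‖FL (fun α => f α * (2 * π * Complex.I * α)) (v + t * Complex.I)‖ *
            (1 + ‖(v + t * Complex.I : ℂ)‖ ^ 2) ^ 2 := by gcongr
      _ ≤ C * Real.exp (2 * π * c * |((v + t * Complex.I : ℂ)).im|) := h2
      _ ≤ C * Real.exp (2 * π * c) := by
          refine mul_le_mul_of_nonneg_left (Real.exp_le_exp.2 ?_) hC
          exact mul_le_of_le_one_right (by positivity) h4
  have h5 := norm_image_sub_le_of_norm_deriv_le_segment' hd hb y
    (Set.right_mem_Icc.2 (by linarith))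
  have e2 : (v + ((-y : ℝ) : ℂ) * Complex.I : ℂ) = v + -(y * Complex.I) := by
    push_cast
    ring
  rw [e2] at h5
  refine h5.trans (le_of_eq ?_)
  ring

/-- the first part of the jump tends to zero -/
lemma lim1 (h : HP κ B H) (hf : CS c f) (hc : 0 ≤ c) (x : ℝ) {y : ℕ → ℝ} (hy0 : ∀ n, 0 < y n)
    (hy1 : ∀ n, y n ≤ 1) (hy : Tendsto y atTop (𝓝 0)) :
    (∀ n, Integrable fun v : ℝ => (H (x - v) : ℂ) * ((v : ℂ) * (FL f (v + y n * Complex.I) -
      FL f (v + -(y n * Complex.I))) / ((v ^ 2 + y n ^ 2 : ℝ) : ℂ))) ∧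
    Tendsto (fun n => ∫ v : ℝ, (H (x - v) : ℂ) * ((v : ℂ) * (FL f (v + y n * Complex.I) -
      FL f (v + -(y n * Complex.I))) / ((v ^ 2 + y n ^ 2 : ℝ) : ℂ))) atTop (𝓝 0) := by
  obtain ⟨C, hC, h1⟩ := FL_vert hf hc
  have hB := h.B0
  have hmH : Measurable fun v : ℝ => (H (x - v) : ℂ) :=
    Complex.measurable_ofReal.comp (h.meas.comp (by fun_prop))
  have hFc := FL_cont hf hc
  have hm : ∀ n, AEStronglyMeasurable (fun v : ℝ => (H (x - v) : ℂ) *
      ((v : ℂ) * (FL f (v + y n * Complex.I) -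
      FL f (v + -(y n * Complex.I))) / ((v ^ 2 + y n ^ 2 : ℝ) : ℂ))) volume := by
    intro n
    refine hmH.aestronglyMeasurable.mul (Continuous.aestronglyMeasurable ?_)
    refine Continuous.div ?_ (by fun_prop) fun v => ?_
    · refine Complex.continuous_ofReal.mul ((hFc.comp (by fun_prop)).sub (hFc.comp (by fun_prop)))
    · rw [Ne, Complex.ofReal_eq_zero]
      have := hy0 n
      positivity
  have hbd : ∀ n, ∀ v : ℝ, ‖(H (x - v) : ℂ) * ((v : ℂ) * (FL f (v + y n * Complex.I) -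
      FL f (v + -(y n * Complex.I))) / ((v ^ 2 + y n ^ 2 : ℝ) : ℂ))‖ ≤
      B * (2 * (1 + x ^ 2)) * C * (1 + v ^ 2)⁻¹ := by
    intro n v
    have hyn := hy0 n
    have h2 := h1 v (y n) hyn (hy1 n)
    have h3 : 0 < v ^ 2 + y n ^ 2 := by positivity
    rw [norm_mul, norm_div, norm_mul, Complex.norm_real, Complex.norm_real, Complex.norm_real,
      Real.norm_eq_abs, Real.norm_eq_abs, Real.norm_of_nonneg h3.le]
    have h4 : |H (x - v)| ≤ B * (2 * (1 + x ^ 2) * (1 + v ^ 2)) := by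
      refine (h.bound _).trans (mul_le_mul_of_nonneg_left ?_ hB)
      nlinarith [sq_nonneg (x + v), sq_nonneg (x * v)]
    have h5 : |v| * ‖FL f (v + y n * Complex.I) - FL f (v + -(y n * Complex.I))‖ /
        (v ^ 2 + y n ^ 2) ≤ C / (1 + v ^ 2) ^ 2 := by
      rw [div_le_iff₀ h3]
      have h6 : |v| * (2 * y n) ≤ v ^ 2 + y n ^ 2 := by
        rw [← sq_abs v]
        nlinarith [sq_nonneg (|v| - y n)]
      calc |v| * ‖FL f (v + y n * Complex.I) - FL f (v + -(y n * Complex.I))‖ ≤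
            |v| * (C * (2 * y n) / (1 + v ^ 2) ^ 2) := by gcongr
        _ = C / (1 + v ^ 2) ^ 2 * (|v| * (2 * y n)) := by ring
        _ ≤ _ := by gcongr
    calc |H (x - v)| * (|v| * ‖FL f (v + y n * Complex.I) - FL f (v + -(y n * Complex.I))‖ /
        (v ^ 2 + y n ^ 2)) ≤ (B * (2 * (1 + x ^ 2) * (1 + v ^ 2))) * (C / (1 + v ^ 2) ^ 2) := by
          gcongr
      _ = B * (2 * (1 + x ^ 2)) * C * (1 + v ^ 2)⁻¹ := by
          have : 0 < 1 + v ^ 2 := by positivity
          field_simp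
  have hbi : Integrable fun v : ℝ => B * (2 * (1 + x ^ 2)) * C * (1 + v ^ 2)⁻¹ :=
    integrable_inv_one_add_sq.const_mul _
  refine ⟨fun n => hbi.mono' (hm n) (Eventually.of_forall (hbd n)), ?_⟩
  have h0 : (0 : ℂ) = ∫ _ : ℝ, (0 : ℂ) := by simp
  rw [h0]
  refine tendsto_integral_of_dominated_convergence _ hm hbi
    (fun n => Eventually.of_forall (hbd n)) (Eventually.of_forall fun v => ?_)
  by_cases hv : v = 0
  · subst hv
    simp
  have e1 : Tendsto (fun n => FL f (v + y n * Complex.I)) atTop (𝓝 (FL f (v + (0 : ℝ) * Complex.I))) := by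
    refine (hFc.tendsto _).comp ?_
    exact tendsto_const_nhds.add (((Complex.continuous_ofReal.tendsto 0).comp hy).mul_const _)
  have e2 : Tendsto (fun n => FL f (v + -(y n * Complex.I))) atTop
      (𝓝 (FL f (v + -((0 : ℝ) * Complex.I)))) := by
    refine (hFc.tendsto _).comp ?_
    exact tendsto_const_nhds.add (((Complex.continuous_ofReal.tendsto 0).comp hy).mul_const _).neg
  have e3 : Tendsto (fun n => ((v ^ 2 + y n ^ 2 : ℝ) : ℂ)) atTop (𝓝 ((v ^ 2 + 0 ^ 2 : ℝ) : ℂ)) :=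
    (Complex.continuous_ofReal.tendsto _).comp (tendsto_const_nhds.add (hy.pow 2))
  have e4 := (((e1.sub e2).const_mul (v : ℂ)).div e3 (by
    rw [Ne, Complex.ofReal_eq_zero]
    positivity)).const_mul (H (x - v) : ℂ)
  refine e4.congr' (Eventually.of_forall fun n => rfl) |>.trans (le_of_eq ?_)
  congr 1
  simp

lemma alg1 (y t2 Hh X : ℂ) (hy : y ≠ 0) (ht : t2 ≠ 0) :
    y * (Hh * (-Complex.I * y * X / (y ^ 2 * t2))) = Hh * (-Complex.I * X * t2⁻¹) := by
  field_simp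

/-- the second part of the jump -/
lemma lim2 (h : HP κ B H) (hf : CS c f) (hc : 0 ≤ c) {x : ℝ} (hx : ContinuousAt H x) {y : ℕ → ℝ}
    (hy0 : ∀ n, 0 < y n) (hy1 : ∀ n, y n ≤ 1) (hy : Tendsto y atTop (𝓝 0)) :
    Tendsto (fun n => ∫ v : ℝ, (H (x - v) : ℂ) * (-Complex.I * y n *
      (FL f (v + y n * Complex.I) + FL f (v + -(y n * Complex.I))) /
        ((v ^ 2 + y n ^ 2 : ℝ) : ℂ))) atTop
      (𝓝 (-2 * π * Complex.I * FL f 0 * H x)) := by
  obtain ⟨C, hC, h1⟩ := FL_decay hf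
  have hB := h.B0
  have hFc := FL_cont hf hc
  -- substitution
  have hsub : ∀ n, ∫ v : ℝ, (H (x - v) : ℂ) * (-Complex.I * y n *
      (FL f (v + y n * Complex.I) + FL f (v + -(y n * Complex.I))) /
        ((v ^ 2 + y n ^ 2 : ℝ) : ℂ)) =
      ∫ t : ℝ, (H (x - y n * t) : ℂ) * (-Complex.I *
        (FL f (((y n * t : ℝ) : ℂ) + y n * Complex.I) +
          FL f (((y n * t : ℝ) : ℂ) + -(y n * Complex.I))) *
          (((1 + t ^ 2)⁻¹ : ℝ) : ℂ)) := by
    intro n
    have hyn := hy0 n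
    have e := Measure.integral_comp_mul_left (fun v : ℝ => (H (x - v) : ℂ) * (-Complex.I * y n *
      (FL f (v + y n * Complex.I) + FL f (v + -(y n * Complex.I))) /
        ((v ^ 2 + y n ^ 2 : ℝ) : ℂ))) (y n)
    rw [abs_of_pos (inv_pos.2 hyn)] at e
    have e2 : ∫ v : ℝ, (H (x - v) : ℂ) * (-Complex.I * y n *
      (FL f (v + y n * Complex.I) + FL f (v + -(y n * Complex.I))) /
        ((v ^ 2 + y n ^ 2 : ℝ) : ℂ)) = y n • ∫ t : ℝ, (H (x - y n * t) : ℂ) * (-Complex.I * y n *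
      (FL f (((y n * t : ℝ) : ℂ) + y n * Complex.I) +
        FL f (((y n * t : ℝ) : ℂ) + -(y n * Complex.I))) /
        (((y n * t) ^ 2 + y n ^ 2 : ℝ) : ℂ)) := by
      rw [e, smul_smul, mul_inv_cancel₀ hyn.ne', one_smul]
    rw [e2, ← integral_smul]
    refine integral_congr_ae (Eventually.of_forall fun t => ?_)
    show y n • ((H (x - y n * t) : ℂ) * (-Complex.I * y n *
      (FL f (((y n * t : ℝ) : ℂ) + y n * Complex.I) +
        FL f (((y n * t : ℝ) : ℂ) + -(y n * Complex.I))) /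
        (((y n * t) ^ 2 + y n ^ 2 : ℝ) : ℂ))) = (H (x - y n * t) : ℂ) * (-Complex.I *
        (FL f (((y n * t : ℝ) : ℂ) + y n * Complex.I) +
          FL f (((y n * t : ℝ) : ℂ) + -(y n * Complex.I))) *
          (((1 + t ^ 2)⁻¹ : ℝ) : ℂ))
    generalize FL f (((y n * t : ℝ) : ℂ) + y n * Complex.I) +
        FL f (((y n * t : ℝ) : ℂ) + -(y n * Complex.I)) = X
    have hne : (y n : ℂ) ≠ 0 := by rw [Ne, Complex.ofReal_eq_zero]; exact hyn.ne'
    have hne2 : (1 + (t : ℂ) ^ 2) ≠ 0 := by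
      have : (1 + t ^ 2 : ℝ) ≠ 0 := by positivity
      exact_mod_cast this
    have hne3 : ((y n : ℂ) * t) ^ 2 + (y n : ℂ) ^ 2 ≠ 0 := by
      have : ((y n : ℂ) * t) ^ 2 + (y n : ℂ) ^ 2 = (y n : ℂ) ^ 2 * (1 + (t : ℂ) ^ 2) := by ring
      rw [this]
      exact mul_ne_zero (pow_ne_zero 2 hne) hne2
    have hne4 : (((y n * t) ^ 2 + y n ^ 2 : ℝ) : ℂ) = (y n : ℂ) ^ 2 * (1 + (t : ℂ) ^ 2) := by
      push_cast
      ring
    have hne5 : (((1 + t ^ 2)⁻¹ : ℝ) : ℂ) = (1 + (t : ℂ) ^ 2)⁻¹ := by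
      push_cast
      rfl
    rw [Complex.real_smul, hne4, hne5]
    exact alg1 _ _ _ _ hne hne2
  simp_rw [hsub]
  have hmH : ∀ n, Measurable fun t : ℝ => (H (x - y n * t) : ℂ) := fun n =>
    Complex.measurable_ofReal.comp (h.meas.comp (by fun_prop))
  have hm : ∀ n, AEStronglyMeasurable (fun t : ℝ => (H (x - y n * t) : ℂ) * (-Complex.I *
        (FL f (((y n * t : ℝ) : ℂ) + y n * Complex.I) +
          FL f (((y n * t : ℝ) : ℂ) + -(y n * Complex.I))) *
          (((1 + t ^ 2)⁻¹ : ℝ) : ℂ))) volume := by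
    intro n
    refine (hmH n).aestronglyMeasurable.mul (Continuous.aestronglyMeasurable ?_)
    refine Continuous.mul (continuous_const.mul ((hFc.comp (by fun_prop)).add
      (hFc.comp (by fun_prop)))) (Complex.continuous_ofReal.comp ?_)
    exact Continuous.inv₀ (by fun_prop) fun t => by positivity
  have hF : ∀ n, ∀ t : ℝ, ∀ w : ℂ, w.re = y n * t → |w.im| ≤ 1 →
      ‖FL f w‖ ≤ C * Real.exp (2 * π * c) / (1 + (y n * t) ^ 2) := by
    intro n t w hre him
    rw [le_div_iff₀ (by positivity)]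
    have h2 := h1 w
    have h3 : (y n * t) ^ 2 ≤ ‖w‖ ^ 2 := by
      rw [Complex.sq_norm, Complex.normSq_apply, hre]
      nlinarith [mul_self_nonneg w.im]
    have h4 : 1 + (y n * t) ^ 2 ≤ (1 + ‖w‖ ^ 2) ^ 2 := by nlinarith [sq_nonneg ‖w‖]
    calc ‖FL f w‖ * (1 + (y n * t) ^ 2) ≤ ‖FL f w‖ * (1 + ‖w‖ ^ 2) ^ 2 := by gcongr
      _ ≤ C * Real.exp (2 * π * c * |w.im|) := h2
      _ ≤ C * Real.exp (2 * π * c) := by
          refine mul_le_mul_of_nonneg_left (Real.exp_le_exp.2 ?_) hC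
          exact mul_le_of_le_one_right (by positivity) him
  have hbd : ∀ n, ∀ t : ℝ, ‖(H (x - y n * t) : ℂ) * (-Complex.I *
        (FL f (((y n * t : ℝ) : ℂ) + y n * Complex.I) +
          FL f (((y n * t : ℝ) : ℂ) + -(y n * Complex.I))) *
          (((1 + t ^ 2)⁻¹ : ℝ) : ℂ))‖ ≤
      B * (2 * (1 + x ^ 2)) * (2 * (C * Real.exp (2 * π * c))) * (1 + t ^ 2)⁻¹ := by
    intro n t
    have hyn := hy0 n
    rw [norm_mul, norm_mul, norm_mul, norm_neg, Complex.norm_I, one_mul, Complex.norm_real,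
      Complex.norm_real, Real.norm_eq_abs, Real.norm_of_nonneg (by positivity : (0 : ℝ) ≤ (1 + t ^ 2)⁻¹)]
    have h4 : |H (x - y n * t)| ≤ B * (2 * (1 + x ^ 2) * (1 + (y n * t) ^ 2)) := by
      refine (h.bound _).trans (mul_le_mul_of_nonneg_left ?_ hB)
      nlinarith [sq_nonneg (x + y n * t), sq_nonneg (x * (y n * t))]
    have h5 : |y n| ≤ 1 := by rw [abs_of_pos hyn]; exact hy1 n
    have a1 := hF n t (((y n * t : ℝ) : ℂ) + y n * Complex.I) (by simp) (by simpa using h5)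
    have a2 := hF n t (((y n * t : ℝ) : ℂ) + -(y n * Complex.I)) (by simp) (by simpa using h5)
    have a3 := (norm_add_le (FL f (((y n * t : ℝ) : ℂ) + y n * Complex.I))
      (FL f (((y n * t : ℝ) : ℂ) + -(y n * Complex.I)))).trans (add_le_add a1 a2)
    have h6 : 0 < 1 + (y n * t) ^ 2 := by positivity
    calc |H (x - y n * t)| * (‖FL f (((y n * t : ℝ) : ℂ) + y n * Complex.I) +
          FL f (((y n * t : ℝ) : ℂ) + -(y n * Complex.I))‖ * (1 + t ^ 2)⁻¹) ≤
          (B * (2 * (1 + x ^ 2) * (1 + (y n * t) ^ 2))) *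
          ((C * Real.exp (2 * π * c) / (1 + (y n * t) ^ 2) +
            C * Real.exp (2 * π * c) / (1 + (y n * t) ^ 2)) * (1 + t ^ 2)⁻¹) := by gcongr
      _ = _ := by
          field_simp
          ring
  have hbi : Integrable fun t : ℝ =>
      B * (2 * (1 + x ^ 2)) * (2 * (C * Real.exp (2 * π * c))) * (1 + t ^ 2)⁻¹ :=
    integrable_inv_one_add_sq.const_mul _
  have hval : (-2 * π * Complex.I * FL f 0 * H x : ℂ) =
      ∫ t : ℝ, (H x : ℂ) * (-Complex.I * (FL f 0 + FL f 0) * (((1 + t ^ 2)⁻¹ : ℝ) : ℂ)) := by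
    have e1 : ∫ t : ℝ, (H x : ℂ) * (-Complex.I * (FL f 0 + FL f 0) * (((1 + t ^ 2)⁻¹ : ℝ) : ℂ)) =
        (H x : ℂ) * (-Complex.I * (FL f 0 + FL f 0)) * ∫ t : ℝ, (((1 + t ^ 2)⁻¹ : ℝ) : ℂ) := by
      rw [← integral_const_mul]
      refine integral_congr_ae (Eventually.of_forall fun t => ?_)
      show (H x : ℂ) * (-Complex.I * (FL f 0 + FL f 0) * (((1 + t ^ 2)⁻¹ : ℝ) : ℂ)) =
        (H x : ℂ) * (-Complex.I * (FL f 0 + FL f 0)) * (((1 + t ^ 2)⁻¹ : ℝ) : ℂ)
      ring
    have e2 : ∫ t : ℝ, (((1 + t ^ 2)⁻¹ : ℝ) : ℂ) = ((π : ℝ) : ℂ) := by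
      rw [← integral_univ_inv_one_add_sq]
      exact integral_ofReal
    rw [e1, e2]
    ring
  rw [hval]
  refine tendsto_integral_of_dominated_convergence _ hm hbi
    (fun n => Eventually.of_forall (hbd n)) (Eventually.of_forall fun t => ?_)
  have e0 : Tendsto (fun n => y n * t) atTop (𝓝 0) := by
    have := hy.mul_const t
    rwa [zero_mul] at this
  have e1 : Tendsto (fun n => (H (x - y n * t) : ℂ)) atTop (𝓝 (H x : ℂ)) := by
    refine (Complex.continuous_ofReal.tendsto _).comp (hx.tendsto.comp ?_)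
    have := (tendsto_const_nhds (x := x)).sub e0
    rwa [sub_zero] at this
  have e2 : Tendsto (fun n => (((y n * t : ℝ) : ℂ) + y n * Complex.I)) atTop (𝓝 0) := by
    have := ((Complex.continuous_ofReal.tendsto 0).comp e0).add
      (((Complex.continuous_ofReal.tendsto 0).comp hy).mul_const Complex.I)
    simpa using this
  have e3 : Tendsto (fun n => (((y n * t : ℝ) : ℂ) + -(y n * Complex.I))) atTop (𝓝 0) := by
    have := ((Complex.continuous_ofReal.tendsto 0).comp e0).add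
      (((Complex.continuous_ofReal.tendsto 0).comp hy).mul_const Complex.I).neg
    simpa using this
  exact e1.mul ((((hFc.tendsto 0).comp e2).add ((hFc.tendsto 0).comp e3)).const_mul _ |>.mul_const _)

/-- the function vanishes at its points of continuity if its transform vanishes -/
lemma recover (h : HP κ B H) (hf : CS c f) (hc : 0 ≤ c) (hf0 : FL f 0 ≠ 0)
    (hz : ∀ z : ℂ, z.im ≠ 0 → CC f H z = 0) {x : ℝ} (hx : ContinuousAt H x) : H x = 0 := by
  set y : ℕ → ℝ := fun n => 1 / ((n : ℝ) + 1) with hy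
  have hy0 : ∀ n, 0 < y n := fun n => by simp only [hy]; positivity
  have hy1 : ∀ n, y n ≤ 1 := fun n => by
    simp only [hy]
    rw [div_le_one (by positivity)]
    have : (0 : ℝ) ≤ n := Nat.cast_nonneg n
    linarith
  have hyl : Tendsto y atTop (𝓝 0) := tendsto_one_div_add_atTop_nhds_zero_nat
  obtain ⟨i1, l1⟩ := lim1 h hf hc x hy0 hy1 hyl
  have l2 := lim2 h hf hc hx hy0 hy1 hyl
  have key : ∀ n, (∫ v : ℝ, (H (x - v) : ℂ) * ((v : ℂ) * (FL f (v + y n * Complex.I) -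
      FL f (v + -(y n * Complex.I))) / ((v ^ 2 + y n ^ 2 : ℝ) : ℂ))) +
      ∫ v : ℝ, (H (x - v) : ℂ) * (-Complex.I * y n *
      (FL f (v + y n * Complex.I) + FL f (v + -(y n * Complex.I))) /
        ((v ^ 2 + y n ^ 2 : ℝ) : ℂ)) = 0 := by
    intro n
    have a1 : (y n * Complex.I : ℂ).im ≠ 0 := by simp; exact (hy0 n).ne'
    have a2 : (-(y n * Complex.I) : ℂ).im ≠ 0 := by simp; exact (hy0 n).ne'
    have j1 := CC_sub_int h hf hc a1 x
    have j2 := CC_sub_int h hf hc a2 x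
    have e1 := CC_sub (f := f) (H := H) (y n * Complex.I) x
    have e2 := CC_sub (f := f) (H := H) (-(y n * Complex.I)) x
    rw [hz _ (by simpa using (hy0 n).ne')] at e1
    rw [hz _ (by simpa using (hy0 n).ne')] at e2
    have e3 : ∀ v : ℝ, (H (x - v) : ℂ) * G f (v + y n * Complex.I) -
        (H (x - v) : ℂ) * G f (v + -(y n * Complex.I)) =
        (H (x - v) : ℂ) * ((v : ℂ) * (FL f (v + y n * Complex.I) -
          FL f (v + -(y n * Complex.I))) / ((v ^ 2 + y n ^ 2 : ℝ) : ℂ)) +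
        (H (x - v) : ℂ) * (-Complex.I * y n *
          (FL f (v + y n * Complex.I) + FL f (v + -(y n * Complex.I))) /
          ((v ^ 2 + y n ^ 2 : ℝ) : ℂ)) := by
      intro v
      rw [← mul_sub, G_diff v (y n) (hy0 n), mul_add]
    have i2 : Integrable fun v : ℝ => (H (x - v) : ℂ) * (-Complex.I * y n *
          (FL f (v + y n * Complex.I) + FL f (v + -(y n * Complex.I))) /
          ((v ^ 2 + y n ^ 2 : ℝ) : ℂ)) := by
      refine ((j1.sub j2).sub (i1 n)).congr (Eventually.of_forall fun v => ?_)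
      show (H (x - v) : ℂ) * G f (v + y n * Complex.I) -
        (H (x - v) : ℂ) * G f (v + -(y n * Complex.I)) - _ = _
      rw [e3 v]
      ring
    rw [← integral_add (i1 n) i2]
    have e4 : ∫ v : ℝ, ((H (x - v) : ℂ) * G f (v + y n * Complex.I) -
        (H (x - v) : ℂ) * G f (v + -(y n * Complex.I))) = 0 := by
      rw [integral_sub j1 j2, ← e1, ← e2, sub_zero]
    rw [← e4]
    exact integral_congr_ae (Eventually.of_forall fun v => (e3 v).symm)
  have l3 := l1.add l2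
  have l4 := tendsto_nhds_unique l3 (by
    have : (fun n => (∫ v : ℝ, (H (x - v) : ℂ) * ((v : ℂ) * (FL f (v + y n * Complex.I) -
      FL f (v + -(y n * Complex.I))) / ((v ^ 2 + y n ^ 2 : ℝ) : ℂ))) +
      ∫ v : ℝ, (H (x - v) : ℂ) * (-Complex.I * y n *
      (FL f (v + y n * Complex.I) + FL f (v + -(y n * Complex.I))) /
        ((v ^ 2 + y n ^ 2 : ℝ) : ℂ))) = fun _ => (0 : ℂ) := funext key
    rw [this]
    exact tendsto_const_nhds)
  rw [zero_add] at l4
  have h5 : (-2 * π * Complex.I * FL f 0 : ℂ) ≠ 0 := by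
    refine mul_ne_zero (mul_ne_zero (mul_ne_zero (by norm_num) ?_) Complex.I_ne_zero) hf0
    exact_mod_cast Real.pi_ne_zero
  have h6 := (mul_eq_zero.1 l4).resolve_left h5
  exact_mod_cast h6

end Pool.Agent.R346.BG
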