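import Mathlib

/-! The series condition of Beurling's gap theorem. -/

open Filter Topology

namespace Pool.Agent.R346.BG

lemma series {p q : ℕ → ℝ} (h0 : ∀ n, 0 < p n) (h1 : ∀ n, p n < q n) (h2 : ∀ n, q n ≤ p (n + 1))
    (hs : ¬ Summable fun n => ((q n - p n) / q n) ^ 2) {K : ℝ} (hK : 0 ≤ K) (M : ℝ) :
    ∃ N : ℕ, M < ∑ n ∈ Finset.range N, (max (q n - p n - K) 0) ^ 2 / (q n) ^ 2 := by
  by_contra hcon
  push Not at hcon
  refine hs ?_
  have hq : ∀ n, 0 < q n := fun n => (h0 n).trans (h1 n)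
  have htel : ∀ N : ℕ, ∑ n ∈ Finset.range N, (1 / p n - 1 / q n) ≤ 1 / p 0 - 1 / p N := by
    intro N
    induction N with
    | zero => simp
    | succ N ih =>
      rw [Finset.sum_range_succ]
      have : 1 / p (N + 1) ≤ 1 / q N := one_div_le_one_div_of_le (hq N) (h2 N)
      linarith
  have hterm : ∀ n, ((q n - p n) / q n) ^ 2 ≤
      4 * ((max (q n - p n - K) 0) ^ 2 / (q n) ^ 2) + 2 * K * (1 / p n - 1 / q n) := by
    intro n
    have hqn := hq n
    have hpn := h0 n
    have hl : 0 < q n - p n := sub_pos.2 (h1 n)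
    have e : 1 / p n - 1 / q n = (q n - p n) / (p n * q n) := by
      field_simp
    have e0 : 0 ≤ 1 / p n - 1 / q n := by rw [e]; positivity
    rw [div_pow]
    by_cases hc : 2 * K ≤ q n - p n
    · have h3 : (q n - p n) ^ 2 ≤ 4 * (max (q n - p n - K) 0) ^ 2 := by
        have h4 : q n - p n ≤ 2 * max (q n - p n - K) 0 := by
          have := le_max_left (q n - p n - K) 0
          linarith
        have := pow_le_pow_left₀ hl.le h4 2
        linarith
      have h5 : (q n - p n) ^ 2 / q n ^ 2 ≤ 4 * (max (q n - p n - K) 0) ^ 2 / q n ^ 2 := by gcongr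
      have h6 : 0 ≤ 2 * K * (1 / p n - 1 / q n) := by positivity
      rw [mul_div_assoc] at h5
      linarith
    · push Not at hc
      have h3 : (q n - p n) ^ 2 / q n ^ 2 ≤ 2 * K * (1 / p n - 1 / q n) := by
        rw [e, mul_div_assoc', div_le_div_iff₀ (by positivity) (by positivity)]
        have a1 : (q n - p n) ^ 2 ≤ 2 * K * (q n - p n) := by nlinarith
        have a2 : p n * q n ≤ q n ^ 2 := by nlinarith [h1 n]
        calc (q n - p n) ^ 2 * (p n * q n) ≤ (2 * K * (q n - p n)) * q n ^ 2 := by gcongr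
          _ = _ := by ring
      have h6 : 0 ≤ 4 * ((max (q n - p n - K) 0) ^ 2 / (q n) ^ 2) := by positivity
      linarith
  refine summable_of_sum_range_le (c := 4 * M + 2 * K * (1 / p 0)) (fun n => sq_nonneg _)
    fun N => ?_
  calc ∑ n ∈ Finset.range N, ((q n - p n) / q n) ^ 2 ≤
        ∑ n ∈ Finset.range N, (4 * ((max (q n - p n - K) 0) ^ 2 / (q n) ^ 2) +
          2 * K * (1 / p n - 1 / q n)) := Finset.sum_le_sum fun n _ => hterm n
    _ = 4 * ∑ n ∈ Finset.range N, ((max (q n - p n - K) 0) ^ 2 / (q n) ^ 2) +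
          2 * K * ∑ n ∈ Finset.range N, (1 / p n - 1 / q n) := by
        rw [Finset.sum_add_distrib, Finset.mul_sum, Finset.mul_sum]
    _ ≤ 4 * M + 2 * K * (1 / p 0) := by
        have b1 := hcon N
        have b2 := htel N
        have b3 : 0 < 1 / p N := by have := h0 N; positivity
        have b4 : ∑ n ∈ Finset.range N, (1 / p n - 1 / q n) ≤ 1 / p 0 := by linarith
        have b5 := mul_le_mul_of_nonneg_left b4 (by positivity : (0 : ℝ) ≤ 2 * K)
        linarith

end Pool.Agent.R346.BG
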