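import Pool.Agent.R346.BG.Half
import Pool.Agent.R346.BG.Rec
import Pool.Agent.R346.BG.Ser

/-! Beurling's gap theorem for even functions of quadratic growth. -/

open MeasureTheory Filter Topology Real
open scoped ContDiff

namespace Pool.Agent.R346.BG

open Pool.Agent.Y744 (TK ct)

variable {c κ B : ℝ} {f : ℝ → ℂ} {H : ℝ → ℝ}

lemma FL_even (hfe : ∀ α, f (-α) = f α) (w : ℂ) : FL f (-w) = FL f w := by
  unfold FL
  rw [← integral_neg_eq_self (fun α : ℝ => f α * Complex.exp (2 * π * Complex.I * α * w)) volume]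
  refine integral_congr_ae (Eventually.of_forall fun α => ?_)
  show f α * Complex.exp (2 * π * Complex.I * α * -w) =
    f (-α) * Complex.exp (2 * π * Complex.I * ((-α : ℝ) : ℂ) * w)
  rw [hfe]
  congr 2
  push_cast
  ring

lemma CC_odd (h : HP κ B H) (hfe : ∀ α, f (-α) = f α) (z : ℂ) : CC f H (-z) = -CC f H z := by
  unfold CC
  rw [← integral_neg_eq_self (fun u : ℝ => (H u : ℂ) * G f (-z - u)) volume, ← integral_neg]
  refine integral_congr_ae (Eventually.of_forall fun u => ?_)
  show (H (-u) : ℂ) * G f (-z - ((-u : ℝ) : ℂ)) = -((H u : ℂ) * G f (z - u))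
  have e : (-z - ((-u : ℝ) : ℂ)) = -(z - u) := by
    push_cast
    ring
  rw [h.even, e]
  unfold G
  rw [FL_even hfe, div_neg, mul_neg]

lemma CC_diff_im (h : HP κ B H) (hf : CS c f) (hc : 0 ≤ c) {z : ℂ} (hz : z.im ≠ 0) :
    DifferentiableAt ℂ (CC f H) z := by
  have h1 : 0 < |z.im| := abs_pos.2 hz
  refine CC_diff h.toHB hf hc (d := min 1 (|z.im| / 2)) (by positivity) (min_le_left _ _) ?_
  refine (sep_im z).mono ?_
  have := min_le_right 1 (|z.im| / 2)
  linarith

lemma low_alg {a Y x P Q : ℝ} (ha : 0 < a) (hY : 0 < Y) (hx : 0 ≤ x) (hP : 0 ≤ P)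
    (hl : 8 < Q - P) :
    a * Y / (32 * π * ((x + 1) ^ 2 + Y ^ 2)) * ((Q - P - 8) ^ 2 / Q ^ 2) ≤
      a / 2 * ((Q - P) / 8 - 1) * (Y / ((x + (Q - (Q - P) / 4)) ^ 2 + Y ^ 2) *
        ((Q - (Q - P) / 4) - (P + (Q - P) / 4)) / π) := by
  have hQ : 1 ≤ Q := by linarith
  have hQ0 : 0 < Q := by linarith
  set β : ℝ := Q - (Q - P) / 4 with hβ
  set W : ℝ := (x + 1) ^ 2 + Y ^ 2 with hW
  have hW0 : 0 < W := by positivity
  have hβQ : β ≤ Q := by rw [hβ]; linarith
  have hβ0 : 0 ≤ β := by rw [hβ]; linarith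
  have h2 : (x + β) ^ 2 + Y ^ 2 ≤ Q ^ 2 * W := by
    rw [hW]
    have h3 : (x + β) ^ 2 ≤ (Q * (x + 1)) ^ 2 := by
      refine pow_le_pow_left₀ (by positivity) ?_ 2
      have : 0 ≤ (Q - 1) * x := mul_nonneg (by linarith) hx
      linarith
    have h4 : Y ^ 2 ≤ Q ^ 2 * Y ^ 2 := by
      refine le_mul_of_one_le_left (sq_nonneg _) ?_
      exact one_le_pow₀ hQ
    have h5 : (Q * (x + 1)) ^ 2 = Q ^ 2 * (x + 1) ^ 2 := by ring
    have h6 : Q ^ 2 * ((x + 1) ^ 2 + Y ^ 2) = Q ^ 2 * (x + 1) ^ 2 + Q ^ 2 * Y ^ 2 := by ring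
    linarith
  have h5 : 0 < (x + β) ^ 2 + Y ^ 2 := by positivity
  have hβα : β - (P + (Q - P) / 4) = (Q - P) / 2 := by rw [hβ]; ring
  rw [hβα]
  have h8 : 0 ≤ a / 16 * (Q - P - 8) := by
    have : 0 ≤ Q - P - 8 := by linarith
    positivity
  have h9 : 0 ≤ (Q - P - 8) / 2 := by linarith
  calc a * Y / (32 * π * W) * ((Q - P - 8) ^ 2 / Q ^ 2) =
        a / 16 * (Q - P - 8) * (Y / (Q ^ 2 * W) * ((Q - P - 8) / 2) / π) := by
        field_simp
        ring
    _ ≤ a / 16 * (Q - P - 8) * (Y / ((x + β) ^ 2 + Y ^ 2) * ((Q - P) / 2) / π) := by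
        refine mul_le_mul_of_nonneg_left ?_ h8
        refine div_le_div_of_nonneg_right ?_ Real.pi_pos.le
        refine mul_le_mul ?_ (by linarith) h9 (by positivity)
        exact div_le_div_of_nonneg_left hY.le h5 h2
    _ = a / 2 * ((Q - P) / 8 - 1) * (Y / ((x + β) ^ 2 + Y ^ 2) * ((Q - P) / 2) / π) := by
        ring

/-- the transform of a small function -/
lemma CC_small (hf : CS c f) : ∃ C, 0 ≤ C ∧ ∀ (H : ℝ → ℝ) (E : ℝ), 0 ≤ E →
    (∀ᵐ u, |H u| ≤ E) → ∀ z : ℂ, 1 ≤ |z.im| →
      ‖CC f H z‖ ≤ E * (C * Real.exp (2 * π * c * |z.im|)) := by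
  obtain ⟨C, hC, h1⟩ := FL_z' hf
  refine ⟨C * π, by positivity, fun H E hE hH z hz => ?_⟩
  have hi : Integrable fun u : ℝ => E * (C * Real.exp (2 * π * c * |z.im|)) *
      (1 + (u - z.re) ^ 2)⁻¹ :=
    (integrable_inv_one_add_sq.comp_sub_right z.re).const_mul _
  have hle : ∀ᵐ u, ‖(H u : ℂ) * G f (z - u)‖ ≤ E * (C * Real.exp (2 * π * c * |z.im|)) *
      (1 + (u - z.re) ^ 2)⁻¹ := by
    filter_upwards [hH] with u hu
    unfold G
    rw [norm_mul, Complex.norm_real, Real.norm_eq_abs, norm_div]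
    have h2 : 1 ≤ ‖z - u‖ := by
      have := Complex.abs_im_le_norm (z - u)
      have e : (z - (u : ℂ)).im = z.im := by simp
      rw [e] at this
      linarith
    have h3 : 1 ≤ 1 + (u - z.re) ^ 2 := by nlinarith [sq_nonneg (u - z.re)]
    have h4 : ‖FL f (z - u)‖ / ‖z - u‖ ≤ C * Real.exp (2 * π * c * |z.im|) *
        (1 + (u - z.re) ^ 2)⁻¹ := by
      calc ‖FL f (z - u)‖ / ‖z - u‖ ≤ ‖FL f (z - u)‖ := div_le_self (norm_nonneg _) h2
        _ ≤ C * Real.exp (2 * π * c * |z.im|) / (1 + (u - z.re) ^ 2) ^ 2 := h1 z u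
        _ ≤ C * Real.exp (2 * π * c * |z.im|) / (1 + (u - z.re) ^ 2) := by
            refine div_le_div_of_nonneg_left (by positivity) (by positivity) ?_
            exact le_self_pow₀ h3 two_ne_zero
        _ = _ := by rw [div_eq_mul_inv]
    calc |H u| * (‖FL f (z - u)‖ / ‖z - u‖) ≤ E * (C * Real.exp (2 * π * c * |z.im|) *
          (1 + (u - z.re) ^ 2)⁻¹) := mul_le_mul hu h4 (by positivity) hE
      _ = _ := by ring
  refine (norm_integral_le_of_norm_le hi hle).trans (le_of_eq ?_)
  rw [integral_const_mul, integral_sub_right_eq_self (fun u : ℝ => (1 + u ^ 2)⁻¹) z.re,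
    integral_univ_inv_one_add_sq]
  ring

/-- the trivial bound for the transform -/
lemma CC_direct (hf : CS c f) (hc : 0 ≤ c) (hB : 0 ≤ B) : ∃ M, 0 ≤ M ∧ ∀ H : ℝ → ℝ, HB B H →
    ∀ z : ℂ, Sep H 1 z → (Integrable fun u : ℝ => (H u : ℂ) * G f (z - u)) ∧
      ‖CC f H z‖ ≤ M * (1 + z.re ^ 2) * Real.exp (2 * π * c * |z.im|) := by
  obtain ⟨C, hC, h1⟩ := FL_z' hf
  refine ⟨B * 2 * C * π, by positivity, fun H h z hz => ?_⟩
  have hGb : ∀ᵐ u : ℝ, H u ≠ 0 → ‖G f (z - u)‖ ≤
      (C * Real.exp (2 * π * c * |z.im|)) / (1 + (u - z.re) ^ 2) ^ 2 := by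
    filter_upwards [hz] with u hu h0
    unfold G
    rw [norm_div]
    exact (div_le_self (norm_nonneg _) (hu h0)).trans (h1 z u)
  obtain ⟨h2, h3⟩ := h.est (G_meas hf hc z) (x := z.re) (by positivity) hGb
  refine ⟨h2, h3.trans (le_of_eq ?_)⟩
  ring

/-- the vanishing of the transform in the upper half plane above height one -/
lemma CC_zero (h : HP κ B H) (hf : CS c f) (hc : 0 ≤ c) {s0 : ℝ} (hs0 : c < s0)
    (hk : c + s0 ≤ κ) {C0 c0 : ℝ} (hC0 : 0 ≤ C0) (hc0 : 0 < c0) (hcc : 2 * π * c ≤ 4 * c0)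
    (P Q : ℕ → ℝ)
    (hP : ∀ n, 0 ≤ P n) (hord : ∀ m n, m < n → Q m ≤ P n)
    (hz : ∀ n, ∀ᵐ u, P n < u → u < Q n → |H u| ≤ C0 * Real.exp (-(c0 * (Q n - P n))))
    (hsum : ∀ M : ℝ, ∃ N : ℕ, M < ∑ n ∈ Finset.range N, (max (Q n - P n - 8) 0) ^ 2 / (Q n) ^ 2)
    {z : ℂ} (hz1 : 1 < z.im) : CC f H z = 0 := by
  have hB := h.B0
  obtain ⟨M0, hM0, hb0⟩ := CC_bound h hf hc (hc.trans hs0.le) hk
  obtain ⟨C3, hC3, hb3⟩ := CC_small hf
  obtain ⟨M2, hM2, hb2⟩ := CC_direct (B := B) hf hc hB
  set a : ℝ := min (2 * π * (s0 - c)) (4 * c0) with ha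
  have ha0 : 0 < a := by
    have : 0 < s0 - c := by linarith
    rw [ha]
    positivity
  have hale : a ≤ 2 * π * (s0 - c) := min_le_left _ _
  have hale2 : a ≤ 4 * c0 := min_le_right _ _
  set e1 : ℝ := Real.exp (2 * π * c + a) with he1
  set e4 : ℝ := Real.exp (2 * π * c * 2) with he4
  set K1 : ℝ := M2 * e1 + M0 + C0 * C3 * e1 with hK1
  have hK10 : 0 ≤ K1 := by positivity
  set M : ℝ := 4 * K1 * Real.exp (2 * a) + C0 * C3 * e4 with hM
  have hM0' : 0 ≤ M := by positivity
  have hMle : M0 ≤ M := by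
    have h1 : 1 ≤ Real.exp (2 * a) := Real.one_le_exp (by positivity)
    have h2 : M0 ≤ K1 := by
      have : 0 ≤ M2 * e1 := by positivity
      have : 0 ≤ C0 * C3 * e1 := by positivity
      linarith
    have h3 : K1 * 1 ≤ K1 * Real.exp (2 * a) := mul_le_mul_of_nonneg_left h1 hK10
    have h4 : 0 ≤ C0 * C3 * e4 := by positivity
    linarith
  have hb1 : ∀ z : ℂ, 1 ≤ |z.im| → ‖CC f H z‖ ≤ M0 * (1 + z.re ^ 2) *
      Real.exp (-(a * |z.im|)) := by
    intro z hz
    have h1 : Sep H 1 z := (sep_im z).mono hz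
    have h2 := hb0 1 one_pos z h1
    rw [div_one] at h2
    refine h2.trans ?_
    have h3 : Real.exp (-(2 * π * (s0 - c) * |z.im|)) ≤ Real.exp (-(a * |z.im|)) := by
      refine Real.exp_le_exp.2 (neg_le_neg ?_)
      exact mul_le_mul_of_nonneg_right hale (abs_nonneg _)
    gcongr
  have hb : ∀ z : ℂ, 1 ≤ z.im → ‖CC f H z‖ ≤ M * (1 + z.re ^ 2) * Real.exp (-(a * z.im)) := by
    intro z hz
    have h1 := hb1 z (by rwa [abs_of_nonneg (by linarith)])
    rw [abs_of_nonneg (by linarith : (0 : ℝ) ≤ z.im)] at h1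
    refine h1.trans ?_
    gcongr
  by_contra hne
  have hnorm : 0 < ‖CC f H z‖ := norm_pos_iff.2 hne
  set Y : ℝ := z.im - 1 with hY
  have hY0 : 0 < Y := by linarith
  set W : ℝ := (|z.re| + 1) ^ 2 + Y ^ 2 with hW
  have hW0 : 0 < W := by positivity
  set cz : ℝ := a * Y / (32 * π * W) with hcz
  have hcz0 : 0 < cz := by positivity
  set R : ℝ := M * Real.exp (2 * a) * ‖z + Complex.I‖ ^ 2 / ‖CC f H z‖ with hR
  have hR0 : 0 ≤ R := by positivity
  obtain ⟨N, hN⟩ := hsum (R / cz)
  set S : Finset ℕ := (Finset.range N).filter fun n => 8 < Q n - P n with hS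
  have hSl : ∀ n ∈ S, 8 < Q n - P n := fun n hn => (Finset.mem_filter.1 hn).2
  set α : ℕ → ℝ := fun n => P n + (Q n - P n) / 4 with hα
  set β : ℕ → ℝ := fun n => Q n - (Q n - P n) / 4 with hβ
  set δ : ℕ → ℝ := fun n => (Q n - P n) / 8 with hδ
  set τ : ℕ → ℝ := fun n => a / 2 * ((Q n - P n) / 8 - 1) with hτ
  have key := half (C := CC f H) ha0 hM0' (fun z hz => CC_diff_im h hf hc hz.ne') hb S α β δ τ
    (fun n hn => by have := hSl n hn; simp only [hα, hβ]; linarith)
    (fun n hn => by have := hSl n hn; simp only [hδ]; linarith)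
    (fun n hn => by
      have := hSl n hn
      simp only [hτ]
      have h2 : 0 ≤ (Q n - P n) / 8 - 1 := by linarith
      positivity)
    (fun m hm n hn hmn x hx hx' => by
      have h1 := hSl m hm
      have h2 := hSl n hn
      simp only [hα, hβ, hδ] at hx hx'
      rcases lt_or_gt_of_ne hmn with hl | hl
      · have := hord m n hl
        linarith [hx.2, hx'.1]
      · have := hord n m hl
        linarith [hx.1, hx'.2])
    (fun n hn w hw1 hw2 hx => by
      have hl := hSl n hn
      simp only [hα, hβ, hδ] at hx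
      set L : ℝ := Q n - P n with hL
      have hr : 0 < L / 8 - 1 := by linarith
      -- the decomposition
      set H1 : ℝ → ℝ := (Set.Ioo (P n) (Q n)).indicator H with hH1
      set H2 : ℝ → ℝ := (Set.Ioo (P n) (Q n))ᶜ.indicator H with hH2
      have hH12 : ∀ u, H u = H1 u + H2 u := fun u => by
        have := congrFun (Set.indicator_self_add_compl (Set.Ioo (P n) (Q n)) H) u
        exact this.symm
      have hB1 : HB B H1 := ⟨h.meas.indicator measurableSet_Ioo, fun y => by
        simp only [hH1]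
        by_cases hy : y ∈ Set.Ioo (P n) (Q n)
        · rw [Set.indicator_of_mem hy]
          exact h.bound y
        · rw [Set.indicator_of_notMem hy, abs_zero]
          positivity⟩
      have hB2 : HB B H2 := ⟨h.meas.indicator measurableSet_Ioo.compl, fun y => by
        simp only [hH2]
        by_cases hy : y ∈ (Set.Ioo (P n) (Q n))ᶜ
        · rw [Set.indicator_of_mem hy]
          exact h.bound y
        · rw [Set.indicator_of_notMem hy, abs_zero]
          positivity⟩
      set E : ℝ := C0 * Real.exp (-(c0 * L)) with hE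
      have hE0 : 0 ≤ E := by positivity
      have hH1E : ∀ᵐ u, |H1 u| ≤ E := by
        filter_upwards [hz n] with u hu
        simp only [hH1]
        by_cases hy : u ∈ Set.Ioo (P n) (Q n)
        · rw [Set.indicator_of_mem hy]
          exact hu hy.1 hy.2
        · rw [Set.indicator_of_notMem hy, abs_zero]
          exact hE0
      have hdec : ∀ z' : ℂ, 1 ≤ |z'.im| → CC f H z' = CC f H1 z' + CC f H2 z' := by
        intro z' hz'
        have i1 := (hb2 H1 hB1 z' ((sep_im z').mono hz')).1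
        have i2 := (hb2 H2 hB2 z' ((sep_im z').mono hz')).1
        unfold CC
        rw [← integral_add i1 i2]
        refine integral_congr_ae (Eventually.of_forall fun u => ?_)
        show (H u : ℂ) * G f (z' - u) = (H1 u : ℂ) * G f (z' - u) + (H2 u : ℂ) * G f (z' - u)
        rw [hH12 u]
        push_cast
        ring
      have hsep : ∀ z' : ℂ, ‖z' - w‖ ≤ L / 8 - 1 → Sep H2 1 z' := by
        intro z' hz'
        have h1 := (Complex.abs_re_le_norm (z' - w)).trans hz'
        rw [Complex.sub_re, abs_le] at h1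
        refine Eventually.of_forall fun u h0 => ?_
        have h2 : ¬ (P n < u ∧ u < Q n) := by
          intro h3
          refine h0 ?_
          show (Set.Ioo (P n) (Q n))ᶜ.indicator H u = 0
          have h4 : u ∈ Set.Ioo (P n) (Q n) := h3
          have h5 : u ∉ (Set.Ioo (P n) (Q n))ᶜ := fun h6 => h6 h4
          exact Set.indicator_of_notMem h5 H
        have h4 := Complex.abs_re_le_norm (z' - u)
        rw [Complex.sub_re, Complex.ofReal_re] at h4
        refine le_trans ?_ h4
        rw [le_abs]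
        by_cases h5 : P n < u
        · right
          have h6 : Q n ≤ u := not_lt.1 fun h6 => h2 ⟨h5, h6⟩
          linarith [hx.2, h1.2]
        · left
          linarith [hx.1, h1.1]
      have hPn := hP n
      have hfin : ∀ z' : ℂ, ‖z' - w‖ ≤ L / 8 - 1 → ‖CC f H2 z'‖ ≤ K1 * (1 + z'.re ^ 2) *
          Real.exp (-(a * |z'.im|)) := by
        intro z' hz'
        rcases le_or_gt |z'.im| 1 with him | him
        · have h2 := (hb2 H2 hB2 z' (hsep z' hz')).2
          have h3 : Real.exp (2 * π * c * |z'.im|) ≤ e1 * Real.exp (-(a * |z'.im|)) := by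
            rw [he1, ← Real.exp_add]
            refine Real.exp_le_exp.2 ?_
            have h4 : 2 * π * c * |z'.im| ≤ 2 * π * c * 1 :=
              mul_le_mul_of_nonneg_left him (by positivity)
            have h5 : a * |z'.im| ≤ a * 1 := mul_le_mul_of_nonneg_left him ha0.le
            linarith
          calc ‖CC f H2 z'‖ ≤ M2 * (1 + z'.re ^ 2) * Real.exp (2 * π * c * |z'.im|) := h2
            _ ≤ M2 * (1 + z'.re ^ 2) * (e1 * Real.exp (-(a * |z'.im|))) := by gcongr
            _ = (M2 * e1) * ((1 + z'.re ^ 2) * Real.exp (-(a * |z'.im|))) := by ring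
            _ ≤ K1 * ((1 + z'.re ^ 2) * Real.exp (-(a * |z'.im|))) := by
                refine mul_le_mul_of_nonneg_right ?_ (by positivity)
                have : 0 ≤ C0 * C3 * e1 := by positivity
                linarith
            _ = _ := by ring
        · have h1 := hb1 z' him.le
          have h3 := hb3 H1 E hE0 hH1E z' him.le
          have h4 : CC f H2 z' = CC f H z' - CC f H1 z' := by rw [hdec z' him.le]; ring
          have him2 : |z'.im| ≤ L / 8 + 1 := by
            have h5 := (Complex.abs_im_le_norm (z' - w)).trans hz'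
            rw [Complex.sub_im] at h5
            have h6 := abs_sub_abs_le_abs_sub z'.im w.im
            rw [abs_of_nonneg (by linarith : 0 ≤ w.im)] at h6
            linarith
          have h7 : E * (C3 * Real.exp (2 * π * c * |z'.im|)) ≤
              (C0 * C3 * e1) * ((1 + z'.re ^ 2) * Real.exp (-(a * |z'.im|))) := by
            have h8 : Real.exp (-(c0 * L)) * Real.exp (2 * π * c * |z'.im|) ≤
                e1 * Real.exp (-(a * |z'.im|)) := by
              rw [he1, ← Real.exp_add, ← Real.exp_add]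
              refine Real.exp_le_exp.2 ?_
              have h9 : (2 * π * c + a) * |z'.im| ≤ (2 * π * c + a) * (L / 8 + 1) :=
                mul_le_mul_of_nonneg_left him2 (by positivity)
              have h10 : (2 * π * c + a) * (L / 8) ≤ 8 * c0 * (L / 8) :=
                mul_le_mul_of_nonneg_right (by linarith) (by linarith)
              linarith
            have h11 : 1 ≤ 1 + z'.re ^ 2 := by nlinarith [sq_nonneg z'.re]
            calc E * (C3 * Real.exp (2 * π * c * |z'.im|)) = C0 * C3 *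
                  (Real.exp (-(c0 * L)) * Real.exp (2 * π * c * |z'.im|)) := by rw [hE]; ring
              _ ≤ C0 * C3 * (e1 * Real.exp (-(a * |z'.im|))) := by gcongr
              _ = (C0 * C3 * e1) * (1 * Real.exp (-(a * |z'.im|))) := by ring
              _ ≤ _ := by gcongr
          rw [h4]
          refine (norm_sub_le _ _).trans ((add_le_add h1 (h3.trans h7)).trans ?_)
          have h12 : 0 ≤ (1 + z'.re ^ 2) * Real.exp (-(a * |z'.im|)) := by positivity
          have h13 : 0 ≤ M2 * e1 := by positivity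
          have h14 : M0 * (1 + z'.re ^ 2) * Real.exp (-(a * |z'.im|)) +
              C0 * C3 * e1 * ((1 + z'.re ^ 2) * Real.exp (-(a * |z'.im|))) =
              (M0 + C0 * C3 * e1) * ((1 + z'.re ^ 2) * Real.exp (-(a * |z'.im|))) := by ring
          have h15 : K1 * (1 + z'.re ^ 2) * Real.exp (-(a * |z'.im|)) =
              K1 * ((1 + z'.re ^ 2) * Real.exp (-(a * |z'.im|))) := by ring
          rw [h14, h15]
          exact mul_le_mul_of_nonneg_right (by linarith) h12
      have h1 := disc_bound (C := CC f H2) (z0 := w) ha0.le hr (K := 4 * K1 * (1 + w.re ^ 2))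
        (fun z' hz' => CC_diff hB2 hf hc (d := 1 / 2) (by norm_num) (by norm_num)
          ((hsep z' hz').mono (by norm_num))) (by positivity) (by linarith)
        (fun z' hz' => by
          refine (hfin z' hz').trans ?_
          have h1 := (Complex.abs_re_le_norm (z' - w)).trans hz'
          rw [Complex.sub_re, abs_le] at h1
          have h3 : 0 ≤ z'.re := by linarith [h1.1, hx.1]
          have h4 : z'.re ≤ 2 * w.re := by linarith [h1.2, hx.1]
          have h5 : K1 * (1 + z'.re ^ 2) ≤ 4 * K1 * (1 + w.re ^ 2) := by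
            have : 1 + z'.re ^ 2 ≤ 4 * (1 + w.re ^ 2) := by nlinarith
            calc K1 * (1 + z'.re ^ 2) ≤ K1 * (4 * (1 + w.re ^ 2)) := by gcongr
              _ = _ := by ring
          gcongr)
      have him : |w.im| = w.im := abs_of_nonneg (by linarith)
      have h2 := hb3 H1 E hE0 hH1E w (by rw [him]; exact hw1)
      rw [hdec w (by rw [him]; exact hw1)]
      have h6 : Real.exp (a * w.im) ≤ Real.exp (2 * a) := Real.exp_le_exp.2 (by nlinarith)
      have h7 : (0 : ℝ) ≤ 4 * K1 * (1 + w.re ^ 2) := by positivity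
      have h8 : 4 * K1 * (1 + w.re ^ 2) * Real.exp (a * w.im) *
            Real.exp (-(a / 2 * (L / 8 - 1))) ≤
            4 * K1 * (1 + w.re ^ 2) * Real.exp (2 * a) *
            Real.exp (-(a / 2 * (L / 8 - 1))) := by gcongr
      have h9 : E * (C3 * Real.exp (2 * π * c * |w.im|)) ≤
          C0 * C3 * e4 * (1 + w.re ^ 2) * Real.exp (-(a / 2 * (L / 8 - 1))) := by
        have h10 : Real.exp (-(c0 * L)) ≤ Real.exp (-(a / 2 * (L / 8 - 1))) := by
          refine Real.exp_le_exp.2 (neg_le_neg ?_)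
          have h11 : a / 2 * (L / 8 - 1) ≤ 4 * c0 / 2 * (L / 8 - 1) :=
            mul_le_mul_of_nonneg_right (by linarith) hr.le
          have h12 : 0 ≤ c0 * L := by
            have : 0 < L := by linarith
            positivity
          linarith
        have h13 : Real.exp (2 * π * c * |w.im|) ≤ e4 := by
          rw [he4, him]
          refine Real.exp_le_exp.2 (mul_le_mul_of_nonneg_left hw2 (by positivity))
        have h11 : 1 ≤ 1 + w.re ^ 2 := by nlinarith [sq_nonneg w.re]
        calc E * (C3 * Real.exp (2 * π * c * |w.im|)) =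
              C0 * C3 * Real.exp (2 * π * c * |w.im|) * 1 * Real.exp (-(c0 * L)) := by
              rw [hE]; ring
          _ ≤ C0 * C3 * e4 * (1 + w.re ^ 2) * Real.exp (-(a / 2 * (L / 8 - 1))) := by gcongr
      refine (norm_add_le _ _).trans ((add_le_add (h2.trans h9) (h1.trans h8)).trans ?_)
      refine le_of_eq ?_
      simp only [hM, hτ]
      ring)
    hz1
  have hlow : cz * ∑ n ∈ Finset.range N, (max (Q n - P n - 8) 0) ^ 2 / (Q n) ^ 2 ≤
      ∑ n ∈ S, τ n * om z (α n) (β n) := by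
    rw [hS, Finset.sum_filter, Finset.mul_sum]
    refine Finset.sum_le_sum fun n _ => ?_
    split_ifs with hl
    · have hPn := hP n
      rw [max_eq_left (by linarith)]
      have h1 := om_lower hz1 (α := α n) (β := β n) (by simp only [hα]; linarith)
        (by simp only [hα, hβ]; linarith)
      have hτ0 : 0 ≤ τ n := by
        simp only [hτ]
        have h2 : 0 ≤ (Q n - P n) / 8 - 1 := by linarith
        positivity
      refine le_trans ?_ (mul_le_mul_of_nonneg_left h1 hτ0)
      exact low_alg ha0 hY0 (abs_nonneg _) hPn hl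
    · rw [max_eq_right (by linarith)]
      simp
  have h1 : R < cz * ∑ n ∈ Finset.range N, (max (Q n - P n - 8) 0) ^ 2 / (Q n) ^ 2 := by
    rw [div_lt_iff₀ hcz0] at hN
    linarith
  have h2 : R < ∑ n ∈ S, τ n * om z (α n) (β n) := h1.trans_le hlow
  have h3 := Real.add_one_le_exp (∑ n ∈ S, τ n * om z (α n) (β n))
  have h4 : R < Real.exp (∑ n ∈ S, τ n * om z (α n) (β n)) := by linarith
  have h5 : ‖CC f H z‖ * R = M * Real.exp (2 * a) * ‖z + Complex.I‖ ^ 2 := by
    rw [hR]
    field_simp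
  have h6 := mul_lt_mul_of_pos_left h4 hnorm
  linarith

lemma CC_zero' (h : HP κ B H) (hf : CS c f) (hc : 0 ≤ c)
    (h1 : ∀ z : ℂ, 1 < z.im → CC f H z = 0) {z : ℂ} (hz : 0 < z.im) : CC f H z = 0 := by
  have hU : IsOpen {z : ℂ | 0 < z.im} := isOpen_lt continuous_const Complex.continuous_im
  have hd : DifferentiableOn ℂ (CC f H) {z : ℂ | 0 < z.im} := fun z hz =>
    (CC_diff_im h hf hc (ne_of_gt hz)).differentiableWithinAt
  have ha := hd.analyticOnNhd hU
  have hconv : Convex ℝ {z : ℂ | 0 < z.im} := convex_halfSpace_im_gt 0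
  have h2 : (2 * Complex.I) ∈ {z : ℂ | 0 < z.im} := by simp
  have h3 : CC f H =ᶠ[𝓝 (2 * Complex.I)] 0 := by
    have : ∀ᶠ w : ℂ in 𝓝 (2 * Complex.I), 1 < w.im := by
      refine Complex.continuous_im.continuousAt.eventually_const_lt ?_
      simp
    filter_upwards [this] with w hw using h1 w hw
  exact ha.eqOn_zero_of_preconnected_of_eventuallyEq_zero hconv.isPreconnected h2 h3 hz

/-- Beurling's gap theorem, with exponentially small values in the gaps -/
theorem gap_thm (h : HP κ B H) (hκ : 0 < κ) (hcont : ∀ᵐ x, ContinuousAt H x) {C0 c0 : ℝ}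
    (hC0 : 0 ≤ C0) (hc0 : 0 < c0) (P Q : ℕ → ℝ)
    (hP : ∀ n, 0 ≤ P n) (hord : ∀ m n, m < n → Q m ≤ P n)
    (hz : ∀ n, ∀ᵐ u, P n < u → u < Q n → |H u| ≤ C0 * Real.exp (-(c0 * (Q n - P n))))
    (hsum : ∀ M : ℝ, ∃ N : ℕ, M < ∑ n ∈ Finset.range N, (max (Q n - P n - 8) 0) ^ 2 / (Q n) ^ 2) :
    ∀ᵐ x, H x = 0 := by
  set c : ℝ := min (κ / 8) (c0 / 2) with hcdef
  have hcpos : 0 < c := by rw [hcdef]; positivity
  have hcκ : c ≤ κ / 8 := min_le_left _ _
  have hcc0 : c ≤ c0 / 2 := min_le_right _ _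
  obtain ⟨K0, hK0, _, hpos, _⟩ := Pool.Agent.Y744.exists_pos hcpos
  set f : ℝ → ℂ := fun α => (K0 α : ℂ) with hf
  have hcs : CS c f := ⟨Complex.ofRealCLM.contDiff.comp hK0.smooth,
    fun x hx => by simp only [hf]; rw [hK0.supp x hx]; simp⟩
  have hfe : ∀ α, f (-α) = f α := fun α => by simp only [hf]; rw [hK0.even]
  have hf0 : FL f 0 ≠ 0 := by
    have : FL f 0 = ((ct K0 0 : ℝ) : ℂ) := by
      unfold FL ct
      refine Eq.trans ?_ (integral_ofReal (f := fun α : ℝ => K0 α * Real.cos (2 * π * 0 * α)))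
      refine integral_congr_ae (Eventually.of_forall fun α => ?_)
      simp [hf]
    rw [this]
    exact_mod_cast hpos.ne'
  have hc : 0 ≤ c := hcpos.le
  have hcc : 2 * π * c ≤ 4 * c0 := by
    have h1 : 2 * π * c ≤ 2 * π * (c0 / 2) := mul_le_mul_of_nonneg_left hcc0 (by positivity)
    have h2 : π * c0 ≤ 4 * c0 := mul_le_mul_of_nonneg_right Real.pi_le_four hc0.le
    linarith
  have h1 : ∀ z : ℂ, 1 < z.im → CC f H z = 0 := fun z hz1 =>
    CC_zero h hcs hc (s0 := κ / 2) (by linarith) (by linarith) hC0 hc0 hcc P Q hP hord hz hsum hz1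
  have h2 : ∀ z : ℂ, 0 < z.im → CC f H z = 0 := fun z hz => CC_zero' h hcs hc h1 hz
  have h3 : ∀ z : ℂ, z.im ≠ 0 → CC f H z = 0 := by
    intro z hz
    rcases lt_or_gt_of_ne hz with hl | hl
    · have h4 := h2 (-z) (by simpa using hl)
      rw [CC_odd h hfe] at h4
      exact neg_eq_zero.1 h4
    · exact h2 z hl
  filter_upwards [hcont] with x hx using recover h hcs hc hf0 h3 hx

end Pool.Agent.R346.BG
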