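import Pool.Agent.R346.BG.Gap
import Pool.Agent.Y744.PCR.Glue

/-! Montgomery's conjecture from a sparse sequence of intervals. -/

open MeasureTheory Filter Topology Real

namespace Pool.Agent.R346.BG

open Pool.Agent.Y744
open Pool.Agent.Results.MP_103a5c_nt.BohrSetPairs

/-- the two sided condition for the limit at a point of continuity -/
lemma cond_pt {u : Filter ℝ} [NeBot u] (hu : u ≤ atTop) {A' : ℝ → ℝ}
    (hlim : ∀ y, Tendsto (fun T => Aa T y) u (𝓝 (A' y))) {a ℓ δ : ℝ} (ha : 0 < a) (hℓ : 0 < ℓ)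
    (hW : ∀ ε : ℝ, 0 < ε → ∀ᶠ T in u, |Nr T a (a + ℓ) - (gp (a + ℓ) - gp a)| ≤ δ + ε)
    (hc : ContinuousAt A' a) : |A' (a + ℓ) - A' a - 2 * (gp (a + ℓ) - gp a)| ≤ 2 * δ := by
  have hT : ∀ᶠ T in u, (1 : ℝ) < T := hu (eventually_gt_atTop 1)
  have key : ∀ ε : ℝ, 0 < ε →
      |A' (a + ℓ) - A' a - 2 * (gp (a + ℓ) - gp a)| ≤ 2 * δ + 2 * ε := by
    intro ε hε
    rw [abs_le]
    constructor
    · have h1 : ∀ η : ℝ, 0 < η → 2 * (gp (a + ℓ) - gp a) - 2 * δ - 2 * ε ≤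
          A' (a + ℓ) - A' (a - η) := by
        intro η hη
        refine ge_of_tendsto ((hlim (a + ℓ)).sub (hlim (a - η))) ?_
        filter_upwards [hT, hW ε hε] with T hT1 hT2
        have h2 := Ww_upper (T := T) (a := a) hT1 hη hℓ
        rw [Ww_eq ha] at h2
        have h3 := (abs_le.1 hT2).1
        linarith
      have h2 : Tendsto (fun η : ℝ => A' (a + ℓ) - A' (a - η)) (𝓝[>] 0)
          (𝓝 (A' (a + ℓ) - A' a)) := by
        refine tendsto_const_nhds.sub (hc.tendsto.comp ?_)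
        have : Tendsto (fun η : ℝ => a - η) (𝓝 0) (𝓝 (a - 0)) := tendsto_const_nhds.sub tendsto_id
        rw [sub_zero] at this
        exact this.mono_left nhdsWithin_le_nhds
      have h3 : 2 * (gp (a + ℓ) - gp a) - 2 * δ - 2 * ε ≤ A' (a + ℓ) - A' a := by
        refine ge_of_tendsto h2 ?_
        filter_upwards [self_mem_nhdsWithin] with η hη using h1 η hη
      linarith
    · have h3 : A' (a + ℓ) - A' a ≤ 2 * (gp (a + ℓ) - gp a) + 2 * δ + 2 * ε := by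
        refine le_of_tendsto ((hlim (a + ℓ)).sub (hlim a)) ?_
        filter_upwards [hT, hW ε hε] with T hT1 hT2
        have h2 := Ww_lower (T := T) (a := a) (ℓ := ℓ) hT1
        rw [Ww_eq ha] at h2
        have h3 := (abs_le.1 hT2).2
        linarith
      linarith
  refine le_of_forall_pos_le_add fun ε hε => ?_
  have := key (ε / 2) (by positivity)
  linarith

lemma cont_ae {A' : ℝ → ℝ} (hA' : Monotone A') : ∀ᵐ x, ContinuousAt A' x :=
  hA'.countable_not_continuousAt.ae_notMem volume |>.mono fun x hx => by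
    by_contra hc
    exact hx hc

lemma AG_contAt {x : ℝ} (hx : x ≠ 0) : ContinuousAt AG x := by
  rcases lt_or_gt_of_ne hx with h | h
  · have : AG =ᶠ[𝓝 x] fun _ => 0 := by
      filter_upwards [gt_mem_nhds h] with z hz
      unfold AG
      rw [if_pos hz]
    exact continuousAt_const.congr this.symm
  · have : AG =ᶠ[𝓝 x] fun x => 1 + 2 * gp x := by
      filter_upwards [lt_mem_nhds h] with z hz
      unfold AG
      rw [if_neg (by linarith)]
    exact (continuousAt_const.add (continuousAt_const.mul gp_cont.continuousAt)).congr this.symm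

lemma dE_cont_ae {A' : ℝ → ℝ} (hA' : Monotone A') : ∀ᵐ x, ContinuousAt (dE A') x := by
  have h1 := cont_ae hA'
  have h2 := (Measure.measurePreserving_neg (volume : Measure ℝ)).quasiMeasurePreserving.ae h1
  have h3 : ∀ᵐ x : ℝ, x ≠ 0 := by
    rw [ae_iff]
    simp
  filter_upwards [h1, h2, h3] with x hx1 hx2 hx3
  have hn : ContinuousAt (fun y : ℝ => -y) x := continuous_neg.continuousAt
  have a1 : ContinuousAt (fun y => A' (-y)) x := ContinuousAt.comp (f := fun y : ℝ => -y) hx2 hn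
  have a2 : ContinuousAt (fun y => AG (-y)) x :=
    ContinuousAt.comp (f := fun y : ℝ => -y) (AG_contAt (neg_ne_zero.2 hx3)) hn
  exact (hx1.sub (AG_contAt hx3)).sub (a1.sub a2)

/-- the windows of length `ℓ` in a sparse sequence of intervals determine the period -/
lemma periodic_sparse {A' : ℝ → ℝ} {C0 κ : ℝ} (hκ : 0 < κ) (hA' : Monotone A')
    (hneg : ∀ y, y < 0 → A' y = 0) (hb : ∀ y, |A' y| ≤ C0 * (1 + y ^ 2))
    (hm : ∀ K, TK κ K → ∀ h, 0 < h →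
      ∫ y, A' y * (ct K (y + h) - ct K (y - h)) = ∫ y, AG y * (ct K (y + h) - ct K (y - h)))
    {ℓ : ℝ} (hℓ : 0 < ℓ) {p q : ℕ → ℝ} (h0 : ∀ n, 0 < p n) (h1 : ∀ n, p n < q n)
    (h2 : ∀ n, q n ≤ p (n + 1)) (hs : ¬ Summable fun n => ((q n - p n) / q n) ^ 2)
    {C c : ℝ} (hC : 0 ≤ C) (hc : 0 < c)
    (hyp : ∀ n a, p n < a → a + ℓ < q n → ContinuousAt A' a →
      |A' (a + ℓ) - A' a - 2 * (gp (a + ℓ) - gp a)| ≤ C * Real.exp (-(c * (q n - p n)))) :
    ∀ᵐ x, dE A' (x + ℓ) = dE A' x := by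
  set h : ℝ := ℓ / 2 with hh
  have hh0 : 0 < h := by rw [hh]; positivity
  have hEm := dE_meas hA'
  have hEb := dE_bound hb
  have hC0 : 0 ≤ C0 := by
    have := (abs_nonneg _).trans (hb 0)
    simpa using this
  set H : ℝ → ℝ := fun y => dE A' (y + h) - dE A' (y - h) with hH
  set B : ℝ := (2 * C0 + 4) * (4 * (1 + h ^ 2)) with hB
  have hHP : HP κ B H := by
    refine ⟨⟨(hEm.comp (by fun_prop)).sub (hEm.comp (by fun_prop)), fun y => ?_⟩, fun y => ?_,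
      fun K hK => annih hK hA' hb h (hm K hK h hh0)⟩
    rotate_left
    · simp only [hH]
      have a1 : dE A' (-y + h) = -dE A' (y - h) := by
        rw [← dE_odd]
        congr 1
        ring
      have a2 : dE A' (-y - h) = -dE A' (y + h) := by
        rw [← dE_odd]
        congr 1
        ring
      rw [a1, a2]
      ring
    · simp only [hH]
      refine (abs_sub _ _).trans ?_
      have h1 := hEb (y + h)
      have h2 := hEb (y - h)
      have h3 : 1 + (y + h) ^ 2 ≤ 2 * (1 + h ^ 2) * (1 + y ^ 2) := by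
        nlinarith [sq_nonneg (y - h), sq_nonneg (y * h), sq_nonneg y, sq_nonneg h]
      have h4 : 1 + (y - h) ^ 2 ≤ 2 * (1 + h ^ 2) * (1 + y ^ 2) := by
        nlinarith [sq_nonneg (y + h), sq_nonneg (y * h), sq_nonneg y, sq_nonneg h]
      have h5 : (2 * C0 + 4) * (1 + (y + h) ^ 2) ≤ (2 * C0 + 4) * (2 * (1 + h ^ 2) * (1 + y ^ 2)) :=
        mul_le_mul_of_nonneg_left h3 (by positivity)
      have h6 : (2 * C0 + 4) * (1 + (y - h) ^ 2) ≤ (2 * C0 + 4) * (2 * (1 + h ^ 2) * (1 + y ^ 2)) :=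
        mul_le_mul_of_nonneg_left h4 (by positivity)
      rw [hB]
      linarith
  have tr : ∀ (P : ℝ → Prop) (c : ℝ), (∀ᵐ x, P x) → ∀ᵐ x, P (x + c) := fun P c hP =>
    (measurePreserving_add_right (volume : Measure ℝ) c).quasiMeasurePreserving.ae hP
  have hcE := dE_cont_ae hA'
  have hcont : ∀ᵐ x, ContinuousAt H x := by
    filter_upwards [tr _ h hcE, tr _ (-h) hcE] with x hx1 hx2
    have a1 : ContinuousAt (fun y => dE A' (y + h)) x :=
      ContinuousAt.comp (f := fun y : ℝ => y + h) hx1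
        (by fun_prop : Continuous fun y : ℝ => y + h).continuousAt
    have a2 : ContinuousAt (fun y => dE A' (y - h)) x := by
      rw [← sub_eq_add_neg] at hx2
      exact ContinuousAt.comp (f := fun y : ℝ => y - h) hx2
        (by fun_prop : Continuous fun y : ℝ => y - h).continuousAt
    exact a1.sub a2
  have hpm : Monotone p := monotone_nat_of_le_succ fun n => ((h1 n).le).trans (h2 n)
  have hz : ∀ n, ∀ᵐ u, p n + h < u → u < q n - h →
      |H u| ≤ C * Real.exp (-(c * (q n - h - (p n + h)))) := by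
    intro n
    filter_upwards [tr _ (-h) (cont_ae hA')] with u hu hu1 hu2
    rw [← sub_eq_add_neg] at hu
    have hpn := h0 n
    have e1 : u - h + ℓ = u + h := by rw [hh]; ring
    have a1 := hyp n (u - h) (by linarith) (by rw [e1]; linarith) hu
    rw [e1] at a1
    simp only [hH]
    rw [dE_pos hneg (by linarith : 0 < u + h), dE_pos hneg (by linarith : 0 < u - h)]
    unfold AG
    rw [if_neg (by linarith), if_neg (by linarith)]
    have e2 : A' (u + h) - (1 + 2 * gp (u + h)) - (A' (u - h) - (1 + 2 * gp (u - h))) =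
        A' (u + h) - A' (u - h) - 2 * (gp (u + h) - gp (u - h)) := by ring
    rw [e2]
    refine a1.trans (mul_le_mul_of_nonneg_left (Real.exp_le_exp.2 ?_) hC)
    have : 0 ≤ c * h := by positivity
    linarith
  have hsum : ∀ M : ℝ, ∃ N : ℕ, M < ∑ n ∈ Finset.range N,
      (max (q n - h - (p n + h) - 8) 0) ^ 2 / (q n - h) ^ 2 := by
    intro M
    obtain ⟨N, hN⟩ := series h0 h1 h2 hs (K := ℓ + 8) (by positivity) M
    refine ⟨N, hN.trans_le (Finset.sum_le_sum fun n _ => ?_)⟩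
    have e1 : q n - h - (p n + h) - 8 = q n - p n - (ℓ + 8) := by rw [hh]; ring
    rw [e1]
    have hpn := h0 n
    rcases le_or_gt (q n - p n - (ℓ + 8)) 0 with hl | hl
    · rw [max_eq_right hl]
      simp
    · have h3 : 0 < q n - h := by rw [hh]; linarith
      refine div_le_div_of_nonneg_left (sq_nonneg _) (by positivity) ?_
      exact pow_le_pow_left₀ h3.le (by linarith) 2
  have hfin := gap_thm hHP hκ hcont hC hc (fun n => p n + h) (fun n => q n - h)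
    (fun n => by have := h0 n; positivity)
    (fun m n hmn => by
      have : q m ≤ p n := (h2 m).trans (hpm hmn)
      show q m - h ≤ p n + h
      linarith) hz hsum
  have h5 := tr _ h hfin
  filter_upwards [h5] with x hx
  simp only [hH] at hx
  have e1 : x + h + h = x + ℓ := by rw [hh]; ring
  have e2 : x + h - h = x := by ring
  rw [e1, e2] at hx
  linarith

/-- periods form a group -/
lemma per_group {E : ℝ → ℝ} {Λ : Set ℝ} (h : ∀ ℓ ∈ Λ, ∀ᵐ x, E (x + ℓ) = E x) {g : ℝ}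
    (hg : g ∈ AddSubgroup.closure Λ) : ∀ᵐ x, E (x + g) = E x := by
  have tr : ∀ (P : ℝ → Prop) (c : ℝ), (∀ᵐ x, P x) → ∀ᵐ x, P (x + c) := fun P c hP =>
    (measurePreserving_add_right (volume : Measure ℝ) c).quasiMeasurePreserving.ae hP
  induction hg using AddSubgroup.closure_induction with
  | mem x hx => exact h x hx
  | zero => exact Eventually.of_forall fun x => by rw [add_zero]
  | add a b _ _ ha hb =>
    filter_upwards [ha, tr _ a hb] with x h1 h2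
    rw [← add_assoc, h2, h1]
  | neg a _ ha =>
    filter_upwards [tr _ (-a) ha] with x h1
    rw [neg_add_cancel_right] at h1
    exact h1.symm

/-- the windows of length `ℓ` inside a sparse sequence of intervals -/
def SpS (l : Filter ℝ) (ℓ : ℝ) : Prop := ∃ (p q : ℕ → ℝ) (C c : ℝ), 0 < C ∧ 0 < c ∧
  (∀ n, 0 < p n) ∧ (∀ n, p n < q n) ∧ (∀ n, q n ≤ p (n + 1)) ∧
  (¬ Summable fun n => ((q n - p n) / q n) ^ 2) ∧ ∀ n a, p n < a → a + ℓ < q n →
    ∀ ε : ℝ, 0 < ε → ∀ᶠ T in l, |Nr T a (a + ℓ) - (gp (a + ℓ) - gp a)| ≤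
      C * Real.exp (-(c * (q n - p n))) + ε

section

variable {l : Filter ℝ}

lemma SpS.periodic (hl : l ≤ atTop) {ℓ : ℝ} (hℓ : 0 < ℓ) (h : SpS l ℓ)
    {g : Ultrafilter ℝ} (hg : (g : Filter ℝ) ≤ l) {A' : ℝ → ℝ} {C0 : ℝ} (hA' : Monotone A')
    (hneg : ∀ y, y < 0 → A' y = 0) (hb : ∀ y, |A' y| ≤ C0 * (1 + y ^ 2))
    (hlim : ∀ y, Tendsto (fun T => Aa T y) (g : Filter ℝ) (𝓝 (A' y)))
    (hm : ∀ K, TK (1 / 2) K → ∀ h, 0 < h →
        ∫ y, A' y * (ct K (y + h) - ct K (y - h)) = ∫ y, AG y * (ct K (y + h) - ct K (y - h))) :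
    ∀ᵐ x, dE A' (x + ℓ) = dE A' x := by
  obtain ⟨p, q, C, c, hC, hc, h0, h1, h2, hs, h3⟩ := h
  exact periodic_sparse (κ := 1 / 2) (by norm_num) hA' hneg hb hm hℓ h0 h1 h2 hs
    (C := 2 * C) (by positivity) hc fun n a ha ha2 hcont => by
      have h4 := cond_pt (hg.trans hl) hlim ((h0 n).trans ha) hℓ
        (fun ε hε => hg (h3 n a ha ha2 ε hε)) hcont
      rwa [← mul_assoc] at h4

/-- one sided bounds for the distant windows also determine the period -/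
lemma OneS_periodic (hl : l ≤ atTop) {ℓ s : ℝ} (hℓ : 0 < ℓ) (hs : s = 1 ∨ s = -1)
    (h : OneS l ℓ s)
    {g : Ultrafilter ℝ} (hg : (g : Filter ℝ) ≤ l) {A' : ℝ → ℝ} {C0 : ℝ} (hA' : Monotone A')
    (hneg : ∀ y, y < 0 → A' y = 0) (hb : ∀ y, |A' y| ≤ C0 * (1 + y ^ 2))
    (hlim : ∀ y, Tendsto (fun T => Aa T y) (g : Filter ℝ) (𝓝 (A' y)))
    (hm : ∀ K, TK (1 / 2) K → ∀ h, 0 < h →
        ∫ y, A' y * (ct K (y + h) - ct K (y - h)) = ∫ y, AG y * (ct K (y + h) - ct K (y - h))) :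
    ∀ᵐ x, dE A' (x + ℓ) = dE A' x := by
  obtain ⟨C, c, a0, hC, hc, ha0, h1⟩ := h
  have hs' : -s = 1 ∨ -s = -1 := by
    rcases hs with rfl | rfl
    · right; rfl
    · left; norm_num
  have h2 : ∀ a, a0 ≤ a → ∀ ε, 0 < ε → ∀ᶠ T in l,
      -(2 * C * Real.exp (-(c * a))) - ε ≤ -s * (Ww T a ℓ - 2 * (gp (a + ℓ) - gp a)) := by
    intro a ha ε hε
    filter_upwards [h1 a ha (ε / 2) (by positivity)] with T hT
    rw [Ww_eq (by linarith)]
    nlinarith
  have c1 := cond_limit (T0 := 2) (W := Ww) (fun T hT a ℓ ha hℓ => Ww_lower (by linarith))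
    (fun T hT a ℓ η ha hℓ hη => Ww_upper (by linarith) hη hℓ) (hg.trans hl) hlim hℓ hs' ha0
    (fun a ha ε hε => hg (h2 a ha ε hε))
  exact Pool.Agent.Y744.periodic (κ := 1 / 2) (by norm_num) hA' hneg hb hm hℓ hs' (by positivity)
    hc ha0 c1

/-- good lengths -/
def SpG (l : Filter ℝ) (ℓ : ℝ) : Prop := SpS l ℓ ∨ OneS l ℓ 1 ∨ OneS l ℓ (-1)

lemma SpG.periodic (hl : l ≤ atTop) {ℓ : ℝ} (hℓ : 0 < ℓ) (h : SpG l ℓ)
    {g : Ultrafilter ℝ} (hg : (g : Filter ℝ) ≤ l) {A' : ℝ → ℝ} {C0 : ℝ} (hA' : Monotone A')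
    (hneg : ∀ y, y < 0 → A' y = 0) (hb : ∀ y, |A' y| ≤ C0 * (1 + y ^ 2))
    (hlim : ∀ y, Tendsto (fun T => Aa T y) (g : Filter ℝ) (𝓝 (A' y)))
    (hm : ∀ K, TK (1 / 2) K → ∀ h, 0 < h →
        ∫ y, A' y * (ct K (y + h) - ct K (y - h)) = ∫ y, AG y * (ct K (y + h) - ct K (y - h))) :
    ∀ᵐ x, dE A' (x + ℓ) = dE A' x := by
  rcases h with h | h | h
  · exact h.periodic hl hℓ hg hA' hneg hb hlim hm
  · exact OneS_periodic hl hℓ (Or.inl rfl) h hg hA' hneg hb hlim hm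
  · exact OneS_periodic hl hℓ (Or.inr rfl) h hg hA' hneg hb hlim hm

/-- the discrepancy for the lengths in the group generated by the given ones -/
theorem grp (RH : RiemannHypothesis) (hl : l ≤ atTop) {Λ : Set ℝ} (hΛ : ∀ ℓ ∈ Λ, 0 < ℓ)
    (h : ∀ ℓ ∈ Λ, SpG l ℓ) {γ : ℝ} (hγ : 0 < γ) (hγ2 : γ ∈ AddSubgroup.closure Λ) (x : ℝ) {ε : ℝ}
    (hε : 0 < ε) : ∀ᶠ T in l, |Aa T x - AG x| ≤ Me γ + ε := by
  have key : {T | |Aa T x - AG x| ≤ Me γ + ε} ∈ l := by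
    rw [Filter.mem_iff_ultrafilter]
    intro g hg
    obtain ⟨A', C0, hA', hneg, hb, h00, hlim, hm⟩ := exists_limit RH g (hg.trans hl)
    have p1 : ∀ᵐ x, dE A' (x + γ) = dE A' x := per_group
      (fun ℓ hℓ => (h ℓ hℓ).periodic hl (hΛ ℓ hℓ) hg hA' hneg hb hlim hm) hγ2
    have h3 := single_all hA' hneg h00 hγ p1 x
    have h4 : Tendsto (fun T => |Aa T x - AG x|) (g : Filter ℝ) (𝓝 |A' x - AG x|) :=
      ((hlim x).sub_const _).abs
    have h5 : ∀ᶠ T in (g : Filter ℝ), |Aa T x - AG x| < Me γ + ε :=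
      (tendsto_order.1 h4).2 _ (by linarith)
    exact h5.mono fun T hT => le_of_lt hT
  exact key

/-- a dense group of lengths -/
theorem dns (RH : RiemannHypothesis) (hl : l ≤ atTop) {Λ : Set ℝ} (hΛ : ∀ ℓ ∈ Λ, 0 < ℓ)
    (hd : Dense (AddSubgroup.closure Λ : Set ℝ)) (h : ∀ ℓ ∈ Λ, SpG l ℓ) (x : ℝ) :
    Tendsto (fun T => Aa T x) l (𝓝 (AG x)) := by
  rw [Metric.tendsto_nhds]
  intro ε hε
  -- a small element of the group
  have h1 : ∃ δ : ℝ, 0 < δ ∧ δ ≤ 1 ∧ Real.pi ^ 2 / 9 * δ ≤ ε / 3 := by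
    refine ⟨min 1 (ε / 3 / (Real.pi ^ 2 / 9)), by positivity, min_le_left _ _, ?_⟩
    have h2 := min_le_right 1 (ε / 3 / (Real.pi ^ 2 / 9))
    have h3 : 0 < Real.pi ^ 2 / 9 := by positivity
    rw [le_div_iff₀ h3] at h2
    linarith
  obtain ⟨δ, hδ, hδ1, hδε⟩ := h1
  obtain ⟨γ, hγ, hγ1, hγ2⟩ := hd.exists_between hδ
  have hMe : Me γ ≤ ε / 3 := by
    refine (Me_le hγ1).trans (le_trans ?_ hδε)
    refine mul_le_mul_of_nonneg_left ?_ (by positivity)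
    have : γ ^ 3 ≤ γ := by
      have h3 : γ ≤ 1 := by linarith
      have h4 : γ ^ 3 ≤ γ ^ 1 := pow_le_pow_of_le_one hγ1.le h3 (by norm_num)
      rwa [pow_one] at h4
    linarith
  filter_upwards [grp RH hl hΛ h hγ1 hγ x (show 0 < ε / 3 by positivity)] with T hT
  rw [Real.dist_eq]
  linarith

end

open Pool.Agent.Y744.G

/-- the windows of length `ℓ` inside a sparse sequence of intervals -/
def Sparse (F : Filter ℝ) (ℓ : ℝ) : Prop := ∃ (p q : ℕ → ℝ) (C c : ℝ), 0 < C ∧ 0 < c ∧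
  (∀ n, 0 < p n) ∧ (∀ n, p n < q n) ∧ (∀ n, q n ≤ p (n + 1)) ∧
  (¬ Summable fun n => ((q n - p n) / q n) ^ 2) ∧ ∀ n a, p n < a → a + ℓ < q n →
    ∀ ε : ℝ, 0 < ε → ∀ᶠ T in F, |D T a (a + ℓ)| ≤ C * Real.exp (-(c * (q n - p n))) + ε

lemma pr_pos {a ℓ : ℝ} (ha : 0 < a) : pr a (a + ℓ) = gp (a + ℓ) - gp a := by
  unfold pr
  rw [Set.indicator_of_notMem (by
    rintro ⟨h2, h3⟩
    linarith)]
  ring

lemma Sparse.sps {F : Filter ℝ} (hF : F ≤ atTop) {ℓ : ℝ} (h : Sparse F ℓ) : SpS F ℓ := by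
  obtain ⟨p, q, C, c, hC, hc, h0, h1, h2, hs, h3⟩ := h
  refine ⟨p, q, C, c, hC, hc, h0, h1, h2, hs, fun n a ha ha2 ε hε => ?_⟩
  filter_upwards [h3 n a ha ha2 ε hε, hF (eventually_gt_atTop (1 : ℝ))] with T h4 h5
  rwa [D_eq h5, pr_pos ((h0 n).trans ha)] at h4

lemma Mont_Sparse {F : Filter ℝ} (hF : F ≤ atTop) (hM : Montgomery F) {ℓ : ℝ} (hℓ : 0 < ℓ) :
    Sparse F ℓ := by
  rw [Mont_iff hF] at hM
  refine ⟨fun n => 2 ^ n, fun n => 2 ^ (n + 1), 1, 1, one_pos, one_pos, fun n => by positivity,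
    fun n => ?_, fun n => le_rfl, ?_, fun n a ha ha2 ε hε => ?_⟩
  · show (2 : ℝ) ^ n < 2 ^ (n + 1)
    exact pow_lt_pow_right₀ (by norm_num) (Nat.lt_succ_self n)
  · have e : (fun n : ℕ => (((2 : ℝ) ^ (n + 1) - 2 ^ n) / 2 ^ (n + 1)) ^ 2) =
        fun _ => (1 / 4 : ℝ) := by
      funext n
      have h5 : (0 : ℝ) < 2 ^ n := by positivity
      have h6 : (2 : ℝ) ^ (n + 1) = 2 * 2 ^ n := by ring
      rw [h6, div_pow, div_eq_div_iff (by positivity) (by norm_num)]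
      ring
    rw [e, summable_const_iff]
    norm_num
  · have ha0 : 0 < a := lt_trans (by positivity) ha
    have h1 := hM a (a + ℓ) (by linarith)
    filter_upwards [(Metric.tendsto_nhds.1 h1) ε hε, hF (eventually_gt_atTop (1 : ℝ))] with T hT hT1
    rw [Real.dist_eq] at hT
    rw [D_eq hT1]
    have h3 := Real.exp_pos (-(1 * ((2 : ℝ) ^ (n + 1) - 2 ^ n)))
    linarith

/-- good lengths -/
def Good (F : Filter ℝ) (ℓ : ℝ) : Prop := Sparse F ℓ ∨ OneSided F ℓ 1 ∨ OneSided F ℓ (-1)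

lemma Good.spg {F : Filter ℝ} (hF : F ≤ atTop) {ℓ : ℝ} (h : Good F ℓ) : SpG F ℓ := by
  rcases h with h | h | h
  · exact Or.inl (h.sps hF)
  · exact Or.inr (Or.inl ((One_iff hF ℓ 1).1 h))
  · exact Or.inr (Or.inr ((One_iff hF ℓ (-1)).1 h))

theorem main2 (hRH : RiemannHypothesis) {F : Filter ℝ} (hF : F ≤ atTop) {Λ : Set ℝ}
    (hΛ : ∀ ℓ ∈ Λ, 0 < ℓ) (h : ∀ ℓ ∈ Λ, Good F ℓ) {γ : ℝ} (hγ : 0 < γ)
    (hγ2 : γ ∈ AddSubgroup.closure Λ) {α β : ℝ} (hαβ : α < β) {ε : ℝ} (hε : 0 < ε) :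
    ∀ᶠ T in F, |D T α β| ≤ Real.pi ^ 2 / 9 * γ ^ 3 + ε := by
  have hev : ∀ᶠ T in F, 1 < T := hF (eventually_gt_atTop 1)
  have h3 := fun x ε (hε : 0 < ε) => grp hRH hF hΛ (fun ℓ hℓ => (h ℓ hℓ).spg hF) hγ hγ2 x hε
  filter_upwards [Nr_close hF h3 hαβ hε, hev] with T h4 h5
  rw [D_eq h5]
  have := Me_le hγ
  linarith

theorem main1 (hRH : RiemannHypothesis) {F : Filter ℝ} (hF : F ≤ atTop) {Λ : Set ℝ}
    (hΛ : ∀ ℓ ∈ Λ, 0 < ℓ) (hd : Dense (AddSubgroup.closure Λ : Set ℝ)) :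
    Montgomery F ↔ ∀ ℓ ∈ Λ, Good F ℓ := by
  constructor
  · exact fun hM ℓ hℓ => Or.inl (Mont_Sparse hF hM (hΛ ℓ hℓ))
  · intro h
    rw [Mont_iff hF]
    exact fun α β hαβ => Nr_all hF (dns hRH hF hΛ hd fun ℓ hℓ => (h ℓ hℓ).spg hF) hαβ

theorem main (hRH : RiemannHypothesis) (F : Filter ℝ) (hF : F ≤ atTop) (Λ : Set ℝ)
    (hΛ : ∀ ℓ ∈ Λ, 0 < ℓ) :
    ((∀ ℓ ∈ Λ, Good F ℓ) → ∀ γ ∈ AddSubgroup.closure Λ, 0 < γ → ∀ α β : ℝ, α < β →
      ∀ ε : ℝ, 0 < ε → ∀ᶠ T in F, |D T α β| ≤ Real.pi ^ 2 / 9 * γ ^ 3 + ε) ∧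
    (Dense (AddSubgroup.closure Λ : Set ℝ) → (Montgomery F ↔ ∀ ℓ ∈ Λ, Good F ℓ)) :=
  ⟨fun h _ hγ2 hγ _ _ hαβ _ hε => main2 hRH hF hΛ h hγ hγ2 hαβ hε,
    fun hd => main1 hRH hF hΛ hd⟩

end Pool.Agent.R346.BG
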