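import Pool.Agent.R346.BG.PL

/-! An analytic function in a half-plane that is small above many long intervals. -/

open MeasureTheory Filter Topology Real

namespace Pool.Agent.R346.BG

/-- harmonic measure -/
noncomputable def om (z : ℂ) (α β : ℝ) : ℝ := (ag (z - Complex.I) β - ag (z - Complex.I) α) / π

/-- the analytic completion -/
noncomputable def LL (z : ℂ) (α β : ℝ) : ℂ :=
  -(Complex.I / π) * (Complex.log (z - Complex.I - β) - Complex.log (z - Complex.I - α))

lemma LL_re (z : ℂ) (α β : ℝ) : (LL z α β).re = om z α β := by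
  unfold LL om ag
  have e : -(Complex.I / π) * (Complex.log (z - Complex.I - β) - Complex.log (z - Complex.I - α)) =
      ((1 / π : ℝ) : ℂ) * (-(Complex.I * (Complex.log (z - Complex.I - β) -
        Complex.log (z - Complex.I - α)))) := by
    push_cast
    ring
  rw [e, Complex.re_ofReal_mul, Complex.neg_re, Complex.I_mul_re, Complex.sub_im]
  ring

lemma om_nonneg {z : ℂ} (hz : 1 < z.im) {α β : ℝ} (h : α ≤ β) : 0 ≤ om z α β := by
  unfold om
  refine div_nonneg (ag_diff_nonneg ?_ h) Real.pi_pos.le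
  simp only [Complex.sub_im, Complex.I_im]
  linarith

lemma om_le_one {z : ℂ} (hz : 1 < z.im) {α β : ℝ} : om z α β ≤ 1 := by
  unfold om
  rw [div_le_one Real.pi_pos]
  refine ag_diff_le_pi ?_
  simp only [Complex.sub_im, Complex.I_im]
  linarith

lemma normSq_eq (z : ℂ) (t : ℝ) :
    Complex.normSq (z - Complex.I - t) = (z.re - t) ^ 2 + (z.im - 1) ^ 2 := by
  rw [Complex.normSq_apply]
  simp only [Complex.sub_re, Complex.I_re, sub_zero, Complex.ofReal_re, Complex.sub_im,
    Complex.I_im, Complex.ofReal_im]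
  ring

lemma om_small {z : ℂ} (hz : 1 < z.im) {α β δ : ℝ} (h : α ≤ β) (hδ : 0 < δ)
    (hout : ¬ (α - δ < z.re ∧ z.re < β + δ)) :
    om z α β ≤ (z.im - 1) * ((β - α) / δ ^ 2) := by
  have hw : 0 < (z - Complex.I).im := by
    simp only [Complex.sub_im, Complex.I_im]
    linarith
  have h1 := ag_diff_le hw (hi := (z.im - 1) / δ ^ 2) h fun t ht => by
    rw [normSq_eq]
    simp only [Complex.sub_im, Complex.I_im]
    have h2 : δ ^ 2 ≤ (z.re - t) ^ 2 + (z.im - 1) ^ 2 := by
      have h3 : δ ≤ |z.re - t| := by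
        by_contra hc
        push Not at hc
        rw [abs_lt] at hc
        exact hout ⟨by linarith [ht.1], by linarith [ht.2]⟩
      have h4 := pow_le_pow_left₀ hδ.le h3 2
      rw [sq_abs] at h4
      nlinarith [sq_nonneg (z.im - 1)]
    have h5 : 0 ≤ z.im - 1 := by linarith
    gcongr
  unfold om
  rw [div_le_iff₀ Real.pi_pos]
  have h6 : 0 ≤ (z.im - 1) * ((β - α) / δ ^ 2) := by
    refine mul_nonneg (by linarith) (div_nonneg (by linarith) (by positivity))
  have h7 : (z.im - 1) / δ ^ 2 * (β - α) = (z.im - 1) * ((β - α) / δ ^ 2) := by ring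
  rw [h7] at h1
  have := Real.pi_gt_three
  nlinarith

lemma om_lower {z : ℂ} (hz : 1 < z.im) {α β : ℝ} (hα : 0 ≤ α) (h : α ≤ β) :
    (z.im - 1) / ((|z.re| + β) ^ 2 + (z.im - 1) ^ 2) * (β - α) / π ≤ om z α β := by
  have hw : 0 < (z - Complex.I).im := by
    simp only [Complex.sub_im, Complex.I_im]
    linarith
  have h1 := le_ag_diff hw (lo := (z.im - 1) / ((|z.re| + β) ^ 2 + (z.im - 1) ^ 2)) h fun t ht => by
    rw [normSq_eq]
    simp only [Complex.sub_im, Complex.I_im]
    have h0 : 0 < z.im - 1 := by linarith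
    have h2 : (z.re - t) ^ 2 ≤ (|z.re| + β) ^ 2 := by
      rw [← sq_abs (z.re - t)]
      refine pow_le_pow_left₀ (abs_nonneg _) ?_ 2
      refine (abs_sub _ _).trans ?_
      rw [abs_of_nonneg (hα.trans ht.1)]
      linarith [ht.2]
    gcongr
  unfold om
  gcongr

theorem half {C : ℂ → ℂ} {M a : ℝ} (ha : 0 < a) (hM : 0 ≤ M)
    (hd : ∀ z : ℂ, 0 < z.im → DifferentiableAt ℂ C z)
    (hb : ∀ z : ℂ, 1 ≤ z.im → ‖C z‖ ≤ M * (1 + z.re ^ 2) * Real.exp (-(a * z.im)))
    (S : Finset ℕ) (α β δ τ : ℕ → ℝ) (hαβ : ∀ n ∈ S, α n ≤ β n) (hδ : ∀ n ∈ S, 0 < δ n)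
    (hτ : ∀ n ∈ S, 0 ≤ τ n)
    (hdisj : ∀ m ∈ S, ∀ n ∈ S, m ≠ n → ∀ x, (α m - δ m < x ∧ x < β m + δ m) →
      ¬ (α n - δ n < x ∧ x < β n + δ n))
    (hgap : ∀ n ∈ S, ∀ z : ℂ, 1 ≤ z.im → z.im ≤ 2 → (α n - δ n < z.re ∧ z.re < β n + δ n) →
      ‖C z‖ ≤ M * (1 + z.re ^ 2) * Real.exp (-(τ n)))
    {z : ℂ} (hz : 1 < z.im) :
    ‖C z‖ * Real.exp (∑ n ∈ S, τ n * om z (α n) (β n)) ≤
      M * Real.exp (2 * a) * ‖z + Complex.I‖ ^ 2 := by
  classical
  set F : ℂ → ℂ := fun z => C z * Complex.exp (-Complex.I * a * z) / (z + Complex.I) ^ 2 with hF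
  set E : ℂ → ℂ := fun z => Complex.exp (∑ n ∈ S, (τ n : ℂ) * LL z (α n) (β n)) with hE
  have hEn : ∀ z, ‖E z‖ = Real.exp (∑ n ∈ S, τ n * om z (α n) (β n)) := by
    intro z
    simp only [hE]
    rw [Complex.norm_exp]
    congr 1
    rw [Complex.re_sum]
    refine Finset.sum_congr rfl fun n _ => ?_
    rw [Complex.re_ofReal_mul, LL_re]
  have hFn : ∀ z, ‖F z‖ = ‖C z‖ * Real.exp (a * z.im) / ‖z + Complex.I‖ ^ 2 := by
    intro z
    simp only [hF]
    rw [norm_div, norm_mul, norm_pow, Complex.norm_exp]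
    congr 3
    have : -Complex.I * a * z = ((a : ℝ) : ℂ) * (-(Complex.I * z)) := by ring
    rw [this, Complex.re_ofReal_mul, Complex.neg_re, Complex.I_mul_re]
    ring
  have hnorm : ∀ z : ℂ, 0 ≤ z.im → 1 + z.re ^ 2 ≤ ‖z + Complex.I‖ ^ 2 := by
    intro z hz
    rw [Complex.sq_norm, Complex.normSq_apply]
    simp only [Complex.add_re, Complex.I_re, add_zero, Complex.add_im, Complex.I_im]
    nlinarith
  have hFb : ∀ z : ℂ, 1 ≤ z.im → ‖F z‖ ≤ M := by
    intro z hz
    have h1 := hnorm z (by linarith)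
    have h2 := hb z hz
    rw [hFn, div_le_iff₀ (lt_of_lt_of_le (by positivity) h1)]
    calc ‖C z‖ * Real.exp (a * z.im) ≤
          M * (1 + z.re ^ 2) * Real.exp (-(a * z.im)) * Real.exp (a * z.im) := by gcongr
      _ = M * (1 + z.re ^ 2) := by
          rw [mul_assoc, ← Real.exp_add, neg_add_cancel, Real.exp_zero, mul_one]
      _ ≤ _ := by gcongr
  have hFg : ∀ n ∈ S, ∀ z : ℂ, 1 ≤ z.im → z.im ≤ 2 → (α n - δ n < z.re ∧ z.re < β n + δ n) →
      ‖F z‖ ≤ M * Real.exp (2 * a) * Real.exp (-(τ n)) := by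
    intro n hn z hz hz2 hx
    have h1 := hnorm z (by linarith)
    have h2 := hgap n hn z hz hz2 hx
    rw [hFn, div_le_iff₀ (lt_of_lt_of_le (by positivity) h1)]
    calc ‖C z‖ * Real.exp (a * z.im) ≤
          M * (1 + z.re ^ 2) * Real.exp (-(τ n)) * Real.exp (2 * a) := by
          have : Real.exp (a * z.im) ≤ Real.exp (2 * a) := Real.exp_le_exp.2 (by nlinarith)
          gcongr
      _ = M * Real.exp (2 * a) * Real.exp (-(τ n)) * (1 + z.re ^ 2) := by ring
      _ ≤ _ := by gcongr
  set Q : ℝ := ∑ n ∈ S, τ n * ((β n - α n) / δ n ^ 2) with hQ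
  have step : ∀ ε : ℝ, 0 < ε → ε < 1 → 1 + ε ≤ z.im →
      ‖F z‖ * ‖E z‖ ≤ M * Real.exp (2 * a) * Real.exp (ε * Q) := by
    intro ε hε hε1 hεz
    rw [← norm_mul]
    refine pl_up (g := fun z => F z * E z) (b := 1 + ε) (K := M * Real.exp (∑ n ∈ S, τ n))
      (fun z hz => ?_) (fun z hz => ?_) (fun z hz => ?_) hεz
    · have h0 : (z + Complex.I) ≠ 0 := by
        intro h
        have := congrArg Complex.im h
        simp only [Complex.add_im, Complex.I_im, Complex.zero_im] at this
        linarith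
      refine DifferentiableAt.mul ?_ ?_
      · simp only [hF]
        refine DifferentiableAt.div ((hd z (by linarith)).mul (by fun_prop)) (by fun_prop)
          (pow_ne_zero 2 h0)
      · simp only [hE]
        refine DifferentiableAt.cexp ?_
        refine DifferentiableAt.fun_sum fun n _ => ?_
        refine DifferentiableAt.const_mul ?_ _
        unfold LL
        refine DifferentiableAt.const_mul ?_ _
        have hs : ∀ t : ℝ, (z - Complex.I - t : ℂ) ∈ Complex.slitPlane := by
          intro t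
          rw [Complex.mem_slitPlane_iff]
          right
          simp only [Complex.sub_im, Complex.ofReal_im, sub_zero, Complex.I_im]
          linarith
        have hl : ∀ t : ℝ, DifferentiableAt ℂ (fun z : ℂ => Complex.log (z - Complex.I - (t : ℂ))) z :=
          fun t => DifferentiableAt.clog (by fun_prop) (hs t)
        exact (hl (β n)).sub (hl (α n))
    · rw [norm_mul, hEn]
      refine mul_le_mul (hFb z (by linarith)) (Real.exp_le_exp.2 ?_) (Real.exp_pos _).le hM
      refine Finset.sum_le_sum fun n hn => ?_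
      exact mul_le_of_le_one_right (hτ n hn) (om_le_one (by linarith))
    · rw [norm_mul, hEn]
      have hz1 : 1 < z.im := by linarith
      have hs : ∑ n ∈ S, τ n * om z (α n) (β n) ≤
          (∑ n ∈ S, if α n - δ n < z.re ∧ z.re < β n + δ n then τ n else 0) + ε * Q := by
        rw [hQ, Finset.mul_sum, ← Finset.sum_add_distrib]
        refine Finset.sum_le_sum fun n hn => ?_
        have hq : 0 ≤ ε * (τ n * ((β n - α n) / δ n ^ 2)) := by
          have h1 := hτ n hn
          have h2 : 0 ≤ β n - α n := by linarith [hαβ n hn]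
          positivity
        split_ifs with hx
        · have := mul_le_of_le_one_right (hτ n hn) (om_le_one hz1 (α := α n) (β := β n))
          linarith
        · have h1 := om_small hz1 (hαβ n hn) (hδ n hn) hx
          have h2 : z.im - 1 = ε := by linarith
          rw [h2] at h1
          have h3 := mul_le_mul_of_nonneg_left h1 (hτ n hn)
          linarith
      have hf : ‖F z‖ ≤ M * Real.exp (2 * a) *
          Real.exp (-(∑ n ∈ S, if α n - δ n < z.re ∧ z.re < β n + δ n then τ n else 0)) := by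
        by_cases hex : ∃ n ∈ S, α n - δ n < z.re ∧ z.re < β n + δ n
        · obtain ⟨n, hn, hx⟩ := hex
          rw [Finset.sum_eq_single n, if_pos hx]
          · exact hFg n hn z (by linarith) (by linarith) hx
          · intro m hm hmn
            rw [if_neg (hdisj n hn m hm hmn.symm z.re hx)]
          · intro h; exact absurd hn h
        · push Not at hex
          rw [Finset.sum_eq_zero, neg_zero, Real.exp_zero, mul_one]
          · refine (hFb z (by linarith)).trans ?_
            exact le_mul_of_one_le_right hM (Real.one_le_exp (by positivity))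
          · intro n hn
            rw [if_neg]
            rintro ⟨h1, h2⟩
            exact absurd h2 (not_lt.2 (hex n hn h1))
      calc ‖F z‖ * Real.exp (∑ n ∈ S, τ n * om z (α n) (β n)) ≤
            (M * Real.exp (2 * a) * Real.exp (-(∑ n ∈ S,
              if α n - δ n < z.re ∧ z.re < β n + δ n then τ n else 0))) *
            Real.exp ((∑ n ∈ S, if α n - δ n < z.re ∧ z.re < β n + δ n then τ n else 0) +
              ε * Q) := mul_le_mul hf (Real.exp_le_exp.2 hs) (Real.exp_pos _).le (by positivity)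
        _ = _ := by
            rw [mul_assoc, ← Real.exp_add, neg_add_cancel_left]
  have hlim : ‖F z‖ * ‖E z‖ ≤ M * Real.exp (2 * a) := by
    have ht : Tendsto (fun ε : ℝ => M * Real.exp (2 * a) * Real.exp (ε * Q)) (𝓝[>] 0)
        (𝓝 (M * Real.exp (2 * a) * Real.exp (0 * Q))) := by
      refine Tendsto.mono_left ?_ nhdsWithin_le_nhds
      exact (by fun_prop : Continuous fun ε : ℝ =>
        M * Real.exp (2 * a) * Real.exp (ε * Q)).tendsto 0
    rw [zero_mul, Real.exp_zero, mul_one] at ht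
    refine ge_of_tendsto ht ?_
    have h1 : ∀ᶠ ε : ℝ in 𝓝[>] 0, ε ∈ Set.Ioo 0 (min 1 (z.im - 1)) :=
      Ioo_mem_nhdsGT (lt_min one_pos (by linarith))
    filter_upwards [h1] with ε hε
    refine step ε hε.1 (hε.2.trans_le (min_le_left _ _)) ?_
    have := hε.2.trans_le (min_le_right _ _)
    linarith
  rw [hFn, hEn] at hlim
  have h1 := hnorm z (by linarith)
  have hpos : 0 < ‖z + Complex.I‖ ^ 2 := lt_of_lt_of_le (by positivity) h1
  rw [div_mul_eq_mul_div, div_le_iff₀ hpos] at hlim
  refine le_trans ?_ hlim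
  have h2 : 1 ≤ Real.exp (a * z.im) := Real.one_le_exp (by nlinarith)
  have h3 : 0 ≤ ‖C z‖ * Real.exp (∑ n ∈ S, τ n * om z (α n) (β n)) := by positivity
  nlinarith

end Pool.Agent.R346.BG
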