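import Mathlib

/-! Maximum principles: discs and half-planes; harmonic measures of intervals. -/

open MeasureTheory Filter Topology Real

namespace Pool.Agent.R346.BG

/-- exponential smallness at the centre of a disc -/
lemma disc_bound {K a : ℝ} (ha : 0 ≤ a) {C : ℂ → ℂ} {z0 : ℂ} {r : ℝ} (hr : 0 < r)
    (hd : ∀ z, ‖z - z0‖ ≤ r → DifferentiableAt ℂ C z) (hK : 0 ≤ K) (hy : 0 ≤ z0.im)
    (hb : ∀ z, ‖z - z0‖ ≤ r → ‖C z‖ ≤ K * Real.exp (-(a * |z.im|))) :
    ‖C z0‖ ≤ K * Real.exp (a * z0.im) * Real.exp (-(a / 2 * r)) := by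
  set g : ℂ → ℂ := fun z => C z * Complex.exp (((-(a / (2 * r)) : ℝ) : ℂ) * (z - z0) ^ 2) with hg
  have hdiff : DifferentiableOn ℂ g (Metric.closedBall z0 r) := by
    intro z hz
    refine DifferentiableAt.differentiableWithinAt ?_
    refine (hd z (mem_closedBall_iff_norm.1 hz)).mul ?_
    fun_prop
  have h1 := Complex.norm_le_of_forall_mem_frontier_norm_le (Metric.isBounded_ball (x := z0) (r := r))
    (f := g) (hdiff.diffContOnCl_ball subset_rfl)
    (C := K * Real.exp (a * z0.im) * Real.exp (-(a / 2 * r))) ?_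
    (z := z0) (subset_closure (Metric.mem_ball_self hr))
  · simp only [hg] at h1
    rw [sub_self, zero_pow (by norm_num), mul_zero, Complex.exp_zero, mul_one] at h1
    exact h1
  · intro z hz
    rw [frontier_ball z0 hr.ne', mem_sphere_iff_norm] at hz
    simp only [hg]
    rw [norm_mul, Complex.norm_exp, Complex.re_ofReal_mul]
    set w : ℂ := z - z0 with hw
    have hwr : w.re ^ 2 + w.im ^ 2 = r ^ 2 := by
      have := Complex.sq_norm w
      rw [hz, Complex.normSq_apply] at this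
      linarith
    have e1 : (w ^ 2).re = w.re ^ 2 - w.im ^ 2 := by
      rw [sq, Complex.mul_re]; ring
    rw [e1]
    have e2 : z.im = z0.im + w.im := by rw [hw]; simp
    have h2 : |w.im| - z0.im ≤ |z.im| := by
      rw [e2]
      have := abs_sub_abs_le_abs_sub w.im (-z0.im)
      rw [abs_neg, abs_of_nonneg hy, sub_neg_eq_add, add_comm w.im] at this
      exact this
    have h3 : |w.im| ≤ r := by
      have := Complex.abs_im_le_norm w
      rwa [hz] at this
    have h4 := hb z hz.le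
    have h5 : Real.exp (-(a * |z.im|)) * Real.exp (-(a / (2 * r)) * (w.re ^ 2 - w.im ^ 2)) ≤
        Real.exp (a * z0.im) * Real.exp (-(a / 2 * r)) := by
      rw [← Real.exp_add, ← Real.exp_add]
      refine Real.exp_le_exp.2 ?_
      have h6 : -(a / (2 * r)) * (w.re ^ 2 - w.im ^ 2) = -(a / 2 * r) + a * (w.im ^ 2 / r) := by
        have : w.re ^ 2 = r ^ 2 - w.im ^ 2 := by linarith
        rw [this]
        field_simp
        ring
      have h7 : w.im ^ 2 / r ≤ |w.im| := by
        rw [div_le_iff₀ hr, ← sq_abs, sq]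
        exact mul_le_mul_of_nonneg_left h3 (abs_nonneg _)
      have h8 := mul_le_mul_of_nonneg_left h7 ha
      have h9 := mul_le_mul_of_nonneg_left h2 ha
      rw [h6]
      nlinarith
    calc ‖C z‖ * Real.exp (-(a / (2 * r)) * (w.re ^ 2 - w.im ^ 2)) ≤
          K * Real.exp (-(a * |z.im|)) * Real.exp (-(a / (2 * r)) * (w.re ^ 2 - w.im ^ 2)) := by
          gcongr
      _ = K * (Real.exp (-(a * |z.im|)) *
          Real.exp (-(a / (2 * r)) * (w.re ^ 2 - w.im ^ 2))) := by ring
      _ ≤ K * (Real.exp (a * z0.im) * Real.exp (-(a / 2 * r))) := by gcongr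
      _ = _ := by ring

/-- the maximum principle in the half-plane `Im z ≥ b` -/
lemma pl_up {g : ℂ → ℂ} {b K C0 : ℝ} (hd : ∀ z : ℂ, b ≤ z.im → DifferentiableAt ℂ g z)
    (hK : ∀ z : ℂ, b ≤ z.im → ‖g z‖ ≤ K) (hC : ∀ z : ℂ, z.im = b → ‖g z‖ ≤ C0) {z : ℂ}
    (hz : b ≤ z.im) : ‖g z‖ ≤ C0 := by
  set φ : ℂ → ℂ := fun ζ => Complex.I * ζ + Complex.I * b with hφ
  have him : ∀ ζ, (φ ζ).im = ζ.re + b := by
    intro ζ
    simp [hφ]
  set f : ℂ → ℂ := fun ζ => g (φ ζ) with hf
  have hcl : closure {z : ℂ | 0 < z.re} ⊆ {z : ℂ | 0 ≤ z.re} := by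
    rw [Complex.closure_setOfPred_lt_re]
  have h1 : DiffContOnCl ℂ f {z : ℂ | 0 < z.re} := by
    refine DifferentiableOn.diffContOnCl ?_
    intro ζ hζ
    have h2 : 0 ≤ ζ.re := hcl hζ
    refine DifferentiableAt.differentiableWithinAt ?_
    refine DifferentiableAt.comp (g := g) (f := φ) ζ (hd _ (by rw [him]; linarith)) ?_
    simp only [hφ]
    fun_prop
  have h2 : ∃ c < (2 : ℝ), ∃ B : ℝ,
      f =O[Bornology.cobounded ℂ ⊓ 𝓟 {z : ℂ | 0 < z.re}] fun z => Real.exp (B * ‖z‖ ^ c) := by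
    refine ⟨1, by norm_num, 0, ?_⟩
    refine Asymptotics.IsBigO.of_bound K ?_
    refine eventually_inf_principal.2 (Eventually.of_forall fun ζ hζ => ?_)
    rw [zero_mul, Real.exp_zero, norm_one, mul_one]
    exact hK _ (by rw [him]; have : 0 < ζ.re := hζ; linarith)
  have h3 : IsBoundedUnder (· ≤ ·) atTop fun x : ℝ => ‖f x‖ := by
    refine ⟨K, ?_⟩
    rw [eventually_map]
    filter_upwards [eventually_ge_atTop (0 : ℝ)] with x hx
    refine hK _ ?_
    rw [him, Complex.ofReal_re]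
    linarith
  have h4 : ∀ x : ℝ, ‖f (x * Complex.I)‖ ≤ C0 := by
    intro x
    refine hC _ ?_
    rw [him]
    simp
  have h5 := PhragmenLindelof.right_half_plane_of_bounded_on_real h1 h2 h3 h4
    (z := -Complex.I * z - b) (by simp; linarith)
  have h6 : φ (-Complex.I * z - b) = z := by
    simp only [hφ]
    linear_combination (-z) * Complex.I_mul_I
  simp only [hf] at h5
  rwa [h6] at h5

/-- the argument of `w - t` -/
noncomputable def ag (w : ℂ) (t : ℝ) : ℝ := (Complex.log (w - t)).im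

lemma ag_deriv {w : ℂ} (hw : 0 < w.im) (t : ℝ) :
    HasDerivAt (ag w) (w.im / Complex.normSq (w - t)) t := by
  have hs : (w - t : ℂ) ∈ Complex.slitPlane := by
    rw [Complex.mem_slitPlane_iff]
    right
    simp only [Complex.sub_im, Complex.ofReal_im, sub_zero]
    exact hw.ne'
  have h1 : HasDerivAt (fun t : ℝ => (w - t : ℂ)) (-1) t := by
    have := (Complex.ofRealCLM.hasDerivAt (x := t)).const_sub w
    simpa using this
  have h2 := h1.clog_real hs
  have h3 := Complex.imCLM.hasFDerivAt.comp_hasDerivAt t h2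
  have e : w.im / Complex.normSq (w - t) = Complex.imCLM (-1 / (w - t)) := by
    rw [Complex.imCLM_apply, neg_div, one_div, Complex.neg_im, Complex.inv_im]
    simp only [Complex.sub_im, Complex.ofReal_im, sub_zero]
    ring
  rw [e]
  exact h3

lemma ag_diff_le {w : ℂ} (hw : 0 < w.im) {α β hi : ℝ} (hαβ : α ≤ β)
    (h : ∀ t ∈ Set.Icc α β, w.im / Complex.normSq (w - t) ≤ hi) :
    ag w β - ag w α ≤ hi * (β - α) := by
  have hc : ContinuousOn (ag w) (Set.Icc α β) := fun t _ =>
    (ag_deriv hw t).continuousAt.continuousWithinAt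
  have hd : DifferentiableOn ℝ (ag w) (interior (Set.Icc α β)) := fun t _ =>
    (ag_deriv hw t).differentiableAt.differentiableWithinAt
  refine (convex_Icc α β).image_sub_le_mul_sub_of_deriv_le hc hd (fun t ht => ?_) α
    (Set.left_mem_Icc.2 hαβ) β (Set.right_mem_Icc.2 hαβ) hαβ
  rw [(ag_deriv hw t).deriv]
  exact h t (interior_subset ht)

lemma le_ag_diff {w : ℂ} (hw : 0 < w.im) {α β lo : ℝ} (hαβ : α ≤ β)
    (h : ∀ t ∈ Set.Icc α β, lo ≤ w.im / Complex.normSq (w - t)) :
    lo * (β - α) ≤ ag w β - ag w α := by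
  have hc : ContinuousOn (ag w) (Set.Icc α β) := fun t _ =>
    (ag_deriv hw t).continuousAt.continuousWithinAt
  have hd : DifferentiableOn ℝ (ag w) (interior (Set.Icc α β)) := fun t _ =>
    (ag_deriv hw t).differentiableAt.differentiableWithinAt
  refine (convex_Icc α β).mul_sub_le_image_sub_of_le_deriv hc hd (fun t ht => ?_) α
    (Set.left_mem_Icc.2 hαβ) β (Set.right_mem_Icc.2 hαβ) hαβ
  rw [(ag_deriv hw t).deriv]
  exact h t (interior_subset ht)

lemma ag_diff_nonneg {w : ℂ} (hw : 0 < w.im) {α β : ℝ} (hαβ : α ≤ β) :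
    0 ≤ ag w β - ag w α := by
  have := le_ag_diff hw (lo := 0) hαβ fun t _ => div_nonneg hw.le (Complex.normSq_nonneg _)
  linarith

lemma ag_diff_le_pi {w : ℂ} (hw : 0 < w.im) {α β : ℝ} : ag w β - ag w α ≤ π := by
  unfold ag
  rw [Complex.log_im, Complex.log_im]
  have h1 := Complex.arg_le_pi (w - β)
  have h2 : 0 ≤ Complex.arg (w - α) := by
    rw [Complex.arg_nonneg_iff]
    simp only [Complex.sub_im, Complex.ofReal_im, sub_zero]
    exact hw.le
  linarith

end Pool.Agent.R346.BG
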