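import Pool.Agent.R346.BG.FL
import Pool.Agent.Y744.PCR.Test

/-! Functions with a spectral gap: identities. -/

open MeasureTheory Filter Topology Real
open scoped ContDiff

namespace Pool.Agent.R346.BG

open Pool.Agent.Y744 (TK ct)

/-- functions of quadratic growth -/
structure HB (B : ℝ) (H : ℝ → ℝ) : Prop where
  meas : Measurable H
  bound : ∀ y, |H y| ≤ B * (1 + y ^ 2)

/-- even functions of quadratic growth with the spectral gap `(-κ, κ)` -/
structure HP (κ B : ℝ) (H : ℝ → ℝ) : Prop extends HB B H where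
  even : ∀ y, H (-y) = H y
  gap : ∀ K, TK κ K → ∫ y, H y * ct K y = 0

variable {c κ B : ℝ} {f : ℝ → ℂ} {H : ℝ → ℝ}

lemma HB.B0 (h : HB B H) : 0 ≤ B := by
  have := (abs_nonneg _).trans (h.bound 0)
  simpa using this

lemma HB.int_mul (h : HB B H) {g : ℝ → ℂ} (hg : AEStronglyMeasurable g volume) {D : ℝ}
    (hD : ∀ᵐ u, H u ≠ 0 → ‖g u‖ ≤ D / (1 + u ^ 2) ^ 2) : Integrable fun u => (H u : ℂ) * g u := by
  refine (integrable_inv_one_add_sq.const_mul (B * |D|)).mono'
    ((Complex.measurable_ofReal.comp h.meas).aestronglyMeasurable.mul hg) ?_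
  filter_upwards [hD] with u hu
  rw [norm_mul, Complex.norm_real, Real.norm_eq_abs]
  by_cases h0 : H u = 0
  · rw [h0, abs_zero, zero_mul]
    have := h.B0
    positivity
  have h1 := hu h0
  have h2 : 0 < 1 + u ^ 2 := by positivity
  calc |H u| * ‖g u‖ ≤ (B * (1 + u ^ 2)) * (|D| / (1 + u ^ 2) ^ 2) := by
        refine mul_le_mul (h.bound u) (h1.trans ?_) (norm_nonneg _) ?_
        · gcongr
          exact le_abs_self D
        · have := h.B0
          positivity
    _ = B * |D| * (1 + u ^ 2)⁻¹ := by field_simp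

lemma FL_cont (h : CS c f) (hc : 0 ≤ c) : Continuous (FL f) :=
  continuous_iff_continuousAt.2 fun w => (FL_hasDerivAt h hc w).continuousAt

lemma FL_real_decay (h : CS c f) : ∃ D, 0 ≤ D ∧ ∀ u : ℝ, ‖FL f u‖ ≤ D / (1 + u ^ 2) ^ 2 := by
  obtain ⟨C, hC, h1⟩ := FL_decay h
  refine ⟨C, hC, fun u => ?_⟩
  have h2 := h1 u
  rw [Complex.norm_real, Real.norm_eq_abs, sq_abs, Complex.ofReal_im, abs_zero, mul_zero,
    Real.exp_zero, mul_one] at h2
  rw [le_div_iff₀ (by positivity)]
  exact h2

lemma int_cos_eq (h : CS c f) (u : ℝ) :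
    ∫ α : ℝ, f α * (Real.cos (2 * π * u * α) : ℂ) =
      ((∫ α : ℝ, (f α).re * Real.cos (2 * π * u * α) : ℝ) : ℂ) +
        Complex.I * ((∫ α : ℝ, (f α).im * Real.cos (2 * π * u * α) : ℝ) : ℂ) := by
  have hc : Continuous fun α : ℝ => (Real.cos (2 * π * u * α) : ℂ) := by fun_prop
  have i1 : Integrable fun α : ℝ => (f α).re * Real.cos (2 * π * u * α) := by
    refine (h.mul_int hc).re.congr (Eventually.of_forall fun α => ?_)
    show (f α * (Real.cos (2 * π * u * α) : ℂ)).re = _
    rw [Complex.re_mul_ofReal]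
  have i2 : Integrable fun α : ℝ => (f α).im * Real.cos (2 * π * u * α) := by
    refine (h.mul_int hc).im.congr (Eventually.of_forall fun α => ?_)
    show (f α * (Real.cos (2 * π * u * α) : ℂ)).im = _
    rw [Complex.im_mul_ofReal]
  have e1 : ((∫ α : ℝ, (f α).re * Real.cos (2 * π * u * α) : ℝ) : ℂ) =
      ∫ α : ℝ, (((f α).re * Real.cos (2 * π * u * α) : ℝ) : ℂ) := integral_ofReal.symm
  have e2 : ((∫ α : ℝ, (f α).im * Real.cos (2 * π * u * α) : ℝ) : ℂ) =
      ∫ α : ℝ, (((f α).im * Real.cos (2 * π * u * α) : ℝ) : ℂ) := integral_ofReal.symm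
  rw [e1, e2, ← integral_const_mul, ← integral_add i1.ofReal (i2.ofReal.const_mul _)]
  refine integral_congr_ae (Eventually.of_forall fun α => ?_)
  show f α * (Real.cos (2 * π * u * α) : ℂ) = (((f α).re * Real.cos (2 * π * u * α) : ℝ) : ℂ) +
    Complex.I * (((f α).im * Real.cos (2 * π * u * α) : ℝ) : ℂ)
  nth_rewrite 1 [← Complex.re_add_im (f α)]
  push_cast
  ring

/-- the even part -/
lemma TK_even {g : ℝ → ℝ} (hg : ContDiff ℝ ∞ g) (hs : ∀ x, κ < |x| → g x = 0) :
    TK κ (fun α => (g α + g (-α)) / 2) where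
  smooth := (hg.add (hg.comp contDiff_neg)).div_const _
  even := fun x => by rw [neg_neg, add_comm]
  supp := fun x hx => by rw [hs x hx, hs (-x) (by rwa [abs_neg])]; simp

lemma ct_even {g : ℝ → ℝ} (hg : Continuous g) (hs : ∀ x, κ < |x| → g x = 0) (u : ℝ) :
    ct (fun α => (g α + g (-α)) / 2) u = ∫ α, g α * Real.cos (2 * π * u * α) := by
  have hcs : HasCompactSupport g := by
    refine HasCompactSupport.intro (isCompact_Icc (a := -κ) (b := κ)) fun x hx => hs x ?_
    by_contra hc
    exact hx (abs_le.1 (not_lt.1 hc))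
  have i1 : Integrable fun α => g α * Real.cos (2 * π * u * α) :=
    (hg.mul (by fun_prop)).integrable_of_hasCompactSupport hcs.mul_right
  have e1 : ∫ α, g (-α) * Real.cos (2 * π * u * α) = ∫ α, g α * Real.cos (2 * π * u * α) := by
    rw [← integral_neg_eq_self (fun α => g α * Real.cos (2 * π * u * α)) volume]
    refine integral_congr_ae (Eventually.of_forall fun α => ?_)
    show g (-α) * Real.cos (2 * π * u * α) = g (-α) * Real.cos (2 * π * u * (-α))
    rw [mul_neg, Real.cos_neg]
  have i2 : Integrable fun α => g (-α) * Real.cos (2 * π * u * α) := by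
    refine i1.comp_neg.congr (Eventually.of_forall fun α => ?_)
    show g (-α) * Real.cos (2 * π * u * (-α)) = _
    rw [mul_neg, Real.cos_neg]
  unfold ct
  have e2 : ∫ α, (g α + g (-α)) / 2 * Real.cos (2 * π * u * α) =
      ((∫ α, g α * Real.cos (2 * π * u * α)) + ∫ α, g (-α) * Real.cos (2 * π * u * α)) / 2 := by
    rw [← integral_add i1 i2, ← integral_div]
    refine integral_congr_ae (Eventually.of_forall fun α => ?_)
    show (g α + g (-α)) / 2 * Real.cos (2 * π * u * α) =
      (g α * Real.cos (2 * π * u * α) + g (-α) * Real.cos (2 * π * u * α)) / 2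
    ring
  rw [e2, e1]
  ring

lemma FL_add_neg (h : CS c f) (u : ℝ) :
    FL f u + FL f (-u) = 2 * ∫ α : ℝ, f α * (Real.cos (2 * π * u * α) : ℂ) := by
  unfold FL
  rw [← integral_add (h.mul_int (kernel_cont _)) (h.mul_int (kernel_cont _)),
    ← integral_const_mul]
  refine integral_congr_ae (Eventually.of_forall fun α => ?_)
  show f α * Complex.exp (2 * π * Complex.I * α * u) +
    f α * Complex.exp (2 * π * Complex.I * α * -u) = 2 * (f α * (Real.cos (2 * π * u * α) : ℂ))
  rw [Complex.ofReal_cos, Complex.cos]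
  push_cast
  have e1 : (2 * π * u * α : ℂ) * Complex.I = 2 * π * Complex.I * α * u := by ring
  have e2 : -(2 * π * u * α : ℂ) * Complex.I = 2 * π * Complex.I * α * -u := by ring
  rw [e1, e2]
  ring

/-- the spectral gap, complex form -/
lemma gap0 (h : HP κ B H) (hκ : 0 ≤ κ) (hf : CS κ f) : ∫ u : ℝ, (H u : ℂ) * FL f u = 0 := by
  obtain ⟨D, hD0, hD⟩ := FL_real_decay hf
  have hcont : Continuous fun u : ℝ => FL f u := (FL_cont hf hκ).comp Complex.continuous_ofReal
  have i1 : Integrable fun u : ℝ => (H u : ℂ) * FL f u :=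
    h.int_mul hcont.aestronglyMeasurable (Eventually.of_forall fun u _ => hD u)
  have e1 : ∫ u : ℝ, (H u : ℂ) * FL f (-u) = ∫ u : ℝ, (H u : ℂ) * FL f u := by
    rw [← integral_neg_eq_self (fun u : ℝ => (H u : ℂ) * FL f u) volume]
    refine integral_congr_ae (Eventually.of_forall fun u => ?_)
    show (H u : ℂ) * FL f (-u) = (H (-u) : ℂ) * FL f ((-u : ℝ) : ℂ)
    rw [h.even, Complex.ofReal_neg]
  have i2 : Integrable fun u : ℝ => (H u : ℂ) * FL f (-u) := by
    refine i1.comp_neg.congr (Eventually.of_forall fun u => ?_)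
    show (H (-u) : ℂ) * FL f ((-u : ℝ) : ℂ) = (H u : ℂ) * FL f (-u)
    rw [h.even, Complex.ofReal_neg]
  have hre : ContDiff ℝ ∞ fun α => (f α).re := Complex.reCLM.contDiff.comp hf.smooth
  have him : ContDiff ℝ ∞ fun α => (f α).im := Complex.imCLM.contDiff.comp hf.smooth
  have hres : ∀ x, κ < |x| → (f x).re = 0 := fun x hx => by rw [hf.supp x hx]; simp
  have hims : ∀ x, κ < |x| → (f x).im = 0 := fun x hx => by rw [hf.supp x hx]; simp
  set K1 : ℝ → ℝ := fun α => ((f α).re + (f (-α)).re) / 2 with hK1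
  set K2 : ℝ → ℝ := fun α => ((f α).im + (f (-α)).im) / 2 with hK2
  have t1 : TK κ K1 := TK_even hre hres
  have t2 : TK κ K2 := TK_even him hims
  have e2 : ∀ u : ℝ, FL f u + FL f (-u) = 2 * ((ct K1 u : ℂ) + Complex.I * (ct K2 u : ℂ)) := by
    intro u
    rw [FL_add_neg hf, int_cos_eq hf, ← ct_even hre.continuous hres, ← ct_even him.continuous hims]
  have j : ∀ K, TK κ K → Integrable fun u : ℝ => (H u : ℂ) * (ct K u : ℂ) := by
    intro K hK
    obtain ⟨D', hD'0, hD'⟩ := hK.decay 2
    refine h.int_mul (D := D') ((Complex.continuous_ofReal.comp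
      hK.ct_cont).aestronglyMeasurable) (Eventually.of_forall fun u _ => ?_)
    rw [Complex.norm_real]
    exact hD' u
  have z : ∀ K, TK κ K → ∫ u : ℝ, (H u : ℂ) * (ct K u : ℂ) = 0 := by
    intro K hK
    have : ∫ u : ℝ, (H u : ℂ) * (ct K u : ℂ) = ((∫ u : ℝ, H u * ct K u : ℝ) : ℂ) := by
      have e : ((∫ u : ℝ, H u * ct K u : ℝ) : ℂ) = ∫ u : ℝ, ((H u * ct K u : ℝ) : ℂ) :=
        integral_ofReal.symm
      rw [e]
      refine integral_congr_ae (Eventually.of_forall fun u => ?_)
      show (H u : ℂ) * (ct K u : ℂ) = ((H u * ct K u : ℝ) : ℂ)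
      push_cast
      ring
    rw [this, h.gap K hK, Complex.ofReal_zero]
  have e3 : (∫ u : ℝ, (H u : ℂ) * FL f u) + ∫ u : ℝ, (H u : ℂ) * FL f (-u) = 0 := by
    rw [← integral_add i1 i2]
    have : ∫ u : ℝ, ((H u : ℂ) * FL f u + (H u : ℂ) * FL f (-u)) =
        2 * ((∫ u : ℝ, (H u : ℂ) * (ct K1 u : ℂ)) +
          Complex.I * ∫ u : ℝ, (H u : ℂ) * (ct K2 u : ℂ)) := by
      rw [← integral_const_mul Complex.I, ← integral_add (j K1 t1) ((j K2 t2).const_mul _),
        ← integral_const_mul]
      refine integral_congr_ae (Eventually.of_forall fun u => ?_)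
      show (H u : ℂ) * FL f u + (H u : ℂ) * FL f (-u) =
        2 * ((H u : ℂ) * (ct K1 u : ℂ) + Complex.I * ((H u : ℂ) * (ct K2 u : ℂ)))
      rw [← mul_add, e2]
      ring
    rw [this, z K1 t1, z K2 t2]
    simp
  rw [e1] at e3
  have := add_self_eq_zero.1 e3
  exact this

/-- translation by a complex number -/
lemma gapz (h : HP κ B H) (hκ : 0 ≤ κ) (hf : CS κ f) (z : ℂ) :
    ∫ u : ℝ, (H u : ℂ) * FL f (z - u) = 0 := by
  set g : ℝ → ℂ := fun β => f (-β) * Complex.exp (2 * π * Complex.I * β * (-z)) with hg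
  have hsm : ContDiff ℝ ∞ fun β : ℝ => Complex.exp (2 * π * Complex.I * β * (-z)) := by
    exact (lin_smooth.mul contDiff_const).cexp
  have h1 : CS κ g := by
    refine CS.mul_smooth ⟨hf.smooth.comp contDiff_neg, fun x hx => ?_⟩ hsm
    exact hf.supp (-x) (by rwa [abs_neg])
  have h2 : ∀ u : ℝ, FL g u = FL f (z - u) := by
    intro u
    unfold FL
    rw [← integral_neg_eq_self (fun α : ℝ => f α * Complex.exp (2 * π * Complex.I * α * (z - u)))
      volume]
    refine integral_congr_ae (Eventually.of_forall fun β => ?_)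
    show f (-β) * Complex.exp (2 * π * Complex.I * β * (-z)) *
      Complex.exp (2 * π * Complex.I * β * u) =
      f (-β) * Complex.exp (2 * π * Complex.I * ((-β : ℝ) : ℂ) * (z - u))
    rw [mul_assoc, ← Complex.exp_add]
    congr 2
    push_cast
    ring
  have h3 := gap0 h hκ h1
  rw [← h3]
  refine integral_congr_ae (Eventually.of_forall fun u => ?_)
  show (H u : ℂ) * FL f (z - u) = (H u : ℂ) * FL g u
  rw [h2]

/-- the difference of two shifted primitives -/
noncomputable def kk (f : ℝ → ℂ) (s α : ℝ) : ℂ := (∫ t in (0 : ℝ)..α, f t) - ∫ t in (0 : ℝ)..(α - s), f t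

lemma kk_deriv (hf : CS c f) (s α : ℝ) : HasDerivAt (kk f s) (f α - f (α - s)) α := by
  have h1 : ∀ x, HasDerivAt (fun x => ∫ t in (0 : ℝ)..x, f t) (f x) x := fun x =>
    intervalIntegral.integral_hasDerivAt_right (hf.cont.intervalIntegrable _ _)
      (hf.cont.stronglyMeasurableAtFilter _ _) hf.cont.continuousAt
  have h2 := (h1 (α - s)).comp_sub_const α s
  exact (h1 α).sub h2

lemma kk_CS (hf : CS c f) (s : ℝ) : CS (c + |s|) (kk f s) where
  smooth := by
    rw [contDiff_infty_iff_deriv]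
    refine ⟨fun α => (kk_deriv hf s α).differentiableAt, ?_⟩
    have : deriv (kk f s) = fun α => f α - f (α - s) := funext fun α => (kk_deriv hf s α).deriv
    rw [this]
    exact hf.smooth.sub (hf.smooth.comp (contDiff_id.sub contDiff_const))
  supp := by
    intro x hx
    unfold kk
    rw [intervalIntegral.integral_interval_sub_left (hf.cont.intervalIntegrable _ _)
      (hf.cont.intervalIntegrable _ _)]
    rw [intervalIntegral.integral_congr (g := fun _ => 0)]
    · simp
    · intro t ht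
      refine hf.supp t ?_
      have h1 : |t - x| ≤ |s| := by
        have := Set.abs_sub_right_of_mem_uIcc ht
        rw [show x - (x - s) = s by ring] at this
        rw [abs_sub_comm]
        exact this
      have h2 : |x| ≤ |t| + |t - x| := by
        have := abs_sub_abs_le_abs_sub x t
        rw [abs_sub_comm x t] at this
        linarith
      linarith

lemma FL_shift (s : ℝ) (w : ℂ) :
    FL (fun α => f (α - s)) w = Complex.exp (2 * π * Complex.I * s * w) * FL f w := by
  unfold FL
  rw [← integral_sub_right_eq_self (fun α : ℝ => f α * Complex.exp (2 * π * Complex.I * α * w)) s,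
    ← integral_const_mul]
  refine integral_congr_ae (Eventually.of_forall fun α => ?_)
  show f (α - s) * Complex.exp (2 * π * Complex.I * α * w) =
    Complex.exp (2 * π * Complex.I * s * w) *
      (f (α - s) * Complex.exp (2 * π * Complex.I * ((α - s : ℝ) : ℂ) * w))
  rw [mul_left_comm, ← Complex.exp_add]
  congr 2
  push_cast
  ring

lemma kk_FL (hf : CS c f) (s : ℝ) (w : ℂ) :
    -(2 * π * Complex.I * w) * FL (kk f s) w =
      (1 - Complex.exp (2 * π * Complex.I * s * w)) * FL f w := by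
  rw [← FL_deriv (kk_CS hf s)]
  have h1 : deriv (kk f s) = fun α => f α - f (α - s) := funext fun α => (kk_deriv hf s α).deriv
  rw [h1, sub_mul, one_mul, ← FL_shift]
  unfold FL
  have hf2 : CS (c + |s|) (fun α => f (α - s)) := by
    refine ⟨hf.smooth.comp (contDiff_id.sub contDiff_const), fun x hx => hf.supp _ ?_⟩
    have := abs_sub_abs_le_abs_sub x s
    linarith
  rw [← integral_sub (hf.mul_int (kernel_cont w)) (hf2.mul_int (kernel_cont w))]
  refine integral_congr_ae (Eventually.of_forall fun α => ?_)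
  exact sub_mul _ _ _

/-- the kernel -/
noncomputable def G (f : ℝ → ℂ) (w : ℂ) : ℂ := FL f w / w

lemma G_shift (hf : CS c f) (s : ℝ) {w : ℂ} (hw : w ≠ 0) :
    Complex.exp (2 * π * Complex.I * s * w) * G f w = G f w + 2 * π * Complex.I * FL (kk f s) w := by
  have h1 := kk_FL hf s w
  unfold G
  have h2 : Complex.exp (2 * π * Complex.I * s * w) * FL f w =
      FL f w + 2 * π * Complex.I * w * FL (kk f s) w := by linear_combination (1 : ℂ) * h1
  rw [mul_div_assoc', h2]
  field_simp

end Pool.Agent.R346.BG
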